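import Pool.Agent.Tri.Targets

/-!
# ATTR: finitely many limits give finitely many attractors
-/

set_option autoImplicit false

open Set MeasureTheory Filter Topology

namespace Pool.Agent.Tri

namespace ATTR_

variable {n : ℕ} {f : T n → T n}

/-- The forward orbit. -/
private def orb (f : T n → T n) (p : T n) : Set (T n) := range fun k : ℕ => f^[k] p

private theorem orb_finite {p : T n} {m : ℕ} (hm : 1 ≤ m) (hp : f^[m] p = p) :
    (orb f p).Finite := by
  have h : orb f p ⊆ (fun k : ℕ => f^[k] p) '' (Finset.range m : Set ℕ) := by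
    rintro _ ⟨k, rfl⟩
    refine ⟨k % m, ?_, ?_⟩
    · simpa using Nat.mod_lt k (by omega)
    · exact Function.IsPeriodicPt.iterate_mod_apply (f := f) (n := m) (x := p) hp k
  exact ((Finset.finite_toSet _).image _).subset h

private theorem orb_image {p : T n} {m : ℕ} (hm : 1 ≤ m) (hp : f^[m] p = p) :
    f '' orb f p = orb f p := by
  apply Subset.antisymm
  · rintro _ ⟨_, ⟨k, rfl⟩, rfl⟩
    exact ⟨k + 1, by simp [Function.iterate_succ_apply']⟩
  · rintro _ ⟨k, rfl⟩
    refine ⟨f^[k + (m - 1)] p, ⟨k + (m - 1), rfl⟩, ?_⟩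
    have h1 : f (f^[k + (m - 1)] p) = f^[k + m] p := by
      rw [← Function.iterate_succ_apply' f]
      congr 1
      have : (k + (m - 1)).succ = k + m := by omega
      rw [this]
    rw [h1, Function.iterate_add_apply, hp]

private theorem mem_basin {x p : T n} {m : ℕ} (hm : 1 ≤ m) (hp : f^[m] p = p)
    (h : Tendsto (fun k : ℕ => dist (f^[k] x) (f^[k] p)) atTop (𝓝 0)) :
    x ∈ basin f (orb f p) := by
  intro y hy
  by_contra hne
  have hcl : IsClosed (orb f p) := (orb_finite hm hp).isClosed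
  obtain ⟨ε, hε, hball⟩ := Metric.isOpen_iff.1 hcl.isOpen_compl y hne
  rw [mapClusterPt_iff_frequently] at hy
  have h1 := hy (Metric.ball y (ε / 2)) (Metric.ball_mem_nhds y (by positivity))
  have h2 : ∀ᶠ k : ℕ in atTop, dist (f^[k] x) (f^[k] p) < ε / 2 :=
    h.eventually (gt_mem_nhds (by positivity))
  obtain ⟨k, hk1, hk2⟩ := (h1.and_eventually h2).exists
  have hmem : f^[k] p ∈ orb f p := ⟨k, rfl⟩
  refine absurd hmem (hball ?_)
  rw [Metric.mem_ball] at hk1 ⊢
  calc dist (f^[k] p) y ≤ dist (f^[k] p) (f^[k] x) + dist (f^[k] x) y := dist_triangle _ _ _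
    _ < ε / 2 + ε / 2 := by rw [dist_comm (f^[k] p)]; linarith
    _ = ε := by ring

end ATTR_

open ATTR_ in
theorem pATTR : T_ATTR := by
  intro n f ⟨P, hfin, hper, hlim⟩
  refine ⟨(fun p => orb f p) '' {p ∈ P | 0 < volume (basin f (orb f p))},
    (hfin.subset (sep_subset _ _)).image _, ?_, ?_⟩
  · rintro _ ⟨p, ⟨hp, hpos⟩, rfl⟩
    obtain ⟨m, hm, hmp⟩ := hper p hp
    exact ⟨orb_image hm hmp, ⟨p, ⟨0, rfl⟩, subset_closure⟩, hpos⟩
  · have hsub : {x : T n | ∀ Λ ∈ (fun p => orb f p) '' {p ∈ P | 0 < volume (basin f (orb f p))},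
        x ∉ basin f Λ} ⊆ ⋃ p ∈ {p ∈ P | volume (basin f (orb f p)) = 0}, basin f (orb f p) := by
      intro x hx
      obtain ⟨p, hp, hxp⟩ := hlim x
      obtain ⟨m, hm, hmp⟩ := hper p hp
      have hb : x ∈ basin f (orb f p) := mem_basin hm hmp hxp
      rw [mem_iUnion₂]
      refine ⟨p, ⟨hp, ?_⟩, hb⟩
      by_contra h0
      exact hx (orb f p) ⟨p, ⟨hp, pos_iff_ne_zero.2 h0⟩, rfl⟩ hb
    refine measure_mono_null hsub ?_
    rw [measure_biUnion_null_iff (hfin.subset (sep_subset _ _)).countable]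
    intro p hp
    exact hp.2

end Pool.Agent.Tri
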