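import Pool.Agent.Tri.Basic

/-!
# TRI-BUMP: periodic functions that separate the points of a finite set
-/

set_option autoImplicit false

open Set MeasureTheory Filter Topology
open scoped ContDiff

namespace Pool.Agent.Tri

namespace BUMP_

/-- Vanishes exactly over `q`. -/
noncomputable def psi {m : ℕ} (q : T m) (x : V m) : ℝ :=
  ∑ j, (1 - Real.cos (2 * Real.pi * (x j - sec q j)))

lemma psi_contDiff {m : ℕ} (q : T m) : ContDiff ℝ ∞ (psi q) := by
  unfold psi
  apply ContDiff.sum
  intro j _
  have h : ContDiff ℝ ∞ (fun x : V m => x j) := contDiff_apply ℝ ℝ j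
  exact contDiff_const.sub (Real.contDiff_cos.comp (contDiff_const.mul (h.sub contDiff_const)))

lemma psi_per {m : ℕ} (q : T m) : Per (psi q) := by
  intro x k
  unfold psi
  apply Finset.sum_congr rfl
  intro j _
  have e : 2 * Real.pi * (x j + k j - sec q j) =
      2 * Real.pi * (x j - sec q j) + k j * (2 * Real.pi) := by ring
  rw [e, Real.cos_add_int_mul_two_pi]

lemma psi_congr {m : ℕ} (q : T m) {x y : V m} (h : mk x = mk y) : psi q x = psi q y := by
  obtain ⟨k, hk⟩ := (mk_eq_iff x y).1 h
  have : x = fun i => y i + k i := by funext i; exact hk i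
  rw [this, psi_per q y k]

lemma psi_eq_zero {m : ℕ} (q : T m) (x : V m) : psi q x = 0 ↔ mk x = q := by
  constructor
  · intro h
    have h1 := (Finset.sum_eq_zero_iff_of_nonneg (fun j _ => by
      have := Real.cos_le_one (2 * Real.pi * (x j - sec q j))
      linarith)).1 h
    have h2 : mk x = mk (sec q) := by
      refine (mk_eq_iff _ _).2 ?_
      have h3 : ∀ j, ∃ k : ℤ, x j = sec q j + k := by
        intro j
        have h4 : Real.cos (2 * Real.pi * (x j - sec q j)) = 1 := by
          have := h1 j (Finset.mem_univ j)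
          linarith
        obtain ⟨k, hk⟩ := (Real.cos_eq_one_iff _).1 h4
        refine ⟨k, ?_⟩
        have h5 : (2 * Real.pi) ≠ 0 := by positivity
        have h6 : (2 * Real.pi) * (k : ℝ) = 2 * Real.pi * (x j - sec q j) := by
          rw [← hk]; ring
        have h7 := mul_left_cancel₀ h5 h6
        linarith
      choose k hk using h3
      exact ⟨k, hk⟩
    rw [h2, mk_sec]
  · intro h
    rw [psi_congr q (y := sec q) (by rw [mk_sec, h]), psi]
    apply Finset.sum_eq_zero
    intro j _
    simp

end BUMP_

theorem pBUMP : T_BUMP := by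
  classical
  intro m P
  refine ⟨fun p x => ∏ q ∈ P.erase p, (BUMP_.psi q x / BUMP_.psi q (sec p)), ?_⟩
  intro p hp
  refine ⟨?_, ?_, ?_⟩
  · apply contDiff_prod
    intro q _
    exact (BUMP_.psi_contDiff q).div_const _
  · intro x k
    apply Finset.prod_congr rfl
    intro q _
    rw [BUMP_.psi_per q x k]
  · intro x hx
    constructor
    · intro h
      apply Finset.prod_eq_one
      intro q hq
      have h1 : BUMP_.psi q x = BUMP_.psi q (sec p) := BUMP_.psi_congr q (by rw [mk_sec, h])
      rw [h1, div_self]
      intro h2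
      have h3 := (BUMP_.psi_eq_zero q (sec p)).1 h2
      rw [mk_sec] at h3
      exact (Finset.ne_of_mem_erase hq) h3.symm
    · intro h
      apply Finset.prod_eq_zero (i := mk x) (Finset.mem_erase.2 ⟨h, hx⟩)
      rw [(BUMP_.psi_eq_zero (mk x) x).2 rfl, zero_div]

end Pool.Agent.Tri
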