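import Pool.Agent.Tri.Targets

/-!
# Basic facts on lifts of maps of the torus
-/

set_option autoImplicit false

open Set MeasureTheory Filter Topology
open scoped ContDiff

namespace Pool.Agent.Tri

variable {n : ℕ}

lemma coe_eq_coe_iff (x y : ℝ) : (x : UnitAddCircle) = y ↔ ∃ k : ℤ, x = y + k := by
  constructor
  · intro h
    have h0 : ((x - y : ℝ) : UnitAddCircle) = 0 := by
      rw [AddCircle.coe_sub, h, sub_self]
    obtain ⟨k, hk⟩ := (AddCircle.coe_eq_zero_iff (p := (1 : ℝ))).1 h0
    refine ⟨k, ?_⟩
    simp only [zsmul_eq_mul, mul_one] at hk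
    linarith
  · rintro ⟨k, rfl⟩
    have h0 : ((k : ℝ) : UnitAddCircle) = 0 :=
      (AddCircle.coe_eq_zero_iff (p := (1 : ℝ))).2 ⟨k, by simp⟩
    rw [AddCircle.coe_add, h0, add_zero]

lemma mk_apply (x : V n) (i : Fin n) : mk x i = (x i : UnitAddCircle) := rfl

lemma mk_eq_iff (x y : V n) : mk x = mk y ↔ ∃ k : Fin n → ℤ, ∀ i, x i = y i + k i := by
  constructor
  · intro h
    have h' : ∀ i, ∃ k : ℤ, x i = y i + k := fun i => (coe_eq_coe_iff _ _).1 (congrFun h i)
    choose k hk using h'
    exact ⟨k, hk⟩
  · rintro ⟨k, hk⟩
    funext i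
    exact (coe_eq_coe_iff _ _).2 ⟨k i, hk i⟩

lemma isOpenQuotientMap_mk : IsOpenQuotientMap (mk : V n → T n) :=
  IsOpenQuotientMap.piMap (f := fun _ : Fin n => ((↑) : ℝ → UnitAddCircle))
    (fun _ => QuotientAddGroup.isOpenQuotientMap_mk)

lemma continuous_mk : Continuous (mk : V n → T n) := isOpenQuotientMap_mk.continuous

lemma mk_surjective : Function.Surjective (mk : V n → T n) := isOpenQuotientMap_mk.surjective

/-- A section of the projection. -/
noncomputable def sec (z : T n) : V n := (mk_surjective z).choose

@[simp] lemma mk_sec (z : T n) : mk (sec z) = z := (mk_surjective z).choose_spec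

/-- A map of the torus with a continuous lift is continuous. -/
lemma continuous_of_lift {F : V n → V n} {f : T n → T n} (hF : Continuous F) (h : IsLift F f) :
    Continuous f := by
  rw [← isOpenQuotientMap_mk.continuous_comp_iff]
  have : f ∘ mk = mk ∘ F := by funext x; exact (h x).symm
  rw [this]
  exact continuous_mk.comp hF

/-- A continuous integer valued function on `V n` is constant. -/
lemma int_const {E : Type} [TopologicalSpace E] [PreconnectedSpace E] {u : E → ℝ}
    (hu : Continuous u) (h : ∀ x, ∃ k : ℤ, u x = k) (x y : E) : u x = u y := by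
  have hr : ∀ x, ((round (u x) : ℤ) : ℝ) = u x := by
    intro x
    obtain ⟨k, hk⟩ := h x
    rw [hk, round_intCast]
  have hc : Continuous (fun x => round (u x)) := by
    rw [continuous_discrete_rng]
    intro b
    have : (fun x => round (u x)) ⁻¹' {b} = u ⁻¹' (Ioo ((b : ℝ) - 1) (b + 1)) := by
      ext x
      simp only [mem_preimage, mem_singleton_iff, mem_Ioo]
      constructor
      · intro hb
        have := hr x
        rw [hb] at this
        rw [← this]
        constructor <;> linarith
      · rintro ⟨h1, h2⟩
        rw [← hr x] at h1 h2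
        have h1' : b - 1 < round (u x) := by exact_mod_cast h1
        have h2' : round (u x) < b + 1 := by exact_mod_cast h2
        omega
    rw [this]
    exact isOpen_Ioo.preimage hu
  have hxy : round (u x) = round (u y) := PreconnectedSpace.constant inferInstance hc
  rw [← hr x, ← hr y, hxy]

/-- Two continuous lifts of the same map differ by a constant integer vector. -/
lemma lift_unique {F G : V n → V n} {f : T n → T n} (hF : Continuous F) (hG : Continuous G)
    (h1 : IsLift F f) (h2 : IsLift G f) : ∃ k : Fin n → ℤ, ∀ x i, F x i = G x i + k i := by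
  have h : ∀ x i, ∃ k : ℤ, F x i - G x i = k := by
    intro x i
    have e : mk (F x) = mk (G x) := by rw [h1 x, h2 x]
    obtain ⟨k, hk⟩ := (mk_eq_iff _ _).1 e
    exact ⟨k i, by rw [hk i]; ring⟩
  have hc : ∀ i x, F x i - G x i = F 0 i - G 0 i := by
    intro i x
    have hcont : Continuous (fun x => F x i - G x i) :=
      ((continuous_apply i).comp hF).sub ((continuous_apply i).comp hG)
    exact int_const hcont (fun x => h x i) x 0
  choose k hk using (fun i => h 0 i)
  exact ⟨k, fun x i => by have := hc i x; rw [hk i] at this; linarith⟩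

/-- A continuous lift of a map that also has a `C^r` lift is `C^r`. -/
lemma contDiff_of_lift {r : ℕ∞} {F G : V n → V n} {f : T n → T n} (hF : ContDiff ℝ r F)
    (hG : Continuous G) (h1 : IsLift F f) (h2 : IsLift G f) : ContDiff ℝ r G := by
  obtain ⟨k, hk⟩ := lift_unique hG hF.continuous h2 h1
  have : G = fun x => F x + (fun i => (k i : ℝ)) := by
    funext x i
    simp [hk x i]
  rw [this]
  exact hF.add contDiff_const

/-- Translating the argument of a lift by an integer vector. -/
lemma lift_add_int {F : V n → V n} {f : T n → T n} (h : IsLift F f) (x : V n)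
    (k : Fin n → ℤ) : ∃ l : Fin n → ℤ, ∀ i, F (fun i => x i + k i) i = F x i + l i := by
  have e : mk (F (fun i => x i + k i)) = mk (F x) := by
    rw [h, h]
    congr 1
    exact (mk_eq_iff _ _).2 ⟨k, fun i => rfl⟩
  exact (mk_eq_iff _ _).1 e

end Pool.Agent.Tri
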