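import Pool.Agent.Tri.Targets

/-!
# TRI-CLOSE: a small rotation creates a periodic orbit
-/

set_option autoImplicit false

open Set MeasureTheory Filter Topology
open scoped ContDiff

namespace Pool.Agent.Tri

namespace CLOSE_

lemma cont {t : ℝ → ℝ} (ht : Continuous t) (y : ℝ) (m : ℕ) :
    Continuous (fun s : ℝ => (fun x => t x + s)^[m] y) := by
  induction m with
  | zero => simpa using continuous_const
  | succ m ih =>
    simp only [Function.iterate_succ_apply']
    exact (ht.comp ih).add continuous_id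

lemma ge {t : ℝ → ℝ} (ht : StrictMono t) (y : ℝ) {s : ℝ} (hs : 0 ≤ s) (m : ℕ) :
    t^[m] y ≤ (fun x => t x + s)^[m] y := by
  induction m with
  | zero => simp
  | succ m ih =>
    simp only [Function.iterate_succ_apply']
    have := ht.monotone ih
    linarith

lemma ge' {t : ℝ → ℝ} (ht : StrictMono t) (y : ℝ) {s : ℝ} (hs : 0 ≤ s) {m : ℕ} (hm : 1 ≤ m) :
    t^[m] y + s ≤ (fun x => t x + s)^[m] y := by
  obtain ⟨m, rfl⟩ : ∃ k, m = k + 1 := ⟨m - 1, by omega⟩
  simp only [Function.iterate_succ_apply']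
  have := ht.monotone (ge ht y hs m)
  linarith

lemma le {t : ℝ → ℝ} (ht : StrictMono t) (y : ℝ) {s : ℝ} (hs : s ≤ 0) (m : ℕ) :
    (fun x => t x + s)^[m] y ≤ t^[m] y := by
  induction m with
  | zero => simp
  | succ m ih =>
    simp only [Function.iterate_succ_apply']
    have := ht.monotone ih
    linarith

lemma le' {t : ℝ → ℝ} (ht : StrictMono t) (y : ℝ) {s : ℝ} (hs : s ≤ 0) {m : ℕ} (hm : 1 ≤ m) :
    (fun x => t x + s)^[m] y ≤ t^[m] y + s := by
  obtain ⟨m, rfl⟩ : ∃ k, m = k + 1 := ⟨m - 1, by omega⟩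
  simp only [Function.iterate_succ_apply']
  have := ht.monotone (le ht y hs m)
  linarith

lemma pigeon (a : ℕ → ℝ) {ε : ℝ} (hε : 0 < ε) :
    ∃ i j : ℕ, i < j ∧ ∃ k : ℤ, |a j - a i - k| < ε := by
  obtain ⟨M, hM⟩ := exists_nat_one_div_lt hε
  have hM0 : (0 : ℝ) < (M + 1 : ℕ) := by positivity
  have hmaps : ∀ i ∈ Finset.range (M + 1 + 1),
      ⌊Int.fract (a i) * (M + 1 : ℕ)⌋ ∈ Finset.Ico (0 : ℤ) ((M + 1 : ℕ) : ℤ) := by
    intro i _
    rw [Finset.mem_Ico]
    constructor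
    · apply Int.floor_nonneg.2
      exact mul_nonneg (Int.fract_nonneg _) hM0.le
    · rw [Int.floor_lt]
      have := Int.fract_lt_one (a i)
      have h : Int.fract (a i) * (M + 1 : ℕ) < 1 * (M + 1 : ℕ) := by
        exact mul_lt_mul_of_pos_right this hM0
      rw [one_mul] at h
      exact_mod_cast h
  have hcard : (Finset.Ico (0 : ℤ) ((M + 1 : ℕ) : ℤ)).card < (Finset.range (M + 1 + 1)).card := by
    simp
  have key : ∀ i j : ℕ, ⌊Int.fract (a i) * (M + 1 : ℕ)⌋ = ⌊Int.fract (a j) * (M + 1 : ℕ)⌋ →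
      |Int.fract (a j) - Int.fract (a i)| < ε := by
    intro i j h
    have h1 := Int.abs_sub_lt_one_of_floor_eq_floor h.symm
    rw [← sub_mul, abs_mul, abs_of_pos hM0] at h1
    have h2 : |Int.fract (a j) - Int.fract (a i)| < 1 / (M + 1 : ℕ) := by
      rw [lt_div_iff₀ hM0]; exact h1
    refine h2.trans ?_
    push_cast
    exact hM
  obtain ⟨i, hi, j, hj, hij, he⟩ := Finset.exists_ne_map_eq_of_card_lt_of_maps_to hcard hmaps
  rcases lt_or_gt_of_ne hij with h | h
  · refine ⟨i, j, h, ⌊a j⌋ - ⌊a i⌋, ?_⟩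
    have h1 := key i j he
    have h2 := Int.floor_add_fract (a i)
    have h3 := Int.floor_add_fract (a j)
    push_cast
    have : a j - a i - (⌊a j⌋ - ⌊a i⌋) = Int.fract (a j) - Int.fract (a i) := by linarith
    rw [this]; exact h1
  · refine ⟨j, i, h, ⌊a i⌋ - ⌊a j⌋, ?_⟩
    have h1 := key j i he.symm
    have h2 := Int.floor_add_fract (a i)
    have h3 := Int.floor_add_fract (a j)
    push_cast
    have : a i - a j - (⌊a i⌋ - ⌊a j⌋) = Int.fract (a i) - Int.fract (a j) := by linarith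
    rw [this]; exact h1

end CLOSE_

open CLOSE_ in
theorem pCLOSE : T_CLOSE := by
  intro t ε htc htm hper hε
  obtain ⟨i, j, hij, k, hk⟩ := pigeon (fun i => t^[i] 0) hε
  obtain ⟨θ, hθ⟩ : ∃ θ, θ = t^[j] 0 - t^[i] 0 - k := ⟨_, rfl⟩
  rw [← hθ] at hk
  obtain ⟨m, hm⟩ : ∃ m, j = m + i := ⟨j - i, by omega⟩
  have hm1 : 1 ≤ m := by omega
  have hmy : t^[m] (t^[i] 0) = t^[i] 0 + k + θ := by
    rw [← Function.iterate_add_apply, ← hm, hθ]; ring
  obtain ⟨y, hy⟩ : ∃ y, y = t^[i] 0 := ⟨_, rfl⟩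
  rw [← hy] at hmy
  have hcont : Continuous (fun s : ℝ => (fun x => t x + s)^[m] y) := cont htc y m
  have hk' := abs_lt.1 hk
  have h0 : (fun x => t x + 0)^[m] y = y + k + θ := by
    simp only [add_zero]; exact hmy
  rcases le_total θ 0 with hθ0 | hθ0
  · have h1 := ge' htm y (s := -θ) (by linarith) hm1
    rw [hmy] at h1
    obtain ⟨s, hs, hs'⟩ := intermediate_value_Icc (a := 0) (b := -θ) (by linarith)
      hcont.continuousOn (show y + k ∈ _ from ⟨by simp only [h0]; linarith, by linarith⟩)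
    exact ⟨s, abs_le.2 ⟨by linarith [hs.1], by linarith [hs.2]⟩, m, hm1, k, y, hs'⟩
  · have h1 := le' htm y (s := -θ) (by linarith) hm1
    rw [hmy] at h1
    obtain ⟨s, hs, hs'⟩ := intermediate_value_Icc (a := -θ) (b := 0) (by linarith)
      hcont.continuousOn (show y + k ∈ _ from ⟨by linarith, by simp only [h0]; linarith⟩)
    exact ⟨s, abs_le.2 ⟨by linarith [hs.1], by linarith [hs.2]⟩, m, hm1, k, y, hs'⟩

end Pool.Agent.Tri
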