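import Pool.Agent.Tri.Targets

set_option autoImplicit false

open Set MeasureTheory Filter Topology
open scoped ContDiff

namespace Pool.Agent.Tri

namespace DEC_

private lemma finite_fix {s : ℝ → ℝ} (hs : AnalyticOnNhd ℝ s univ) {y : ℝ} (hy : s y ≠ y) :
    {y ∈ Icc (0:ℝ) 1 | s y = y}.Finite := by
  have hD : AnalyticOnNhd ℝ (fun y => s y - y) univ := hs.sub analyticOnNhd_id
  have h1 : (fun y => s y - y) ⁻¹' {0}ᶜ ∈ codiscrete ℝ :=
    hD.preimage_zero_mem_codiscrete (x := y) (sub_ne_zero.2 hy)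
  have h2 : (fun y => s y - y) ⁻¹' {0}ᶜ ∈ codiscreteWithin (Icc (0:ℝ) 1) :=
    codiscreteWithin_mono (subset_univ _) h1
  have h3 := isCompact_Icc.finite_sdiff_of_mem_codiscreteWithin h2
  refine h3.subset ?_
  rintro z ⟨hz, hz'⟩
  refine ⟨hz, ?_⟩
  simp [hz']

private lemma both {T : ℝ → ℝ} (hT : StrictAnti T) {y : ℝ} (hy : T (T y) ≠ y) :
    (∃ y, T (T y) < y) ∧ ∃ y, y < T (T y) := by
  rcases lt_or_gt_of_ne hy with h | h
  · exact ⟨⟨y, h⟩, ⟨T y, hT h⟩⟩
  · exact ⟨⟨T y, hT h⟩, ⟨y, h⟩⟩

private lemma shift {t : ℝ → ℝ} (hp : ∀ y, t (y + 1) = t y - 1) (n : ℕ) (y : ℝ) :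
    t (y + n) = t y - n := by
  induction n with
  | zero => simp
  | succ n ih =>
    push_cast
    rw [← add_assoc, hp, ih]
    ring

private lemma fixpt {t : ℝ → ℝ} (ht : Continuous t) (hp : ∀ y, t (y + 1) = t y - 1) :
    ∃ a, t a = a := by
  obtain ⟨n, hn⟩ := exists_nat_gt |t 0|
  have h1 : t n = t 0 - n := by simpa using shift hp n 0
  have h2 : t (-n) = t 0 + n := by
    have := shift hp n (-n)
    simp only [neg_add_cancel] at this
    linarith
  have hn0 : (0:ℝ) ≤ n := Nat.cast_nonneg n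
  have habs := abs_lt.1 hn
  have hcont : ContinuousOn (fun y => t y - y) (Icc (-(n:ℝ)) n) :=
    (ht.sub continuous_id).continuousOn
  have hiv := intermediate_value_Icc' (by linarith : -(n:ℝ) ≤ n) hcont
  have h0 : (0 : ℝ) ∈ Icc (t n - n) (t (-n) - (-n)) := by
    constructor
    · rw [h1]; linarith [habs.2]
    · rw [h2]; linarith [habs.1]
  obtain ⟨a, _, ha⟩ := hiv h0
  exact ⟨a, by linarith [ha]⟩

private lemma der_bound (δ a : ℝ) (hδ : 0 ≤ δ) (j : ℕ) (y : ℝ) :
    |iteratedDeriv j (fun z => δ * Real.sin (2 * Real.pi * (z - a))) y| ≤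
      δ * (2 * Real.pi) ^ j := by
  have h1 : iteratedDeriv j (fun z => δ * Real.sin (2 * Real.pi * (z - a))) y
      = δ * iteratedDeriv j (fun z => Real.sin (2 * Real.pi * (z - a))) y :=
    iteratedDeriv_const_mul_field δ _
  have h2 : iteratedDeriv j (fun z => Real.sin (2 * Real.pi * (z - a))) y
      = iteratedDeriv j (fun z => Real.sin (2 * Real.pi * z)) (y - a) :=
    congrFun (iteratedDeriv_comp_sub_const j (fun z => Real.sin (2 * Real.pi * z)) a) y
  have h3 : iteratedDeriv j (fun z => Real.sin (2 * Real.pi * z)) (y - a)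
      = (2 * Real.pi) ^ j * iteratedDeriv j Real.sin (2 * Real.pi * (y - a)) :=
    congrFun (iteratedDeriv_comp_const_mul Real.contDiff_sin (2 * Real.pi)) (y - a)
  rw [h1, h2, h3, abs_mul, abs_of_nonneg hδ, abs_mul, abs_of_nonneg (by positivity)]
  have h4 := Real.abs_iteratedDeriv_sin_le_one j (2 * Real.pi * (y - a))
  have h5 : 0 ≤ (2 * Real.pi) ^ j := by positivity
  nlinarith [mul_nonneg hδ h5, mul_le_mul_of_nonneg_left h4 (mul_nonneg hδ h5)]

private lemma phi_mono {δ a : ℝ} (hδ : 0 < δ) (hδ1 : δ * (2 * Real.pi) < 1) :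
    StrictMono (fun z => z + δ * Real.sin (2 * Real.pi * (z - a))) := by
  intro z z' hz
  have h1 : |Real.sin (2 * Real.pi * (z - a)) - Real.sin (2 * Real.pi * (z' - a))|
      ≤ |2 * Real.pi * (z - a) - 2 * Real.pi * (z' - a)| := by
    have := Real.lipschitzWith_sin.dist_le_mul (2 * Real.pi * (z - a)) (2 * Real.pi * (z' - a))
    simpa [Real.dist_eq] using this
  have h2 : |2 * Real.pi * (z - a) - 2 * Real.pi * (z' - a)| = 2 * Real.pi * (z' - z) := by
    have : 2 * Real.pi * (z - a) - 2 * Real.pi * (z' - a) = -(2 * Real.pi * (z' - z)) := by ring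
    rw [this, abs_neg, abs_of_nonneg]
    have := Real.pi_pos
    have := hz.le
    apply mul_nonneg <;> linarith
  rw [h2] at h1
  have h3 := (abs_le.1 h1).2
  have h4 : δ * (Real.sin (2 * Real.pi * (z - a)) - Real.sin (2 * Real.pi * (z' - a)))
      ≤ δ * (2 * Real.pi * (z' - z)) := mul_le_mul_of_nonneg_left h3 hδ.le
  have h5 : δ * (2 * Real.pi * (z' - z)) < z' - z := by
    have : δ * (2 * Real.pi * (z' - z)) = (δ * (2 * Real.pi)) * (z' - z) := by ring
    rw [this]
    have h6 : 0 < z' - z := sub_pos.2 hz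
    nlinarith
  show z + δ * Real.sin (2 * Real.pi * (z - a)) < z' + δ * Real.sin (2 * Real.pi * (z' - a))
  linarith [mul_sub δ (Real.sin (2 * Real.pi * (z - a))) (Real.sin (2 * Real.pi * (z' - a)))]

end DEC_

open DEC_ in
/-- DEC. -/
theorem pDEC : T_DEC := by
  intro t K ε ht hm hper hε
  have htc : Continuous t := by
    have := ht.continuousOn
    rwa [← continuousOn_univ]
  by_cases hcase : ∃ y, t (t y) ≠ y
  · obtain ⟨y, hy⟩ := hcase
    refine ⟨fun _ => 0, analyticOnNhd_const, ⟨fun _ => rfl, fun j _ y => ?_⟩, ?_⟩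
    · have : iteratedDeriv j (fun _ : ℝ => (0:ℝ)) y = 0 := by
        rw [iteratedDeriv_const]; split_ifs <;> rfl
      rw [this, abs_zero]
      exact hε.le
    · have he : (fun x => t x + (fun _ : ℝ => (0:ℝ)) (t x)) = t := by
        funext x; simp
      rw [he]
      obtain ⟨h1, h2⟩ := both hm hy
      refine ⟨h1, h2, ?_⟩
      have han : AnalyticOnNhd ℝ (fun y => t (t y)) univ := fun x _ =>
        (ht (t x) trivial).comp (ht x trivial)
      exact finite_fix han hy
  · push Not at hcase
    obtain ⟨a, ha⟩ := fixpt htc hper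
    have hpi := Real.pi_pos
    have hpi3 := Real.pi_gt_three
    obtain ⟨δ, hδ, hδ1, hδ2⟩ : ∃ δ : ℝ, 0 < δ ∧ δ * (2 * Real.pi) < 1 ∧
        δ * (2 * Real.pi) ^ K ≤ ε := by
      have hK : 0 < (2 * Real.pi) ^ K := by positivity
      refine ⟨min (1 / (4 * Real.pi)) (ε / (2 * Real.pi) ^ K), by positivity, ?_, ?_⟩
      · have h1 : min (1 / (4 * Real.pi)) (ε / (2 * Real.pi) ^ K) ≤ 1 / (4 * Real.pi) :=
          min_le_left _ _
        have h2 : 1 / (4 * Real.pi) * (2 * Real.pi) = 1 / 2 := by field_simp; norm_num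
        have h3 := mul_le_mul_of_nonneg_right h1 (by positivity : 0 ≤ 2 * Real.pi)
        linarith
      · have h1 : min (1 / (4 * Real.pi)) (ε / (2 * Real.pi) ^ K) ≤ ε / (2 * Real.pi) ^ K :=
          min_le_right _ _
        have h2 : ε / (2 * Real.pi) ^ K * (2 * Real.pi) ^ K = ε := by field_simp
        have h3 := mul_le_mul_of_nonneg_right h1 hK.le
        linarith
    set η : ℝ → ℝ := fun z => δ * Real.sin (2 * Real.pi * (z - a)) with hη
    have hηa : AnalyticOnNhd ℝ η univ := by
      intro z _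
      simp only [hη]
      fun_prop
    have hφ : StrictMono (fun z => z + η z) := phi_mono hδ hδ1
    have hηc : Continuous η := by
      have := hηa.continuousOn
      rwa [← continuousOn_univ]
    set T : ℝ → ℝ := fun x => t x + η (t x) with hT
    have hTa : AnalyticOnNhd ℝ T univ := fun x _ =>
      (ht x trivial).add ((hηa (t x) trivial).comp (ht x trivial))
    have hTanti : StrictAnti T := fun x y hxy => hφ (hm hxy)
    have hev : ∀ᶠ y in 𝓝 a, a - 1 / 2 < t y ∧ t (t y + η (t y)) < a + 1 / 2 := by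
      have hηa0 : η a = 0 := by simp [hη]
      refine Filter.Eventually.and ?_ ?_
      · apply htc.continuousAt.eventually_const_lt
        rw [ha]; linarith
      · have hc : ContinuousAt (fun y => t (t y + η (t y))) a :=
          (htc.comp (htc.add (hηc.comp htc))).continuousAt
        apply hc.eventually_lt_const
        show t (t a + η (t a)) < a + 1 / 2
        rw [ha, hηa0, add_zero, ha]
        linarith
    obtain ⟨y, ⟨hy1, hy2⟩, hya⟩ :=
      ((eventually_nhdsWithin_of_eventually_nhds hev).and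
        (self_mem_nhdsWithin : Ioi a ∈ 𝓝[>] a)).exists
    have hya' : a < y := hya
    have hz : t y < a := by
      have := hm hya'
      rwa [ha] at this
    have hηz : η (t y) < 0 := by
      simp only [hη]
      apply mul_neg_of_pos_of_neg hδ
      apply Real.sin_neg_of_neg_of_neg_pi_lt
      · nlinarith
      · nlinarith
    have h1 : y < t (t y + η (t y)) := by
      have h2 : t y + η (t y) < t y := by linarith
      have h3 := hm h2
      rwa [hcase y] at h3
    have hpos : 0 < η (t (t y + η (t y))) := by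
      simp only [hη] at hy2 h1 ⊢
      apply mul_pos hδ
      apply Real.sin_pos_of_pos_of_lt_pi
      · apply mul_pos (by positivity)
        linarith
      · nlinarith
    have hne : T (T y) ≠ y := by
      apply ne_of_gt
      show y < t (t y + η (t y)) + η (t (t y + η (t y)))
      linarith
    refine ⟨η, hηa, ⟨fun z => ?_, fun j hj z => ?_⟩, ?_⟩
    · simp only [hη]
      have : 2 * Real.pi * (z + 1 - a) = 2 * Real.pi * (z - a) + 2 * Real.pi := by ring
      rw [this, Real.sin_add_two_pi]
    · refine (der_bound δ a hδ.le j z).trans ?_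
      have h1 : (2 * Real.pi) ^ j ≤ (2 * Real.pi) ^ K :=
        pow_le_pow_right₀ (by linarith) hj
      exact (mul_le_mul_of_nonneg_left h1 hδ.le).trans hδ2
    · obtain ⟨h1, h2⟩ := both hTanti hne
      refine ⟨h1, h2, ?_⟩
      have han : AnalyticOnNhd ℝ (fun y => T (T y)) univ := fun x _ =>
        (hTa (T x) trivial).comp (hTa x trivial)
      exact finite_fix han hne

end Pool.Agent.Tri
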