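import Pool.Agent.Tri.Targets

/-!
# TRI, job DYN: the dynamics of one circle extension
-/

set_option autoImplicit false

open Set MeasureTheory Filter Topology

namespace Pool.Agent.Tri

namespace DYN_

lemma iter_add {α : Type} (σ : α → α) (g : α → ℝ → ℝ) (m k : ℕ) (p : α) (y : ℝ) :
    iter σ g (m + k) p y = iter σ g k (σ^[m] p) (iter σ g m p y) := by
  induction m generalizing p y with
  | zero => simp [iter]
  | succ m ih =>
    rw [Nat.succ_add]
    show iter σ g (m + k) (σ p) (g p y) =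
      iter σ g k (σ^[m + 1] p) (iter σ g m (σ p) (g p y))
    rw [ih, Function.iterate_succ_apply]

lemma iter_mul {α : Type} (σ : α → α) (g : α → ℝ → ℝ) (n : ℕ) (p : α) (hp : σ^[n] p = p)
    (l : ℕ) (y : ℝ) : iter σ g (l * n) p y = (iter σ g n p)^[l] y := by
  induction l generalizing y with
  | zero => simp [iter]
  | succ l ih =>
    rw [Nat.succ_mul, Nat.add_comm, iter_add, hp, ih, ← Function.iterate_succ_apply]

lemma decr {T : ℝ → ℝ} {W : ℝ → ℝ} (h : ∀ y, W (T y) ≤ W y) (l : ℕ) (y : ℝ) :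
    W (T^[l] y) ≤ W y := by
  induction l generalizing y with
  | zero => exact le_rfl
  | succ l ih =>
    rw [Function.iterate_succ_apply]
    exact (ih _).trans (h y)

lemma iter_continuous {α : Type} {σ : α → α} {g : α → ℝ → ℝ} {P : Finset α}
    (hσ : ∀ p ∈ P, σ p ∈ P) (hg : ∀ p ∈ P, Continuous (g p)) (j : ℕ) :
    ∀ p ∈ P, Continuous (iter σ g j p) := by
  induction j with
  | zero =>
    intro p _
    exact continuous_id
  | succ j ih =>
    intro p hp
    exact (ih (σ p) (hσ p hp)).comp (hg p hp)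

/-- The values at `y + 1` and `y` differ by `1` or `-1`. -/
lemma iter_deg {α : Type} {σ : α → α} {g : α → ℝ → ℝ} {P : Finset α}
    (hσ : ∀ p ∈ P, σ p ∈ P) (hg : ∀ p ∈ P, Deg (g p)) (j : ℕ) :
    ∀ p ∈ P, Deg (iter σ g j p) := by
  induction j with
  | zero =>
    intro p _
    exact Or.inl fun y => rfl
  | succ j ih =>
    intro p hp
    have hm : ∀ {h : ℝ → ℝ}, (∀ y, h (y + 1) = h y + 1) → ∀ y, h (y - 1) = h y - 1 := by
      intro h hh y
      have := hh (y - 1)
      rw [sub_add_cancel] at this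
      linarith
    have hm' : ∀ {h : ℝ → ℝ}, (∀ y, h (y + 1) = h y - 1) → ∀ y, h (y - 1) = h y + 1 := by
      intro h hh y
      have := hh (y - 1)
      rw [sub_add_cancel] at this
      linarith
    rcases hg p hp with h1 | h1 <;> rcases ih (σ p) (hσ p hp) with h2 | h2
    · refine Or.inl fun y => ?_
      show iter σ g j (σ p) (g p (y + 1)) = iter σ g j (σ p) (g p y) + 1
      rw [h1, h2]
    · refine Or.inr fun y => ?_
      show iter σ g j (σ p) (g p (y + 1)) = iter σ g j (σ p) (g p y) - 1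
      rw [h1, h2]
    · refine Or.inr fun y => ?_
      show iter σ g j (σ p) (g p (y + 1)) = iter σ g j (σ p) (g p y) - 1
      rw [h1, hm h2]
    · refine Or.inl fun y => ?_
      show iter σ g j (σ p) (g p (y + 1)) = iter σ g j (σ p) (g p y) + 1
      rw [h1, hm' h2]

lemma iterate_mem {α : Type} {σ : α → α} {P : Finset α} (hσ : ∀ p ∈ P, σ p ∈ P) (j : ℕ) :
    ∀ p ∈ P, σ^[j] p ∈ P := by
  induction j with
  | zero => exact fun p hp => hp
  | succ j ih =>
    intro p hp
    rw [Function.iterate_succ_apply]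
    exact ih _ (hσ p hp)

/-- A Lyapunov function for the skew product over the finite set. -/
lemma lyap {α : Type} {σ : α → α} {g : α → ℝ → ℝ} {P : Finset α}
    (hσ : ∀ p ∈ P, σ p ∈ P) (hg : ∀ p ∈ P, Continuous (g p) ∧ Deg (g p))
    (hG : ∀ p ∈ P, Good σ g p) :
    ∃ (U : α → ℝ → ℝ) (E : α → Set ℝ), ∀ p ∈ P, Continuous (U p) ∧ (∀ y, U p (y + 1) = U p y) ∧
      (E p).Finite ∧ ∀ y, U (σ p) (g p y) ≤ U p y ∧
        (U (σ p) (g p y) = U p y → ∃ e ∈ E p, ∃ k : ℤ, y = e + k) := by
  classical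
  choose! N hN1 hNp W hWc hWper hWle E hEfin hE using hG
  -- the common multiple
  set M : ℕ := ∏ p ∈ P, N p with hM
  have hdvd : ∀ p ∈ P, ∃ l : ℕ, 1 ≤ l ∧ M = l * N p := by
    intro p hp
    obtain ⟨l, hl⟩ := Finset.dvd_prod_of_mem N hp
    refine ⟨l, ?_, by rw [hM, hl, mul_comm]⟩
    rcases Nat.eq_zero_or_pos l with h0 | h0
    · rw [h0, mul_zero] at hl
      have : (0 : ℕ) < ∏ p ∈ P, N p := Finset.prod_pos fun q hq => hN1 q hq
      omega
    · exact h0
  have hper : ∀ p ∈ P, σ^[M] p = p := by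
    intro p hp
    obtain ⟨l, -, hl⟩ := hdvd p hp
    rw [hl, Nat.mul_comm, Function.iterate_mul]
    exact Function.iterate_fixed (hNp p hp) l
  have hMle : ∀ p ∈ P, ∀ y, W p (iter σ g M p y) ≤ W p y ∧
      (W p (iter σ g M p y) = W p y → ∃ e ∈ E p, ∃ k : ℤ, y = e + k) := by
    intro p hp y
    obtain ⟨l, hl1, hl⟩ := hdvd p hp
    rw [hl, iter_mul σ g (N p) p (hNp p hp)]
    obtain ⟨l', rfl⟩ : ∃ l', l = l' + 1 := ⟨l - 1, by omega⟩
    have h1 : W p ((iter σ g (N p) p)^[l' + 1] y) ≤ W p (iter σ g (N p) p y) := by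
      rw [Function.iterate_succ_apply]
      exact decr (hWle p hp) l' _
    have h2 := hWle p hp y
    refine ⟨h1.trans h2, fun h => ?_⟩
    apply hE p hp
    linarith
  refine ⟨fun p y => ∑ j ∈ Finset.range M, W (σ^[j] p) (iter σ g j p y), E, ?_⟩
  intro p hp
  refine ⟨?_, ?_, hEfin p hp, ?_⟩
  · apply continuous_finsetSum
    intro j _
    exact (hWc _ (iterate_mem hσ j p hp)).comp
      (iter_continuous hσ (fun q hq => (hg q hq).1) j p hp)
  · intro y
    apply Finset.sum_congr rfl
    intro j _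
    have hW := hWper _ (iterate_mem hσ j p hp)
    rcases iter_deg hσ (fun q hq => (hg q hq).2) j p hp with h | h
    · rw [h, hW]
    · rw [h]
      have := hW (iter σ g j p y - 1)
      rw [sub_add_cancel] at this
      exact this.symm
  · intro y
    have key : ∑ j ∈ Finset.range M, W (σ^[j] (σ p)) (iter σ g j (σ p) (g p y)) =
        ∑ j ∈ Finset.range M, W (σ^[j] p) (iter σ g j p y) +
          (W p (iter σ g M p y) - W p y) := by
      have h1 : ∀ j, W (σ^[j] (σ p)) (iter σ g j (σ p) (g p y)) =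
          W (σ^[j + 1] p) (iter σ g (j + 1) p y) := fun j => rfl
      rw [Finset.sum_congr rfl fun j _ => h1 j]
      have h2 := Finset.sum_range_succ' (fun j => W (σ^[j] p) (iter σ g j p y)) M
      have h3 := Finset.sum_range_succ (fun j => W (σ^[j] p) (iter σ g j p y)) M
      have h4 : W (σ^[M] p) (iter σ g M p y) = W p (iter σ g M p y) := by rw [hper p hp]
      have h5 : W (σ^[0] p) (iter σ g 0 p y) = W p y := rfl
      rw [h5] at h2
      rw [h4] at h3
      linarith
    simp only
    rw [key]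
    obtain ⟨h1, h2⟩ := hMle p hp y
    refine ⟨by linarith, fun h => h2 (by linarith)⟩

/-- The circle function of a periodic function. -/
lemma circ {w : ℝ → ℝ} (hc : Continuous w) (hp : ∀ y, w (y + 1) = w y) :
    ∃ v : UnitAddCircle → ℝ, Continuous v ∧ ∀ y : ℝ, v (y : UnitAddCircle) = w y := by
  have h : Function.Periodic w 1 := hp
  refine ⟨h.lift, ?_, fun y => h.lift_coe y⟩
  exact hc.quotient_liftOn' _

/-- Continuous functions that separate the points of a finite set. -/
lemma bump {B : Type} [MetricSpace B] [DecidableEq B] (P : Finset B) (p : B) :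
    ∃ χ : B → ℝ, Continuous χ ∧ χ p = 1 ∧ ∀ q ∈ P, q ≠ p → χ q = 0 := by
  refine ⟨fun b => ∏ q ∈ P.erase p, dist b q / dist p q, ?_, ?_, ?_⟩
  · apply continuous_finsetProd
    intro q _
    exact (continuous_id.dist continuous_const).div_const _
  · simp only
    apply Finset.prod_eq_one
    intro q hq
    have h1 : p ≠ q := (Finset.ne_of_mem_erase hq).symm
    exact div_self (dist_ne_zero.2 h1)
  · intro q hq hqp
    simp only
    apply Finset.prod_eq_zero (Finset.mem_erase.2 ⟨hqp, hq⟩)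
    rw [dist_self, zero_div]

/-- Infinitely many upcrossings. -/
lemma upcross {u : ℕ → ℝ} {c : ℝ} (h1 : ∃ᶠ k in atTop, u k < c) (h2 : ∃ᶠ k in atTop, c ≤ u k) :
    ∃ᶠ k in atTop, u k < c ∧ c ≤ u (k + 1) := by
  rw [frequently_atTop]
  intro n
  obtain ⟨a, ha, hua⟩ := frequently_atTop.1 h1 n
  obtain ⟨b, hb, hub⟩ := frequently_atTop.1 h2 a
  by_contra hcon
  push Not at hcon
  have : ∀ k, u (a + k) < c := by
    intro k
    induction k with
    | zero => exact hua
    | succ k ih => exact hcon (a + k) (by omega) ih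
  have h3 := this (b - a)
  rw [Nat.add_sub_cancel' hb] at h3
  linarith

lemma map_cluster {X : Type} [TopologicalSpace X] {f : X → X} (hf : Continuous f) {x z : X}
    (h : MapClusterPt z atTop (fun k : ℕ => f^[k] x)) :
    MapClusterPt (f z) atTop (fun k : ℕ => f^[k] x) := by
  have h1 : MapClusterPt (f z) atTop (f ∘ fun k : ℕ => f^[k] x) :=
    h.continuousAt_comp hf.continuousAt
  have h2 : (f ∘ fun k : ℕ => f^[k] x) = (fun k : ℕ => f^[k] x) ∘ (fun k : ℕ => k + 1) := by
    funext k
    simp only [Function.comp_apply]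
    rw [Function.iterate_succ_apply']
  rw [h2] at h1
  exact MapClusterPt.of_comp (tendsto_add_atTop_nat 1) h1

end DYN_

open DYN_ in
theorem pDYN : T_DYN := by
  intro X B _ _ _ f φ a c P G hf ha hc hφ hP hG hGc hGood hOm
  classical
  obtain ⟨U, E, hU⟩ := lyap hP hG hGood
  -- functions on the circle
  have hcirc : ∀ p ∈ P, ∃ v : UnitAddCircle → ℝ, Continuous v ∧
      ∀ y : ℝ, v (y : UnitAddCircle) = U p y := fun p hp => circ (hU p hp).1 (hU p hp).2.1
  choose! v hvc hv using hcirc
  choose χ hχc hχ1 hχ0 using bump P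
  -- the Lyapunov function
  set V : X → ℝ := fun z => ∑ p ∈ P, χ p (a z) * v p (c z) with hV
  have hVc : Continuous V := by
    apply continuous_finsetSum
    intro p hp
    exact ((hχc p).comp ha).mul ((hvc p hp).comp hc)
  have hVP : ∀ z, a z ∈ P → V z = v (a z) (c z) := by
    intro z hz
    simp only [hV]
    rw [Finset.sum_eq_single_of_mem (a z) hz, hχ1, one_mul]
    intro p _ hpa
    rw [hχ0 p (a z) hz hpa.symm, zero_mul]
  -- the exceptional set
  set Q : Set (B × UnitAddCircle) :=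
    ⋃ p ∈ P, (fun e : ℝ => (p, (e : UnitAddCircle))) '' E p with hQ
  have hQfin : Q.Finite := by
    apply Set.Finite.biUnion (Finset.finite_toSet P)
    intro p hp
    exact (hU p hp).2.2.1.image _
  have hstep : ∀ z, a z ∈ P → V (f z) ≤ V z ∧ (V (f z) = V z → (a z, c z) ∈ Q) := by
    intro z hz
    have hz' : a (f z) ∈ P := by rw [hφ]; exact hP _ hz
    obtain ⟨y, hy⟩ := QuotientAddGroup.mk_surjective (c z)
    have hy' : (y : UnitAddCircle) = c z := hy
    have h1 : V z = U (a z) y := by rw [hVP z hz, ← hy', hv _ hz]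
    have h2 : V (f z) = U (φ (a z)) (G (a z) y) := by
      rw [hVP _ hz', hGc z hz y hy', hv _ hz', hφ]
    obtain ⟨h3, h4⟩ := (hU _ hz).2.2.2 y
    rw [h1, h2]
    refine ⟨h3, fun h => ?_⟩
    obtain ⟨e, he, k, hk⟩ := h4 h
    simp only [hQ, mem_iUnion]
    refine ⟨a z, hz, e, he, ?_⟩
    rw [Prod.mk.injEq]
    refine ⟨rfl, ?_⟩
    rw [← hy', hk, AddCircle.coe_add]
    have h5 : ((k : ℝ) : UnitAddCircle) = 0 := by
      rw [AddCircle.coe_eq_zero_iff]
      exact ⟨k, by simp⟩
    rw [h5, add_zero]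
  -- values on the exceptional set
  set Z : Set ℝ := (fun q : B × UnitAddCircle => v q.1 q.2) '' Q with hZ
  have hZfin : Z.Finite := hQfin.image _
  have claim : ∀ (x : X) (t : ℝ), t ∉ Z → (∃ᶠ k in atTop, V (f^[k] x) < t) →
      (∃ᶠ k in atTop, t ≤ V (f^[k] x)) → False := by
    intro x t ht h1 h2
    have h3 := upcross h1 h2
    set S : Set ℕ := {k | V (f^[k] x) < t ∧ t ≤ V (f^[k + 1] x)} with hS
    have hne : (atTop ⊓ 𝓟 S : Filter ℕ).NeBot := by
      rw [← frequently_mem_iff_neBot]
      exact h3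
    obtain ⟨z, -, hz⟩ := isCompact_univ.exists_mapClusterPt (f := atTop ⊓ 𝓟 S)
      (u := fun k : ℕ => f^[k] x) (by simp)
    have hzO : MapClusterPt z atTop (fun k : ℕ => f^[k] x) := hz.mono inf_le_left
    have hzP := hOm x z hzO
    have hmem : ∀ᶠ k in (atTop ⊓ 𝓟 S : Filter ℕ), k ∈ S :=
      mem_inf_of_right (mem_principal_self S)
    have h4 : V z ≤ t := by
      have : IsClosed {w : X | V w ≤ t} := isClosed_le hVc continuous_const
      apply this.mem_of_mapClusterPt hz
      exact hmem.mono fun k hk => hk.1.le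
    have h5 : t ≤ V (f z) := by
      have : IsClosed {w : X | t ≤ V (f w)} := isClosed_le continuous_const (hVc.comp hf)
      apply this.mem_of_mapClusterPt hz
      refine hmem.mono fun k hk => ?_
      have := hk.2
      rw [Function.iterate_succ_apply'] at this
      exact this
    obtain ⟨h6, h7⟩ := hstep z hzP
    have h8 : V (f z) = V z := by linarith
    have h9 : V z = t := by linarith
    apply ht
    refine ⟨(a z, c z), h7 h8, ?_⟩
    rw [← h9, hVP z hzP]
  have const : ∀ x z1 z2 : X, MapClusterPt z1 atTop (fun k : ℕ => f^[k] x) →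
      MapClusterPt z2 atTop (fun k : ℕ => f^[k] x) → ¬ V z1 < V z2 := by
    intro x z1 z2 h1 h2 hlt
    obtain ⟨t, ht, htZ⟩ : ∃ t ∈ Ioo (V z1) (V z2), t ∉ Z := by
      have := (Ioo_infinite hlt).sdiff hZfin
      obtain ⟨t, ht⟩ := this.nonempty
      exact ⟨t, ht.1, ht.2⟩
    apply claim x t htZ
    · exact h1.frequently (hVc.continuousAt.eventually (gt_mem_nhds ht.1))
    · refine (h2.frequently (hVc.continuousAt.eventually (lt_mem_nhds ht.2))).mono ?_
      exact fun k hk => le_of_lt hk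
  refine ⟨Q, hQfin, ?_⟩
  intro x z hz
  have hzP := hOm x z hz
  obtain ⟨h6, h7⟩ := hstep z hzP
  apply h7
  have h8 := const x (f z) z (map_cluster hf hz) hz
  push Not at h8
  linarith

end Pool.Agent.Tri
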