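import Mathlib

/-!
# Diffeomorphisms of the torus, attractors, towers

Statement level definitions. The torus `T n = (ℝ/ℤ)ⁿ` is `Fin n → UnitAddCircle` with its
Lebesgue measure `volume`; maps of the torus are described by their lifts to `V n = ℝⁿ`.
-/

set_option autoImplicit false

open Set MeasureTheory Filter Topology
open scoped ContDiff

namespace Pool.Agent.Tri

/-- The space `ℝⁿ` (with the maximum norm). -/
abbrev V (n : ℕ) : Type := Fin n → ℝ

/-- The torus `(ℝ/ℤ)ⁿ`. -/
abbrev T (n : ℕ) : Type := Fin n → UnitAddCircle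

/-- The projection of `ℝⁿ` onto the torus. -/
def mk {n : ℕ} (x : V n) : T n := fun i => (x i : UnitAddCircle)

/-- `F : ℝⁿ → ℝⁿ` is a lift of the map `f` of the torus. -/
def IsLift {n : ℕ} (F : V n → V n) (f : T n → T n) : Prop := ∀ x, mk (F x) = f (mk x)

/-- `f` is a `C^r` diffeomorphism of the torus: it is bijective and has a lift `F` of class `C^r`
that has an inverse `G` of class `C^r`. -/
def IsDiffeo {n : ℕ} (r : ℕ∞) (f : T n → T n) : Prop :=
  Function.Bijective f ∧ ∃ F G : V n → V n, ContDiff ℝ r F ∧ ContDiff ℝ r G ∧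
    Function.LeftInverse G F ∧ Function.RightInverse G F ∧ IsLift F f

/-- The maps `f` and `g` of the torus have lifts all of whose derivatives of order at most `K`
(including the order `0`) differ by at most `ε`. -/
def Close {n : ℕ} (K : ℕ) (ε : ℝ) (f g : T n → T n) : Prop :=
  ∃ F G : V n → V n, ContDiff ℝ K F ∧ ContDiff ℝ K G ∧ IsLift F f ∧ IsLift G g ∧
    ∀ j ≤ K, ∀ x, ‖iteratedFDeriv ℝ j F x - iteratedFDeriv ℝ j G x‖ ≤ ε

/-- `f` is in the closure of `D` in the `C^r` topology. -/
def InClosure {n : ℕ} (r : ℕ∞) (f : T n → T n) (D : Set (T n → T n)) : Prop :=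
  ∀ K : ℕ, (K : ℕ∞) ≤ r → ∀ ε : ℝ, 0 < ε → ∃ g ∈ D, Close K ε f g

/-- The basin of `Λ`: the points whose `ω`-limit set is contained in `Λ`. -/
def basin {n : ℕ} (f : T n → T n) (Λ : Set (T n)) : Set (T n) :=
  {x | ∀ y, MapClusterPt y atTop (fun k : ℕ => f^[k] x) → y ∈ Λ}

/-- `Λ` is an attractor of `f`: it is invariant and transitive, and its basin has positive
measure. -/
def IsAttractor {n : ℕ} (f : T n → T n) (Λ : Set (T n)) : Prop :=
  f '' Λ = Λ ∧ (∃ x ∈ Λ, Λ ⊆ closure (range fun k : ℕ => f^[k] x)) ∧ 0 < volume (basin f Λ)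

/-- There are finitely many attractors whose basins cover almost all of the torus. -/
def FinitelyManyAttractors {n : ℕ} (f : T n → T n) : Prop :=
  ∃ A : Set (Set (T n)), A.Finite ∧ (∀ Λ ∈ A, IsAttractor f Λ) ∧
    volume {x : T n | ∀ Λ ∈ A, x ∉ basin f Λ} = 0

/-- Every orbit is asymptotic to one of finitely many periodic orbits. -/
def FinitelyManyLimits {X : Type} [MetricSpace X] (f : X → X) : Prop :=
  ∃ P : Set X, P.Finite ∧ (∀ p ∈ P, ∃ m : ℕ, 1 ≤ m ∧ f^[m] p = p) ∧
    ∀ x, ∃ p ∈ P, Tendsto (fun k : ℕ => dist (f^[k] x) (f^[k] p)) atTop (𝓝 0)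

/-- The first `d` coordinates. -/
def pre {d n : ℕ} (h : d ≤ n) (z : T n) : T d := fun j => z (Fin.castLE h j)

/-- `f` is a tower of circle extensions over `φ`: the first `d` coordinates of `f z` are `φ` of
the first `d` coordinates of `z`, and for `i ≥ d` the coordinate `i` of `f z` depends only on
the coordinates `0, …, i` of `z`. -/
def Tower {d n : ℕ} (h : d ≤ n) (φ : T d → T d) (f : T n → T n) : Prop :=
  (∀ z, pre h (f z) = φ (pre h z)) ∧
    ∀ i : Fin n, d ≤ (i : ℕ) → ∀ z w : T n, (∀ j ≤ i, z j = w j) → f z i = f w i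

/-- `f` is triangular: the coordinate `i` of `f z` depends only on the coordinates `0, …, i`
of `z`. -/
def Triangular {n : ℕ} (f : T n → T n) : Prop :=
  ∀ i : Fin n, ∀ z w : T n, (∀ j ≤ i, z j = w j) → f z i = f w i

end Pool.Agent.Tri
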