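import Pool.Agent.Tri.Targets

/-!
# TRI: FAM -- finite families of circle diffeomorphisms over a permutation
-/

set_option autoImplicit false

open Set MeasureTheory Filter Topology
open scoped ContDiff

namespace Pool.Agent.Tri

namespace FAM_

/-! ### monotone circle maps -/

/-- increasing of degree one -/
def Inc (g : ℝ → ℝ) : Prop := StrictMono g ∧ ∀ y, g (y + 1) = g y + 1

/-- decreasing of degree minus one -/
def Dec (g : ℝ → ℝ) : Prop := StrictAnti g ∧ ∀ y, g (y + 1) = g y - 1

/-- a lift of a circle homeomorphism -/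
def Mon (g : ℝ → ℝ) : Prop := Inc g ∨ Dec g

lemma up_sub {g : ℝ → ℝ} (h : ∀ y, g (y + 1) = g y + 1) (y : ℝ) : g (y - 1) = g y - 1 := by
  have := h (y - 1)
  rw [sub_add_cancel] at this
  linarith

lemma down_sub {g : ℝ → ℝ} (h : ∀ y, g (y + 1) = g y - 1) (y : ℝ) : g (y - 1) = g y + 1 := by
  have := h (y - 1)
  rw [sub_add_cancel] at this
  linarith

lemma Inc.comp {f g : ℝ → ℝ} (hf : Inc f) (hg : Inc g) : Inc (fun y => f (g y)) :=
  ⟨hf.1.comp hg.1, fun y => by simp only [hg.2, hf.2]⟩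

lemma Mon.comp {f g : ℝ → ℝ} (hf : Mon f) (hg : Mon g) : Mon (fun y => f (g y)) := by
  rcases hf with hf | hf <;> rcases hg with hg | hg
  · exact Or.inl (hf.comp hg)
  · exact Or.inr ⟨hf.1.comp_strictAnti hg.1, fun y => by simp only [hg.2, up_sub hf.2]⟩
  · exact Or.inr ⟨hf.1.comp_strictMono hg.1, fun y => by simp only [hg.2, hf.2]⟩
  · exact Or.inl ⟨hf.1.comp hg.1, fun y => by simp only [hg.2, down_sub hf.2]⟩

lemma Mon.inj {f : ℝ → ℝ} (hf : Mon f) : Function.Injective f := by
  rcases hf with hf | hf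
  · exact hf.1.injective
  · exact hf.1.injective

lemma Mon.deg {f : ℝ → ℝ} (hf : Mon f) : Deg f := by
  rcases hf with hf | hf
  · exact Or.inl hf.2
  · exact Or.inr hf.2

lemma Inc.iterate {f : ℝ → ℝ} (hf : Inc f) (N : ℕ) : Inc (f^[N]) := by
  induction N with
  | zero => exact ⟨strictMono_id, fun y => rfl⟩
  | succ N ih =>
    rw [Function.iterate_succ']
    exact hf.comp ih

lemma Mon.sq {f : ℝ → ℝ} (hf : Mon f) : Inc (f^[2]) := by
  rcases hf with hf | hf
  · exact hf.iterate 2
  · refine ⟨hf.1.comp hf.1, fun y => ?_⟩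
    simp only [Function.iterate_succ, Function.iterate_zero, Function.comp_apply, id, hf.2,
      down_sub hf.2]

lemma up_int {g : ℝ → ℝ} (h : ∀ y, g (y + 1) = g y + 1) (y : ℝ) (k : ℤ) : g (y + k) = g y + k := by
  induction k using Int.induction_on generalizing y with
  | zero => simp
  | succ i ih =>
    have : y + ((i + 1 : ℤ) : ℝ) = (y + (i : ℤ)) + 1 := by push_cast; ring
    rw [this, h, ih]
    push_cast
    ring
  | pred i ih =>
    have : y + ((-i - 1 : ℤ) : ℝ) = (y + (-i : ℤ)) - 1 := by push_cast; ring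
    rw [this, up_sub h, ih]
    push_cast
    ring

lemma down_int {g : ℝ → ℝ} (h : ∀ y, g (y + 1) = g y - 1) (y : ℝ) (k : ℤ) :
    g (y + k) = g y - k := by
  induction k using Int.induction_on generalizing y with
  | zero => simp
  | succ i ih =>
    have : y + ((i + 1 : ℤ) : ℝ) = (y + (i : ℤ)) + 1 := by push_cast; ring
    rw [this, h, ih]
    push_cast
    ring
  | pred i ih =>
    have : y + ((-i - 1 : ℤ) : ℝ) = (y + (-i : ℤ)) - 1 := by push_cast; ring
    rw [this, down_sub h, ih]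
    push_cast
    ring

lemma per_int {g : ℝ → ℝ} (h : ∀ y, g (y + 1) = g y) (y : ℝ) (k : ℤ) : g (y + k) = g y := by
  have h1 : Function.Periodic g 1 := h
  have := h1.int_mul k y
  simpa using this

/-- differentiable without critical points -/
lemma mon_of_deriv {g : ℝ → ℝ} (hg : Differentiable ℝ g) (h0 : ∀ y, deriv g y ≠ 0) (hd : Deg g) :
    Mon g := by
  rcases hasDerivWithinAt_forall_lt_or_forall_gt_of_forall_ne (s := univ) (f := g) (f' := deriv g)
    convex_univ (fun x _ => (hg x).hasDerivAt.hasDerivWithinAt) (m := 0) (fun x _ => h0 x) with h | h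
  · have hm : StrictAnti g := strictAnti_of_deriv_neg (fun x => h x (mem_univ x))
    rcases hd with hd | hd
    · exfalso
      have h1 := hm (show (0 : ℝ) < 0 + 1 by norm_num)
      rw [hd] at h1
      linarith
    · exact Or.inr ⟨hm, hd⟩
  · have hm : StrictMono g := strictMono_of_deriv_pos (fun x => h x (mem_univ x))
    rcases hd with hd | hd
    · exact Or.inl ⟨hm, hd⟩
    · exfalso
      have h1 := hm (show (0 : ℝ) < 0 + 1 by norm_num)
      rw [hd] at h1
      linarith

/-! ### periodic smooth functions -/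

lemma per_iteratedDeriv {f : ℝ → ℝ} (hf : ∀ y, f (y + 1) = f y) (j : ℕ) (y : ℝ) :
    iteratedDeriv j f (y + 1) = iteratedDeriv j f y := by
  have h1 : (fun z => f (z + 1)) = f := funext hf
  have h2 := congrFun (iteratedDeriv_comp_add_const j f 1) y
  rw [h1] at h2
  exact h2.symm

lemma per_bdd {f : ℝ → ℝ} (hf : ∀ y, f (y + 1) = f y) (hc : Continuous f) :
    ∃ C : ℝ, ∀ y, |f y| ≤ C := by
  obtain ⟨C, hC⟩ := (isCompact_Icc (a := (0 : ℝ)) (b := 1)).exists_bound_of_continuousOn
    hc.continuousOn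
  refine ⟨C, fun y => ?_⟩
  have h1 : f (Int.fract y) = f y := by
    have := per_int hf (Int.fract y) ⌊y⌋
    rw [Int.fract_add_floor] at this
    exact this.symm
  rw [← h1]
  exact hC _ ⟨Int.fract_nonneg y, (Int.fract_lt_one y).le⟩

lemma per_pos {f : ℝ → ℝ} (hf : ∀ y, f (y + 1) = f y) (hc : Continuous f) (h0 : ∀ y, f y ≠ 0) :
    ∃ c : ℝ, 0 < c ∧ ∀ y, c ≤ |f y| := by
  obtain ⟨C, hC⟩ := per_bdd (f := fun y => (f y)⁻¹) (fun y => by rw [hf]) (hc.inv₀ h0)
  have hCpos : 0 < C := lt_of_lt_of_le (abs_pos.2 (inv_ne_zero (h0 0))) (hC 0)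
  refine ⟨C⁻¹, inv_pos.2 hCpos, fun y => ?_⟩
  have h1 := hC y
  rw [abs_inv] at h1
  have h2 : 0 < |f y| := abs_pos.2 (h0 y)
  rw [inv_le_comm₀ h2 hCpos] at h1
  exact h1

/-- Uniform choice over a finite set. -/
lemma unif {α : Type} (P : Finset α) (Q : α → ℝ → Prop)
    (h : ∀ p ∈ P, ∃ d : ℝ, 0 < d ∧ ∀ d', d' ≤ d → Q p d') :
    ∃ d : ℝ, 0 < d ∧ ∀ p ∈ P, Q p d := by
  classical
  suffices H : ∃ d : ℝ, 0 < d ∧ ∀ d', d' ≤ d → ∀ p ∈ P, Q p d' by
    obtain ⟨d, hd, hd2⟩ := H
    exact ⟨d, hd, hd2 d le_rfl⟩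
  induction P using Finset.induction_on with
  | empty => exact ⟨1, one_pos, by simp⟩
  | insert a s _ ih =>
    obtain ⟨d1, hd1, h1⟩ := ih (fun p hp => h p (Finset.mem_insert_of_mem hp))
    obtain ⟨d2, hd2, h2⟩ := h a (Finset.mem_insert_self a s)
    refine ⟨min d1 d2, lt_min hd1 hd2, fun d' hd' p hp => ?_⟩
    rcases Finset.mem_insert.1 hp with rfl | hp
    · exact h2 d' (hd'.trans (min_le_right _ _))
    · exact h1 d' (hd'.trans (min_le_left _ _)) p hp

/-- the derivatives of positive order of a circle map -/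
lemma deriv_bdd {g : ℝ → ℝ} (hg : ContDiff ℝ ω g) (hd : Deg g) (K : ℕ) :
    ∃ D : ℝ, 1 ≤ D ∧ ∀ i, 1 ≤ i → i ≤ K → ∀ y, |iteratedDeriv i g y| ≤ D := by
  have hd' : ∀ y, deriv g (y + 1) = deriv g y := by
    intro y
    have h2 := deriv_comp_add_const g 1 y
    rw [← h2]
    rcases hd with hd | hd
    · have : (fun x => g (x + 1)) = fun x => g x + 1 := funext hd
      rw [this, deriv_add_const]
    · have : (fun x => g (x + 1)) = fun x => g x - 1 := funext hd
      rw [this, deriv_sub_const]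
  have hdc : ContDiff ℝ ω (deriv g) := (hg.analyticOnNhd (s := univ)).deriv.contDiff
  have h1 : ∀ i, ∃ C : ℝ, ∀ y, |iteratedDeriv (i + 1) g y| ≤ C := by
    intro i
    rw [iteratedDeriv_succ']
    exact per_bdd (per_iteratedDeriv hd' i) (hdc.continuous_iteratedDeriv i le_top)
  choose C hC using h1
  refine ⟨1 + ∑ i ∈ Finset.range K, |C i|, ?_, fun i hi1 hi2 y => ?_⟩
  · have : 0 ≤ ∑ i ∈ Finset.range K, |C i| := Finset.sum_nonneg fun _ _ => abs_nonneg _
    linarith
  · obtain ⟨k, rfl⟩ : ∃ k, i = k + 1 := ⟨i - 1, by omega⟩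
    have h2 := hC k y
    have h3 : |C k| ≤ ∑ i ∈ Finset.range K, |C i| :=
      Finset.single_le_sum (f := fun i => |C i|) (fun _ _ => abs_nonneg _)
        (Finset.mem_range.2 (by omega))
    have h4 := le_abs_self (C k)
    linarith

/-- size of a composition -/
lemma comp_small {g : ℝ → ℝ} (hg : ContDiff ℝ ω g) (hd : Deg g) (K : ℕ) (ε : ℝ) (hε : 0 < ε) :
    ∃ δ : ℝ, 0 < δ ∧ ∀ δ', δ' ≤ δ → ∀ η : ℝ → ℝ, ContDiff ℝ ω η → Tiny K δ' η →
      ∀ j ≤ K, ∀ y, |iteratedDeriv j (fun x => η (g x)) y| ≤ ε := by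
  obtain ⟨D, hD1, hD⟩ := deriv_bdd hg hd K
  have hDpos : 0 < D := by linarith
  refine ⟨ε / (K.factorial * D ^ K), by positivity, fun δ' hδ' η hη hT j hj y => ?_⟩
  have hT0 : 0 ≤ δ' := (abs_nonneg _).trans (hT.2 0 (Nat.zero_le _) 0)
  have h1 := norm_iteratedFDeriv_comp_le (𝕜 := ℝ) (g := η) (f := g) (n := j) (N := ω) hη hg le_top y
    (C := δ') (D := D)
    (fun i hi => by
      rw [norm_iteratedFDeriv_eq_norm_iteratedDeriv, Real.norm_eq_abs]
      exact hT.2 i (hi.trans hj) _)
    (fun i hi1 hi2 => by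
      rw [norm_iteratedFDeriv_eq_norm_iteratedDeriv, Real.norm_eq_abs]
      refine (hD i hi1 (hi2.trans hj) y).trans ?_
      exact le_self_pow₀ hD1 (by omega))
  rw [norm_iteratedFDeriv_eq_norm_iteratedDeriv, Real.norm_eq_abs] at h1
  refine h1.trans ?_
  calc (j.factorial : ℝ) * δ' * D ^ j ≤ K.factorial * δ' * D ^ K := by
        have a1 : (j.factorial : ℝ) ≤ K.factorial := by exact_mod_cast Nat.factorial_le hj
        have a2 : D ^ j ≤ D ^ K := pow_le_pow_right₀ hD1 hj
        gcongr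
    _ = δ' * (K.factorial * D ^ K) := by ring
    _ ≤ ε := by
        rw [← le_div_iff₀ (by positivity)]
        exact hδ'

/-- Step 1: analytic approximation -/
lemma step1 (h : T_TRIG) {g : ℝ → ℝ} {r : ℕ∞} {K : ℕ} {ε : ℝ} (hK : 1 ≤ K) (hKr : (K : ℕ∞) ≤ r)
    (hε : 0 < ε) (hg : ContDiff ℝ r g) (h0 : ∀ y, deriv g y ≠ 0) (hd : Deg g) :
    ∃ g1 : ℝ → ℝ, AnalyticOnNhd ℝ g1 univ ∧ Mon g1 ∧ (∀ y, (g1 (y + 1) - g (y + 1) = g1 y - g y)) ∧
      ∀ j ≤ K, ∀ y, |iteratedDeriv j (fun x => g1 x - g x) y| ≤ ε := by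
  have hKr' : ((K : ℕ∞) : WithTop ℕ∞) ≤ (r : WithTop ℕ∞) := by exact_mod_cast hKr
  have hgK : ContDiff ℝ K g := hg.of_le hKr'
  have hg1 : ContDiff ℝ 1 g := hgK.of_le (by exact_mod_cast hK)
  have hgd : Differentiable ℝ g := hg1.differentiable (by norm_num)
  obtain ⟨s, hs⟩ : ∃ s : ℝ, ∀ y, g (y + 1) = g y + s ∧ (s = 1 ∨ s = -1) := by
    rcases hd with hd | hd
    · exact ⟨1, fun y => ⟨hd y, Or.inl rfl⟩⟩
    · exact ⟨-1, fun y => ⟨by rw [hd]; ring, Or.inr rfl⟩⟩
  have hsv : s = 1 ∨ s = -1 := (hs 0).2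
  have hdper : ∀ y, deriv g (y + 1) = deriv g y := by
    intro y
    rw [← deriv_comp_add_const g 1 y]
    have : (fun x => g (x + 1)) = fun x => g x + s := funext fun x => (hs x).1
    rw [this, deriv_add_const]
  obtain ⟨c, hc, hc2⟩ := per_pos hdper (hg1.continuous_deriv (by norm_num)) h0
  set f : ℝ → ℝ := fun y => g y - s * y with hf
  have hfK : ContDiff ℝ K f := hgK.sub (contDiff_const.mul contDiff_id)
  have hfper : ∀ y, f (y + 1) = f y := by
    intro y
    simp only [hf, (hs y).1]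
    ring
  obtain ⟨τ, hτ, hτper, hτε⟩ := h K f (min ε (c / 2)) hfK hfper (lt_min hε (by positivity))
  have hτω : ContDiff ℝ ω τ := hτ.contDiff
  have hlin : AnalyticOnNhd ℝ (fun y : ℝ => s * y) univ := fun x _ =>
    analyticAt_const.mul analyticAt_id
  refine ⟨fun y => τ y + s * y, hτ.add hlin, ?_, ?_, ?_⟩
  · -- Mon
    have hτd : Differentiable ℝ τ := hτω.differentiable (by simp)
    have hdd : ∀ y, deriv (fun y => τ y + s * y) y = deriv τ y + s := by
      intro y
      have h1 : HasDerivAt (fun y => τ y + s * y) (deriv τ y + s * 1) y :=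
        (hτd y).hasDerivAt.add ((hasDerivAt_id y).const_mul s)
      rw [h1.deriv, mul_one]
    have hfd : ∀ y, deriv f y = deriv g y - s := by
      intro y
      have h1 : HasDerivAt f (deriv g y - s * 1) y :=
        (hgd y).hasDerivAt.sub ((hasDerivAt_id y).const_mul s)
      rw [h1.deriv, mul_one]
    apply mon_of_deriv
    · exact hτd.add (differentiable_id.const_mul s)
    · intro y
      rw [hdd]
      have h1 := hτε 1 hK y
      rw [iteratedDeriv_one, iteratedDeriv_one, hfd] at h1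
      have h2 := hc2 y
      have h3 : |deriv g y - s - deriv τ y| ≤ c / 2 := h1.trans (min_le_right _ _)
      intro h4
      have h5 : deriv g y - s - deriv τ y = deriv g y := by linarith
      rw [h5] at h3
      linarith
    · rcases hsv with rfl | rfl
      · left
        intro y
        simp only [hτper]
        ring
      · right
        intro y
        simp only [hτper]
        ring
  · intro y
    simp only [hτper, (hs y).1]
    ring
  · intro j hj y
    have e1 : (fun x => τ x + s * x - g x) = fun x => τ x - f x := by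
      funext x
      simp only [hf]
      ring
    rw [e1]
    have hjK : ((j : ℕ) : WithTop ℕ∞) ≤ (K : WithTop ℕ∞) := by exact_mod_cast hj
    have h2 : iteratedDeriv j (fun x => τ x - f x) y = iteratedDeriv j τ y - iteratedDeriv j f y :=
      iteratedDeriv_fun_sub (hτω.contDiffAt.of_le le_top) (hfK.contDiffAt.of_le hjK)
    rw [h2, abs_sub_comm]
    exact (hτε j hj y).trans (min_le_left _ _)

/-! ### the composition along orbits -/

section iter

variable {α : Type} (σ : α → α) (g : α → ℝ → ℝ)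

lemma iter_one_add (k : ℕ) (p : α) (y : ℝ) : iter σ g (k + 1) p y = iter σ g k (σ p) (g p y) := rfl

lemma iter_succ' (k : ℕ) (p : α) (y : ℝ) :
    iter σ g (k + 1) p y = g (σ^[k] p) (iter σ g k p y) := by
  induction k generalizing p y with
  | zero => rfl
  | succ k ih =>
    rw [iter_one_add, ih]
    rfl

lemma iter_add (a b : ℕ) (p : α) (y : ℝ) :
    iter σ g (a + b) p y = iter σ g b (σ^[a] p) (iter σ g a p y) := by
  induction a generalizing p y with
  | zero => simp [iter]
  | succ a ih =>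
    have : a + 1 + b = (a + b) + 1 := by ring
    rw [this, iter_one_add, ih]
    rfl

lemma iter_mul {q : ℕ} {p : α} (h : σ^[q] p = p) (N : ℕ) (y : ℝ) :
    iter σ g (q * N) p y = (iter σ g q p)^[N] y := by
  induction N generalizing y with
  | zero => rfl
  | succ N ih =>
    have : q * (N + 1) = q + q * N := by ring
    rw [this, iter_add, h, ih]
    rfl

lemma iter_mon {P : Finset α} (hP : ∀ p ∈ P, σ p ∈ P) (hg : ∀ p ∈ P, Mon (g p)) (k : ℕ) :
    ∀ p ∈ P, 1 ≤ k → Mon (iter σ g k p) := by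
  induction k with
  | zero => intro p _ h; omega
  | succ k ih =>
    intro p hp _
    rcases Nat.eq_zero_or_pos k with rfl | hk
    · exact hg p hp
    · exact (ih (σ p) (hP p hp) hk).comp (hg p hp)

lemma iter_analytic {P : Finset α} (hP : ∀ p ∈ P, σ p ∈ P)
    (hg : ∀ p ∈ P, AnalyticOnNhd ℝ (g p) univ) (k : ℕ) :
    ∀ p ∈ P, AnalyticOnNhd ℝ (iter σ g k p) univ := by
  induction k with
  | zero => intro p _ x _; exact analyticAt_id
  | succ k ih =>
    intro p hp
    exact (ih (σ p) (hP p hp)).comp (hg p hp) (mapsTo_univ _ _)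

end iter

/-- Step 3 -/
lemma good_back {α : Type} {σ : α → α} {g : α → ℝ → ℝ} {p : α} {k : ℕ} (hk : 1 ≤ k)
    (hkp : σ^[k] p = p) (hg : Mon (g p)) (hc : Continuous (g p)) (h : Good σ g (σ p)) :
    Good σ g p := by
  obtain ⟨N, hN, hNp, W, hW, hWper, hWle, E, hE, hEW⟩ := h
  have hNp' : σ^[N] p = p := by
    obtain ⟨l, rfl⟩ : ∃ l, k = l + 1 := ⟨k - 1, by omega⟩
    calc σ^[N] p = σ^[N] (σ^[l + 1] p) := by rw [hkp]
      _ = σ^[N + (l + 1)] p := (Function.iterate_add_apply σ N (l + 1) p).symm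
      _ = σ^[l + (N + 1)] p := by congr 1; omega
      _ = σ^[l] (σ^[N] (σ p)) := by rw [Function.iterate_add_apply, Function.iterate_succ_apply]
      _ = σ^[l] (σ p) := by rw [hNp]
      _ = σ^[l + 1] p := by rw [Function.iterate_succ_apply]
      _ = p := hkp
  have key : ∀ y, g p (iter σ g N p y) = iter σ g N (σ p) (g p y) := by
    intro y
    have h1 := iter_succ' σ g N p y
    rw [hNp'] at h1
    rw [← h1]
    rfl
  refine ⟨N, hN, hNp', fun y => W (g p y), hW.comp hc, ?_, ?_, g p ⁻¹' E,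
    hE.preimage hg.inj.injOn, ?_⟩
  · intro y
    rcases hg.deg with hd | hd
    · simp only [hd, hWper]
    · have := hWper (g p y - 1)
      rw [sub_add_cancel] at this
      simp only [hd]
      exact this.symm
  · intro y
    show W (g p (iter σ g N p y)) ≤ W (g p y)
    rw [key]
    exact hWle _
  · intro y hy
    have hy' : W (g p (iter σ g N p y)) = W (g p y) := hy
    rw [key] at hy'
    obtain ⟨e, he, m, hm⟩ := hEW _ hy'
    rcases hg.deg with hd | hd
    · refine ⟨y + ((-m : ℤ) : ℝ), ?_, m, by push_cast; ring⟩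
      show g p (y + ((-m : ℤ) : ℝ)) ∈ E
      rw [up_int hd, hm]
      push_cast
      simpa using he
    · refine ⟨y + (m : ℝ), ?_, -m, by push_cast; ring⟩
      show g p (y + (m : ℝ)) ∈ E
      rw [down_int hd, hm]
      simpa using he

/-- Step 2b: a crossing power gives `Good`. -/
lemma good_of_cross (h : T_LYAP) {α : Type} {σ : α → α} {g : α → ℝ → ℝ} {p : α} {q N : ℕ} {k : ℤ}
    (hq : 1 ≤ q) (hN : 1 ≤ N) (hqp : σ^[q] p = p) (hI : Inc ((iter σ g q p)^[N]))
    (hc : Continuous (iter σ g q p))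
    (hX : Cross (fun y => (iter σ g q p)^[N] y - k)) : Good σ g p := by
  obtain ⟨hX1, hX2, hX3⟩ := hX
  obtain ⟨W, hW, hWper, hWs⟩ := h (fun y => (iter σ g q p)^[N] y - k)
    ((hc.iterate N).sub continuous_const) (fun a b hab => sub_lt_sub_right (hI.1 hab) _)
    (fun y => by simp only [hI.2]; ring) hX1 hX2
  have hsN : σ^[q * N] p = p := by
    rw [Function.iterate_mul]
    exact Function.iterate_fixed hqp N
  have hWk : ∀ y, W (iter σ g (q * N) p y) = W ((iter σ g q p)^[N] y - k) := by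
    intro y
    rw [iter_mul σ g hqp]
    have := per_int hWper ((iter σ g q p)^[N] y - k) k
    rw [sub_add_cancel] at this
    exact this
  refine ⟨q * N, Nat.mul_pos hq hN, hsN, W, hW, hWper, ?_,
    {y ∈ Icc (0 : ℝ) 1 | (iter σ g q p)^[N] y - k = y}, hX3, ?_⟩
  · intro y
    rw [hWk]
    exact (hWs y).1
  · intro y hy
    rw [hWk] at hy
    have h1 := (hWs y).2 hy
    refine ⟨Int.fract y, ⟨⟨Int.fract_nonneg y, (Int.fract_lt_one y).le⟩, ?_⟩, ⌊y⌋,
      (Int.fract_add_floor y).symm⟩
    have h2 := up_int hI.2 (Int.fract y) ⌊y⌋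
    rw [Int.fract_add_floor] at h2
    have h1' : (iter σ g q p)^[N] y - k = y := h1
    have h3 : Int.fract y = y - ⌊y⌋ := rfl
    show (iter σ g q p)^[N] (Int.fract y) - k = Int.fract y
    linarith

/-- `z + η z` is increasing when `η` is tiny -/
lemma add_tiny_inc {K : ℕ} (hK : 1 ≤ K) {η : ℝ → ℝ} (hη : AnalyticOnNhd ℝ η univ) {δ : ℝ}
    (hδ : δ ≤ 1 / 2) (hT : Tiny K δ η) : Inc (fun z => z + η z) := by
  have hd : Differentiable ℝ η := hη.contDiff.differentiable (n := ω) (by simp)
  have h1 : ∀ y, deriv (fun z => z + η z) y = 1 + deriv η y := by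
    intro y
    exact ((hasDerivAt_id y).add (hd y).hasDerivAt).deriv
  refine ⟨strictMono_of_deriv_pos fun y => ?_, fun y => ?_⟩
  · rw [h1]
    have h2 := hT.2 1 hK y
    rw [iteratedDeriv_one] at h2
    have h3 := (abs_le.1 h2).1
    linarith
  · simp only [hT.1]
    ring

/-- the perturbation of the return map -/
lemma step2 (hINC : T_INC) (hDEC : T_DEC) {K : ℕ} {δ : ℝ} (hδ : 0 < δ)
    {t : ℝ → ℝ} (ht : AnalyticOnNhd ℝ t univ) (hm : Mon t) :
    ∃ η : ℝ → ℝ, AnalyticOnNhd ℝ η univ ∧ Tiny K δ η ∧ ∃ N : ℕ, 1 ≤ N ∧ ∃ k : ℤ,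
      (Inc t ∨ N = 2) ∧ Cross (fun y => (fun x => t x + η (t x))^[N] y - k) := by
  rcases hm with hm | hm
  · obtain ⟨η, hη, hT, N, hN, k, hX⟩ := hINC t K δ ht hm.1 hm.2 hδ
    exact ⟨η, hη, hT, N, hN, k, Or.inl hm, hX⟩
  · obtain ⟨η, hη, hT, hX⟩ := hDEC t K δ ht hm.1 hm.2 hδ
    refine ⟨η, hη, hT, 2, by norm_num, 0, Or.inr rfl, ?_⟩
    have e : (fun y => (fun x => t x + η (t x))^[2] y - ((0 : ℤ) : ℝ)) =
        (fun x => t x + η (t x))^[2] := by
      funext y
      rw [Int.cast_zero, sub_zero]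
    rw [e]
    exact hX

end FAM_

open FAM_ in
theorem pFAM (h1 : T_TRIG) (h2 : T_INC) (h3 : T_DEC) (h4 : T_LYAP) : T_FAM := by
  classical
  intro α P σ g r K ε hK hKr hε hσP hper hg
  -- step 1
  have hs1 : ∀ p ∈ P, ∃ g1 : ℝ → ℝ, AnalyticOnNhd ℝ g1 univ ∧ Mon g1 ∧
      (∀ y, (g1 (y + 1) - g p (y + 1) = g1 y - g p y)) ∧
      ∀ j ≤ K, ∀ y, |iteratedDeriv j (fun x => g1 x - g p x) y| ≤ ε / 2 := fun p hp =>
    step1 h1 hK hKr (by linarith) (hg p hp).1 (hg p hp).2.1 (hg p hp).2.2
  choose! g1 hg1a hg1m hg1p hg1d using hs1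
  -- delta
  obtain ⟨δ, hδ, hδP⟩ := unif P (fun p δ => δ ≤ 1 / 2 ∧ ∀ η : ℝ → ℝ, ContDiff ℝ ω η → Tiny K δ η →
      ∀ j ≤ K, ∀ y, |iteratedDeriv j (fun x => η (g1 p x)) y| ≤ ε / 2) (by
    intro p hp
    obtain ⟨d, hd, hd2⟩ := comp_small (hg1a p hp).contDiff (hg1m p hp).deg K (ε / 2) (by linarith)
    exact ⟨min d (1 / 2), lt_min hd (by norm_num), fun d' hd' =>
      ⟨hd'.trans (min_le_right _ _), hd2 d' (hd'.trans (min_le_left _ _))⟩⟩)
  -- representatives
  set rep : α → α := fun p => Classical.epsilon (h := ⟨p⟩) (fun q => ∃ j, σ^[j] p = q) with hrep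
  have hrep1 : ∀ p, ∃ j, σ^[j] p = rep p := fun p =>
    Classical.epsilon_spec (p := fun q => ∃ j, σ^[j] p = q) ⟨p, 0, rfl⟩
  have hrep2 : ∀ p ∈ P, rep (σ p) = rep p := by
    intro p hp
    have e : (fun q => ∃ j, σ^[j] (σ p) = q) = (fun q => ∃ j, σ^[j] p = q) := by
      funext q
      apply propext
      constructor
      · rintro ⟨j, hj⟩
        exact ⟨j + 1, by rw [Function.iterate_succ_apply, hj]⟩
      · rintro ⟨j, hj⟩
        obtain ⟨k, hk, hkp⟩ := hper p hp
        obtain ⟨l, rfl⟩ : ∃ l, k = l + 1 := ⟨k - 1, by omega⟩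
        refine ⟨j + l, ?_⟩
        rw [← Function.iterate_succ_apply, show (j + l).succ = j + (l + 1) by omega,
          Function.iterate_add_apply, hkp, hj]
    simp only [hrep]
    congr 1
  have hitP : ∀ j, ∀ p ∈ P, σ^[j] p ∈ P := by
    intro j
    induction j with
    | zero => intro p hp; exact hp
    | succ j ih => intro p hp; rw [Function.iterate_succ_apply]; exact ih _ (hσP p hp)
  have hrep3 : ∀ j, ∀ p ∈ P, rep (σ^[j] p) = rep p := by
    intro j
    induction j with
    | zero => intro p _; rfl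
    | succ j ih =>
      intro p hp
      rw [Function.iterate_succ_apply, ih _ (hσP p hp), hrep2 p hp]
  have hrepP : ∀ p ∈ P, rep p ∈ P := by
    intro p hp
    obtain ⟨j, hj⟩ := hrep1 p
    rw [← hj]
    exact hitP j p hp
  have hreprep : ∀ p ∈ P, rep (rep p) = rep p := by
    intro p hp
    obtain ⟨j, hj⟩ := hrep1 p
    have := hrep3 j p hp
    rwa [hj] at this
  -- return maps
  have hpp : ∀ p ∈ P, 0 < Function.minimalPeriod σ p := by
    intro p hp
    obtain ⟨k, hk, hkp⟩ := hper p hp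
    exact Function.IsPeriodicPt.minimalPeriod_pos hk hkp
  have hs2 : ∀ p ∈ P, ∃ η : ℝ → ℝ, AnalyticOnNhd ℝ η univ ∧ Tiny K δ η ∧ ∃ N : ℕ, 1 ≤ N ∧ ∃ k : ℤ,
      (Inc (iter σ g1 (Function.minimalPeriod σ p) p) ∨ N = 2) ∧
      Cross (fun y => (fun x => iter σ g1 (Function.minimalPeriod σ p) p x +
        η (iter σ g1 (Function.minimalPeriod σ p) p x))^[N] y - k) := fun p hp =>
    step2 h2 h3 hδ (iter_analytic σ g1 hσP hg1a _ p hp) (iter_mon σ g1 hσP hg1m _ p hp (hpp p hp))
  choose! η hηa hηT Nη hNη kη hcase hX using hs2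
  -- the new family
  set g2 : α → ℝ → ℝ := fun p y =>
    g1 p y + (if σ p = rep p then η (rep p) (g1 p y) else 0) with hg2
  have hg2a : ∀ p ∈ P, AnalyticOnNhd ℝ (g2 p) univ := by
    intro p hp
    by_cases hc : σ p = rep p
    · have e : g2 p = fun y => g1 p y + η (rep p) (g1 p y) := by
        funext y
        simp only [hg2, if_pos hc]
      rw [e]
      exact (hg1a p hp).add ((hηa _ (hrepP p hp)).comp (hg1a p hp) (mapsTo_univ _ _))
    · have e : g2 p = g1 p := by
        funext y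
        simp only [hg2, if_neg hc, add_zero]
      rw [e]
      exact hg1a p hp
  have hg2m : ∀ p ∈ P, Mon (g2 p) := by
    intro p hp
    by_cases hc : σ p = rep p
    · have e : g2 p = fun y => (fun z => z + η (rep p) z) (g1 p y) := by
        funext y
        simp only [hg2, if_pos hc]
      rw [e]
      exact Mon.comp (Or.inl (add_tiny_inc hK (hηa _ (hrepP p hp)) (hδP p hp).1
        (hηT _ (hrepP p hp)))) (hg1m p hp)
    · have e : g2 p = g1 p := by
        funext y
        simp only [hg2, if_neg hc, add_zero]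
      rw [e]
      exact hg1m p hp
  -- the return maps of the new family
  have hret : ∀ p ∈ P, rep p = p → iter σ g2 (Function.minimalPeriod σ p) p =
      fun x => iter σ g1 (Function.minimalPeriod σ p) p x +
        η p (iter σ g1 (Function.minimalPeriod σ p) p x) := by
    intro p hp hrp
    have hlow : ∀ j, j < Function.minimalPeriod σ p → ∀ y, iter σ g2 j p y = iter σ g1 j p y := by
      intro j
      induction j with
      | zero => intro _ y; rfl
      | succ j ih =>
        intro hj y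
        rw [iter_succ', iter_succ', ih (by omega)]
        have hne : σ (σ^[j] p) ≠ rep (σ^[j] p) := by
          rw [hrep3 j p hp, hrp, ← Function.iterate_succ_apply' σ j p]
          intro h0
          have h1 := Function.IsPeriodicPt.minimalPeriod_le (Nat.succ_pos j) h0
          omega
        simp only [hg2, if_neg hne, add_zero]
    obtain ⟨m, hm⟩ : ∃ m, Function.minimalPeriod σ p = m + 1 :=
      ⟨Function.minimalPeriod σ p - 1, by have := hpp p hp; omega⟩
    funext y
    rw [hm, iter_succ', iter_succ', hlow m (by omega)]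
    have heq : σ (σ^[m] p) = rep (σ^[m] p) := by
      rw [hrep3 m p hp, hrp, ← Function.iterate_succ_apply' σ m p, Nat.succ_eq_add_one, ← hm]
      exact Function.isPeriodicPt_minimalPeriod σ p
    have hrm : rep (σ^[m] p) = p := by rw [hrep3 m p hp, hrp]
    simp only [hg2, if_pos heq]
    rw [hrm]
  have hgoodrep : ∀ p ∈ P, rep p = p → Good σ g2 p := by
    intro p hp hrp
    have hMon := iter_mon σ g1 hσP hg1m _ p hp (hpp p hp)
    have hInc := add_tiny_inc hK (hηa p hp) (hδP p hp).1 (hηT p hp)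
    have hc : Continuous (iter σ g2 (Function.minimalPeriod σ p) p) :=
      ((iter_analytic σ g2 hσP hg2a _ p hp).contDiff (n := ω)).continuous
    apply good_of_cross h4 (q := Function.minimalPeriod σ p) (N := Nη p) (k := kη p) (hpp p hp)
      (hNη p hp) (Function.isPeriodicPt_minimalPeriod σ p) _ hc
    · rw [hret p hp hrp]
      exact hX p hp
    · rcases hcase p hp with hi | h2
      · apply Inc.iterate
        rw [hret p hp hrp]
        exact Inc.comp (f := fun z => z + η p z) hInc hi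
      · rw [h2]
        apply Mon.sq
        rw [hret p hp hrp]
        exact Mon.comp (f := fun z => z + η p z) (Or.inl hInc) hMon
  have hgood : ∀ j, ∀ p ∈ P, σ^[j] p = rep p → Good σ g2 p := by
    intro j
    induction j with
    | zero =>
      intro p hp hj
      exact hgoodrep p hp hj.symm
    | succ j ih =>
      intro p hp hj
      obtain ⟨k, hk, hkp⟩ := hper p hp
      apply good_back hk hkp (hg2m p hp)
        ((hg2a p hp).contDiff (n := ω)).continuous
      apply ih (σ p) (hσP p hp)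
      rw [hrep2 p hp, ← hj, Function.iterate_succ_apply]
  refine ⟨fun p y => g2 p y - g p y, fun p hp => ⟨?_, ?_, ?_⟩, fun p hp => ?_⟩
  · exact ((hg2a p hp).contDiff (n := ω)).of_le le_top |>.sub (hg p hp).1
  · intro y
    have e1 := hg1p p hp y
    by_cases hc : σ p = rep p
    · simp only [hg2, if_pos hc]
      have e2 : η (rep p) (g1 p (y + 1)) = η (rep p) (g1 p y) := by
        have hTp := (hηT _ (hrepP p hp)).1
        rcases (hg1m p hp).deg with hd | hd
        · rw [hd, hTp]
        · rw [hd]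
          have := hTp (g1 p y - 1)
          rw [sub_add_cancel] at this
          exact this.symm
      rw [e2]
      linarith
    · simp only [hg2, if_neg hc]
      linarith
  · intro j hj y
    have hgK : ContDiff ℝ K (g p) := (hg p hp).1.of_le (by exact_mod_cast hKr)
    have hjK : ((j : ℕ) : WithTop ℕ∞) ≤ (K : WithTop ℕ∞) := by exact_mod_cast hj
    by_cases hc : σ p = rep p
    · have e : (fun y => g2 p y - g p y) =
          fun y => (g1 p y - g p y) + η (rep p) (g1 p y) := by
        funext y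
        simp only [hg2, if_pos hc]
        ring
      have ha : ContDiff ℝ j (fun y => g1 p y - g p y) :=
        (((hg1a p hp).contDiff (n := ω)).of_le le_top).sub (hgK.of_le hjK)
      have hb : ContDiff ℝ ω (fun y => η (rep p) (g1 p y)) :=
        ((hηa _ (hrepP p hp)).contDiff (n := ω)).comp ((hg1a p hp).contDiff (n := ω))
      show |iteratedDeriv j (fun y => g2 p y - g p y) y| ≤ ε
      rw [e, iteratedDeriv_fun_add ha.contDiffAt (hb.of_le le_top).contDiffAt]
      have h5 := hg1d p hp j hj y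
      have h6 := (hδP p hp).2 (η (rep p)) ((hηa _ (hrepP p hp)).contDiff (n := ω))
        (hηT _ (hrepP p hp)) j hj y
      exact (abs_add_le _ _).trans (by linarith)
    · have e : (fun y => g2 p y - g p y) = fun y => (g1 p y - g p y) := by
        funext y
        simp only [hg2, if_neg hc, add_zero]
      show |iteratedDeriv j (fun y => g2 p y - g p y) y| ≤ ε
      rw [e]
      exact (hg1d p hp j hj y).trans (by linarith)
  · obtain ⟨j, hj⟩ := hrep1 p
    have e : (fun q y => g q y + (g2 q y - g q y)) = g2 := by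
      funext q y
      ring
    rw [e]
    exact hgood j p hp hj

end Pool.Agent.Tri
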