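import Pool.Agent.Tri.Targets

/-!
# TRI-INC: the perturbation of an increasing analytic circle map
-/

set_option autoImplicit false

open Set MeasureTheory Filter Topology
open scoped ContDiff

namespace Pool.Agent.Tri

namespace INC_

lemma per_bdd {f : ℝ → ℝ} (hf : Continuous f) (hp : ∀ y, f (y + 1) = f y) :
    ∃ C : ℝ, ∀ y, |f y| ≤ C := by
  obtain ⟨C, hC⟩ := (isCompact_Icc (a := (0 : ℝ)) (b := 1)).exists_bound_of_continuousOn
    hf.continuousOn
  refine ⟨C, fun y => ?_⟩
  have hper : Function.Periodic f 1 := hp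
  obtain ⟨z, hz, hzy⟩ := hper.exists_mem_Ico₀ one_pos y
  rw [hzy]
  exact hC z ⟨hz.1, hz.2.le⟩

lemma per_deriv_bdd {f : ℝ → ℝ} (hf : ContDiff ℝ ∞ f) (hp : ∀ y, f (y + 1) = f y) (K : ℕ) :
    ∃ C : ℝ, 0 < C ∧ ∀ j ≤ K, ∀ y, |iteratedDeriv j f y| ≤ C := by
  have h1 : ∀ j : ℕ, ∃ C : ℝ, ∀ y, |iteratedDeriv j f y| ≤ C := by
    intro j
    apply per_bdd
    · exact hf.continuous_iteratedDeriv j (by exact_mod_cast le_top)
    · intro y
      have h2 := congrFun (iteratedDeriv_comp_add_const (n := j) (f := f) (s := (1 : ℝ))) y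
      have h3 : (fun z => f (z + 1)) = f := funext hp
      rw [h3] at h2
      exact h2.symm
  choose C hC using h1
  refine ⟨1 + ∑ j ∈ Finset.range (K + 1), |C j|, by positivity, ?_⟩
  intro j hj y
  have h4 : |C j| ≤ ∑ j ∈ Finset.range (K + 1), |C j| :=
    Finset.single_le_sum (f := fun j => |C j|) (fun _ _ => abs_nonneg _)
      (Finset.mem_range.mpr (by omega))
  linarith [hC j y, le_abs_self (C j)]

lemma iter_cont {T : ℝ → ℝ} (hT : Continuous T) (y : ℝ) (m : ℕ) :
    Continuous (fun tt : ℝ => (fun x => T x - tt)^[m] y) := by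
  induction m with
  | zero => exact continuous_const
  | succ m ih =>
    simp only [Function.iterate_succ_apply']
    exact (hT.comp ih).sub continuous_id

lemma iter_an {T : ℝ → ℝ} (hT : AnalyticOnNhd ℝ T univ) (m : ℕ) :
    AnalyticOnNhd ℝ (T^[m]) univ := by
  induction m with
  | zero => exact analyticOnNhd_id
  | succ m ih =>
    rw [Function.iterate_succ']
    exact hT.comp ih (fun _ _ => mem_univ _)

lemma iter_mono {T T' : ℝ → ℝ} (hT : Monotone T) (h : ∀ x, T' x ≤ T x) (m : ℕ) (y : ℝ) :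
    T'^[m] y ≤ T^[m] y := by
  induction m with
  | zero => exact le_rfl
  | succ m ih =>
    rw [Function.iterate_succ_apply', Function.iterate_succ_apply']
    exact (h _).trans (hT ih)

lemma iter_lt {T T' : ℝ → ℝ} (hT : Monotone T) (h : ∀ x, T' x < T x) {m : ℕ} (hm : 1 ≤ m)
    (y : ℝ) : T'^[m] y < T^[m] y := by
  obtain ⟨n, rfl⟩ : ∃ n, m = n + 1 := ⟨m - 1, by omega⟩
  rw [Function.iterate_succ_apply', Function.iterate_succ_apply']
  exact (h _).trans_le (hT (iter_mono hT (fun x => (h x).le) n y))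

lemma zeros_fin {f : ℝ → ℝ} (hf : AnalyticOnNhd ℝ f univ) {y : ℝ} (hy : f y ≠ 0) :
    {x ∈ Icc (0 : ℝ) 1 | f x = 0}.Finite := by
  by_contra hinf
  have hinf' : {x ∈ Icc (0 : ℝ) 1 | f x = 0}.Infinite := hinf
  obtain ⟨z, _, hz⟩ := hinf'.exists_accPt_of_subset_isCompact isCompact_Icc (sep_subset _ _)
  have h1 : ∃ᶠ x in 𝓝[≠] z, x ∈ {x ∈ Icc (0 : ℝ) 1 | f x = 0} :=
    accPt_iff_frequently_nhdsNE.mp hz
  have h2 := hf.eqOn_zero_of_preconnected_of_frequently_eq_zero isPreconnected_univ
    (mem_univ z) (h1.mono fun x hx => hx.2)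
  exact hy (h2 (mem_univ y))

/-- the last step -/
lemma last {T : ℝ → ℝ} (hT : AnalyticOnNhd ℝ T univ) (hm : Monotone T) {m : ℕ} (h1 : 1 ≤ m)
    {p : ℤ} {y0 y1 ε : ℝ} (hε : 0 < ε) (hy0 : T^[m] y0 = y0 + p) (hy1 : T^[m] y1 ≠ y1 + p) :
    ∃ tt : ℝ, |tt| ≤ ε ∧ Cross (fun y => (fun x => T x - tt)^[m] y - p) := by
  have hTc : Continuous T := hT.continuous
  have hc := iter_cont hTc y1 m
  have hc0 : (fun x => T x - 0)^[m] y1 = T^[m] y1 := by simp
  have han : ∀ tt : ℝ, AnalyticOnNhd ℝ (fun y => (fun x => T x - tt)^[m] y - p - y) univ := by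
    intro tt
    exact ((iter_an (hT.sub analyticOnNhd_const) m).sub analyticOnNhd_const).sub analyticOnNhd_id
  have hfinz : ∀ tt : ℝ, (fun x => T x - tt)^[m] y0 ≠ y0 + p →
      {y ∈ Icc (0 : ℝ) 1 | (fun x => T x - tt)^[m] y - p = y}.Finite := by
    intro tt htt
    have h3 := zeros_fin (han tt) (y := y0) (by
      intro h0
      apply htt
      have h0' : (fun x => T x - tt)^[m] y0 - p - y0 = 0 := h0
      linarith)
    refine h3.subset ?_
    rintro y ⟨hy, hyy⟩
    refine ⟨hy, ?_⟩
    show (fun x => T x - tt)^[m] y - p - y = 0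
    linarith
  rcases lt_or_gt_of_ne hy1 with hlt | hgt
  · -- `T^[m] y1 < y1 + p`: take `tt < 0`
    have hev : ∀ᶠ tt in 𝓝 (0 : ℝ), (fun x => T x - tt)^[m] y1 < y1 + p := by
      have := hc.tendsto 0
      simp only [hc0] at this
      exact this.eventually (gt_mem_nhds hlt)
    obtain ⟨δ, hδ, hball⟩ := Metric.eventually_nhds_iff.mp hev
    set tt : ℝ := -(min (δ / 2) ε) with htt
    have hmin : 0 < min (δ / 2) ε := lt_min (by linarith) hε
    have hneg : tt < 0 := by rw [htt]; linarith
    have hy1' := hball (y := tt) (by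
      rw [Real.dist_eq, sub_zero, htt, abs_neg, abs_of_pos hmin]
      linarith [min_le_left (δ / 2) ε])
    have hy0' : y0 + p < (fun x => T x - tt)^[m] y0 := by
      rw [← hy0]
      refine iter_lt ?_ (fun x => by linarith) h1 y0
      intro a b hab
      have := hm hab
      show T a - tt ≤ T b - tt
      linarith
    refine ⟨tt, ?_, ⟨y1, by linarith⟩, ⟨y0, by linarith⟩, hfinz tt hy0'.ne'⟩
    rw [htt, abs_neg, abs_of_pos hmin]
    exact min_le_right _ _
  · have hev : ∀ᶠ tt in 𝓝 (0 : ℝ), y1 + p < (fun x => T x - tt)^[m] y1 := by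
      have := hc.tendsto 0
      simp only [hc0] at this
      exact this.eventually (lt_mem_nhds hgt)
    obtain ⟨δ, hδ, hball⟩ := Metric.eventually_nhds_iff.mp hev
    set tt : ℝ := min (δ / 2) ε with htt
    have hmin : 0 < min (δ / 2) ε := lt_min (by linarith) hε
    have hy1' := hball (y := tt) (by
      rw [Real.dist_eq, sub_zero, htt, abs_of_pos hmin]
      linarith [min_le_left (δ / 2) ε])
    have hy0' : (fun x => T x - tt)^[m] y0 < y0 + p := by
      rw [← hy0]
      exact iter_lt hm (fun x => by linarith) h1 y0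
    refine ⟨tt, ?_, ⟨y0, by linarith⟩, ⟨y1, by linarith⟩, hfinz tt hy0'.ne⟩
    rw [htt, abs_of_pos hmin]
    exact min_le_right _ _

/-- the bump -/
noncomputable def uu (a : ℕ → ℝ) (m : ℕ) (y : ℝ) : ℝ :=
  ∏ j ∈ Finset.range m, (1 - Real.cos (2 * Real.pi * (y - a j)))

lemma uu_per (a : ℕ → ℝ) (m : ℕ) (y : ℝ) : uu a m (y + 1) = uu a m y := by
  unfold uu
  refine Finset.prod_congr rfl fun j _ => ?_
  have : 2 * Real.pi * (y + 1 - a j) = 2 * Real.pi * (y - a j) + 2 * Real.pi := by ring
  rw [this, Real.cos_add_two_pi]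

lemma uu_nonneg (a : ℕ → ℝ) (m : ℕ) (y : ℝ) : 0 ≤ uu a m y :=
  Finset.prod_nonneg fun j _ => by
    linarith [Real.cos_le_one (2 * Real.pi * (y - a j))]

lemma uu_zero (a : ℕ → ℝ) {m j : ℕ} (hj : j < m) (k : ℤ) : uu a m (a j + k) = 0 := by
  refine Finset.prod_eq_zero (Finset.mem_range.mpr hj) ?_
  have : 2 * Real.pi * (a j + k - a j) = k * (2 * Real.pi) := by ring
  rw [this, Real.cos_int_mul_two_pi, sub_self]

lemma uu_ne (a : ℕ → ℝ) {m : ℕ} {y : ℝ} (h : ∀ j < m, ∀ k : ℤ, y ≠ a j + k) : uu a m y ≠ 0 := by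
  refine Finset.prod_ne_zero_iff.mpr fun j hj => ?_
  intro h0
  have h1 : Real.cos (2 * Real.pi * (y - a j)) = 1 := by linarith
  obtain ⟨k, hk⟩ := (Real.cos_eq_one_iff _).mp h1
  apply h j (Finset.mem_range.mp hj) k
  have h2 : (2 * Real.pi) * (y - a j - k) = 0 := by linarith
  have h3 : (2 * Real.pi) ≠ 0 := by positivity
  have := (mul_eq_zero.mp h2).resolve_left h3
  linarith

lemma uu_an (a : ℕ → ℝ) (m : ℕ) : AnalyticOnNhd ℝ (uu a m) univ := by
  have : uu a m = ∏ j ∈ Finset.range m, fun y => (1 - Real.cos (2 * Real.pi * (y - a j))) := by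
    funext y
    simp [uu]
  rw [this]
  refine Finset.analyticOnNhd_prod _ fun j _ => ?_
  exact analyticOnNhd_const.sub (Real.analyticOnNhd_cos.comp
    (analyticOnNhd_const.mul (analyticOnNhd_id.sub analyticOnNhd_const)) (fun _ _ => mem_univ _))

/-- the first steps: `T1 = t + s` has a periodic orbit; perturb so that not all points are
periodic. -/
lemma middle {T1 : ℝ → ℝ} (hT : AnalyticOnNhd ℝ T1 univ) (hm : StrictMono T1)
    (hper : ∀ y, T1 (y + 1) = T1 y + 1) {K : ℕ} {ε : ℝ} (hε : 0 < ε) {m : ℕ} (h1 : 1 ≤ m)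
    {p : ℤ} {y0 : ℝ} (hy0 : T1^[m] y0 = y0 + p) :
    ∃ v : ℝ → ℝ, AnalyticOnNhd ℝ v univ ∧ Tiny K ε v ∧ StrictMono (fun z => z + v z) ∧
      (fun x => T1 x + v (T1 x))^[m] y0 = y0 + p ∧
      ∃ y1, (fun x => T1 x + v (T1 x))^[m] y1 ≠ y1 + p := by
  by_cases hall : ∀ y, T1^[m] y = y + p
  swap
  · push Not at hall
    obtain ⟨y1, hy1⟩ := hall
    refine ⟨fun _ => 0, analyticOnNhd_const, ⟨fun _ => rfl, ?_⟩, ?_, ?_, y1, ?_⟩
    · intro j _ y
      have : iteratedDeriv j (fun _ : ℝ => (0 : ℝ)) y = 0 := by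
        rw [iteratedDeriv_const]
        split_ifs <;> rfl
      rw [this, abs_zero]
      exact hε.le
    · intro a b hab
      show a + 0 < b + 0
      linarith
    · simpa using hy0
    · simpa using hy1
  · set a : ℕ → ℝ := fun j => T1^[j] y0 with ha
    have huan := uu_an a m
    have husm : ContDiff ℝ ∞ (uu a m) := huan.contDiff.of_le (by exact_mod_cast le_top)
    obtain ⟨C, hC, hCb⟩ := per_deriv_bdd husm (uu_per a m) (K + 1)
    set δ : ℝ := min ε 1 / (2 * C) with hδ
    have hmin : 0 < min ε 1 := lt_min hε one_pos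
    have hδ0 : 0 < δ := by positivity
    have hδC : δ * C = min ε 1 / 2 := by rw [hδ]; field_simp
    have hvan : AnalyticOnNhd ℝ (fun y => δ * uu a m y) univ := analyticOnNhd_const.mul huan
    have hitd : ∀ j, ∀ y, iteratedDeriv j (fun y => δ * uu a m y) y =
        δ * iteratedDeriv j (uu a m) y := by
      intro j y
      exact iteratedDeriv_const_mul_field δ (uu a m)
    have hbd : ∀ j ≤ K + 1, ∀ y, |iteratedDeriv j (fun y => δ * uu a m y) y| ≤ min ε 1 / 2 := by
      intro j hj y
      rw [hitd, abs_mul, abs_of_pos hδ0, ← hδC]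
      exact mul_le_mul_of_nonneg_left (hCb j hj y) hδ0.le
    have hsm : StrictMono (fun z => z + δ * uu a m z) := by
      apply strictMono_of_deriv_pos
      intro x
      have hdu : DifferentiableAt ℝ (fun z => δ * uu a m z) x :=
        (hvan x (mem_univ _)).differentiableAt
      have h5 : deriv (fun z => z + δ * uu a m z) x = 1 + deriv (fun z => δ * uu a m z) x := by
        exact ((hasDerivAt_id x).add hdu.hasDerivAt).deriv
      rw [h5]
      have h7 := hbd 1 (by omega) x
      rw [iteratedDeriv_one] at h7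
      have h8 := (abs_le.mp h7).1
      have h9 : min ε 1 ≤ 1 := min_le_right _ _
      linarith
    have hT2 : ∀ x, T1 x ≤ T1 x + δ * uu a m (T1 x) := fun x => by
      have := mul_nonneg hδ0.le (uu_nonneg a m (T1 x))
      linarith
    refine ⟨fun y => δ * uu a m y, hvan, ⟨?_, ?_⟩, hsm, ?_, ?_⟩
    · intro y
      show δ * uu a m (y + 1) = δ * uu a m y
      rw [uu_per]
    · intro j hj y
      refine (hbd j (by omega) y).trans ?_
      linarith [min_le_left ε 1]
    · have hit : ∀ j ≤ m, (fun x => T1 x + δ * uu a m (T1 x))^[j] y0 = T1^[j] y0 := by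
        intro j
        induction j with
        | zero => intro _; rfl
        | succ j ih =>
          intro hj
          have h00 : uu a m (T1^[j + 1] y0) = 0 := by
            rcases Nat.lt_or_ge (j + 1) m with hlt | hge
            · have h01 := uu_zero a hlt 0
              rw [Int.cast_zero, add_zero] at h01
              exact h01
            · obtain rfl : m = j + 1 := by omega
              rw [hy0]
              exact uu_zero a (j := 0) (by omega) p
          have h0 : uu a m (T1 (T1^[j] y0)) = 0 := by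
            rw [← h00, Function.iterate_succ_apply']
          rw [Function.iterate_succ_apply', Function.iterate_succ_apply', ih (by omega)]
          rw [h0, mul_zero, add_zero]
      rw [hit m le_rfl, hy0]
    · -- a point that is moved
      have hcount : (⋃ j : ℕ, ⋃ k : ℤ, {a j + k} : Set ℝ).Countable :=
        countable_iUnion fun j => countable_iUnion fun k => countable_singleton _
      have hpre : (T1 ⁻¹' (⋃ j : ℕ, ⋃ k : ℤ, {a j + k} : Set ℝ)).Countable :=
        hcount.preimage_of_injOn hm.injective.injOn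
      have hne : ∃ y1 : ℝ, y1 ∉ T1 ⁻¹' (⋃ j : ℕ, ⋃ k : ℤ, {a j + k} : Set ℝ) := by
        by_contra hcon
        push Not at hcon
        have : (T1 ⁻¹' (⋃ j : ℕ, ⋃ k : ℤ, {a j + k} : Set ℝ)) = univ :=
          eq_univ_of_forall hcon
        rw [this] at hpre
        exact not_countable_univ hpre
      obtain ⟨y1, hy1⟩ := hne
      refine ⟨y1, ?_⟩
      have hu : uu a m (T1 y1) ≠ 0 := by
        apply uu_ne
        intro j _ k hk
        apply hy1
        simp only [mem_preimage, mem_iUnion, mem_singleton_iff]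
        exact ⟨j, k, hk⟩
      have hu' : 0 < uu a m (T1 y1) := lt_of_le_of_ne (uu_nonneg a m _) hu.symm
      have hlt : T1 y1 < T1 y1 + δ * uu a m (T1 y1) := by
        have := mul_pos hδ0 hu'
        linarith
      obtain ⟨n, rfl⟩ : ∃ n, m = n + 1 := ⟨m - 1, by omega⟩
      have h10 : T1^[n + 1] y1 < (fun x => T1 x + δ * uu a (n + 1) (T1 x))^[n + 1] y1 := by
        rw [Function.iterate_succ_apply, Function.iterate_succ_apply]
        calc T1^[n] (T1 y1) < T1^[n] (T1 y1 + δ * uu a (n + 1) (T1 y1)) :=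
              hm.iterate n hlt
          _ ≤ (fun x => T1 x + δ * uu a (n + 1) (T1 x))^[n]
              (T1 y1 + δ * uu a (n + 1) (T1 y1)) := by
              refine iter_mono ?_ hT2 n _
              intro x y hxy
              exact hsm.monotone (hm.monotone hxy)
      rw [hall y1] at h10
      exact h10.ne'

end INC_

open INC_

theorem pINC (h : T_CLOSE) : T_INC := by
  intro t K ε hta htm htp hε
  have hε3 : 0 < ε / 3 := by linarith
  obtain ⟨s, hs, m, hm, p, y0, hy0⟩ := h t (ε / 3) hta.continuous htm htp hε3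
  have hT1a : AnalyticOnNhd ℝ (fun x => t x + s) univ := hta.add analyticOnNhd_const
  have hT1m : StrictMono (fun x => t x + s) := fun a b hab => by
    have := htm hab
    show t a + s < t b + s
    linarith
  obtain ⟨v, hva, hvt, hvm, hv0, y1, hv1⟩ := middle (K := K) hT1a hT1m
    (fun y => by show t (y + 1) + s = t y + s + 1; rw [htp]; ring) hε3 hm hy0
  have hT2a : AnalyticOnNhd ℝ (fun x => (t x + s) + v (t x + s)) univ :=
    hT1a.add (hva.comp hT1a (fun _ _ => mem_univ _))
  have hT2m : Monotone (fun x => (t x + s) + v (t x + s)) := fun a b hab =>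
    hvm.monotone (hT1m.monotone hab)
  obtain ⟨tt, htt, hcross⟩ := last hT2a hT2m hm hε3 hv0 hv1
  refine ⟨fun z => (s - tt) + v (z + s), ?_, ⟨?_, ?_⟩, m, hm, p, ?_⟩
  · exact analyticOnNhd_const.add (hva.comp (analyticOnNhd_id.add analyticOnNhd_const)
      (fun _ _ => mem_univ _))
  · intro y
    show (s - tt) + v (y + 1 + s) = (s - tt) + v (y + s)
    have : y + 1 + s = y + s + 1 := by ring
    rw [this, hvt.1]
  · intro j hj y
    rcases Nat.eq_zero_or_pos j with rfl | hj0
    · rw [iteratedDeriv_zero]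
      have h1 := hvt.2 0 (by omega) (y + s)
      rw [iteratedDeriv_zero] at h1
      have h2 : |s - tt + v (y + s)| ≤ |s| + |tt| + |v (y + s)| := by
        calc |s - tt + v (y + s)| ≤ |s - tt| + |v (y + s)| := abs_add_le _ _
          _ ≤ |s| + |tt| + |v (y + s)| := by
              have := abs_sub s tt
              linarith
      show |s - tt + v (y + s)| ≤ ε
      linarith
    · have h1 : iteratedDeriv j (fun z => (s - tt) + v (z + s)) y =
          iteratedDeriv j v (y + s) := by
        rw [iteratedDeriv_const_add hj0]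
        exact congrFun (iteratedDeriv_comp_add_const (n := j) (f := v) (s := s)) y
      rw [h1]
      have := hvt.2 j hj (y + s)
      linarith
  · have heq : (fun x => t x + ((s - tt) + v (t x + s))) =
        (fun x => (t x + s) + v (t x + s) - tt) := by
      funext x
      ring
    show Cross (fun y => (fun x => t x + ((s - tt) + v (t x + s)))^[m] y - p)
    rw [heq]
    exact hcross

end Pool.Agent.Tri
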