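import Pool.Agent.Tri.Targets

set_option autoImplicit false

open Set MeasureTheory Filter Topology
open scoped ContDiff

namespace Pool.Agent.Tri

namespace LYAP_

private lemma pos_int {u : ℝ → ℝ} (hu : Continuous u) {a b : ℝ} (hab : a < b)
    (h0 : ∀ x ∈ Icc a b, 0 ≤ u x) {c : ℝ} (hc : c ∈ Icc a b) (hcu : 0 < u c) :
    0 < ∫ x in a..b, u x := by
  apply intervalIntegral.integral_pos hab hu.continuousOn
  · intro x hx
    exact h0 x ⟨hx.1.le, hx.2⟩
  · exact ⟨c, hc, hcu⟩

private lemma sgn {s : ℝ → ℝ} (hs : Continuous s) (hm : StrictMono s) {y : ℝ} (hy : y < s y) :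
    ∀ z ∈ Icc y (s y), z < s z := by
  intro z hz
  by_contra hcon
  push Not at hcon
  -- there is a zero in [y, z]
  have hcont : ContinuousOn (fun t => s t - t) (Icc y z) := (hs.sub continuous_id).continuousOn
  have hiv := intermediate_value_Icc' hz.1 hcont
  have h0 : (0 : ℝ) ∈ Icc (s z - z) (s y - y) := ⟨by linarith, by linarith⟩
  obtain ⟨t, ht, ht0⟩ := hiv h0
  have ht1 : s t = t := by linarith [ht0]
  rcases eq_or_lt_of_le ht.1 with h | h
  · rw [← h] at ht1; linarith
  · have := hm h
    rw [ht1] at this
    linarith [ht.2, hz.2]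

private lemma sgn' {s : ℝ → ℝ} (hs : Continuous s) (hm : StrictMono s) {y : ℝ} (hy : s y < y) :
    ∀ z ∈ Icc (s y) y, s z < z := by
  intro z hz
  by_contra hcon
  push Not at hcon
  have hcont : ContinuousOn (fun t => s t - t) (Icc z y) := (hs.sub continuous_id).continuousOn
  have hiv := intermediate_value_Icc' hz.2 hcont
  have h0 : (0 : ℝ) ∈ Icc (s y - y) (s z - z) := ⟨by linarith, by linarith⟩
  obtain ⟨t, ht, ht0⟩ := hiv h0
  have ht1 : s t = t := by linarith [ht0]
  rcases eq_or_lt_of_le ht.2 with h | h
  · rw [h] at ht1; linarith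
  · have := hm h
    rw [ht1] at this
    linarith [ht.1, hz.1]

end LYAP_

open LYAP_ in
/-- LYAP. -/
theorem pLYAP : T_LYAP := by
  intro s hs hm hper hneg hpos
  obtain ⟨y0, hy0⟩ := hneg
  obtain ⟨y1, hy1⟩ := hpos
  set D : ℝ → ℝ := fun y => s y - y with hD
  have hDc : Continuous D := hs.sub continuous_id
  have hDper : Function.Periodic D 1 := by
    intro y
    simp only [hD]
    rw [hper]
    ring
  set P : ℝ → ℝ := fun y => max (D y) 0 with hP
  set N : ℝ → ℝ := fun y => max (-D y) 0 with hN
  have hPc : Continuous P := hDc.max continuous_const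
  have hNc : Continuous N := hDc.neg.max continuous_const
  have hPper : Function.Periodic P 1 := fun y => by simp only [hP]; rw [hDper y]
  have hNper : Function.Periodic N 1 := fun y => by simp only [hN]; rw [hDper y]
  have hA : 0 < ∫ x in (0:ℝ)..1, P x := by
    have h1 : ∫ x in (0:ℝ)..1, P x = ∫ x in y1..(y1 + 1), P x := by
      have := hPper.intervalIntegral_add_eq 0 y1
      simpa using this
    rw [h1]
    apply pos_int hPc (by linarith) (fun x _ => le_max_right _ _) (c := y1)
      ⟨le_refl _, by linarith⟩
    simp only [hP, hD]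
    exact lt_max_of_lt_left (by linarith)
  have hB : 0 < ∫ x in (0:ℝ)..1, N x := by
    have h1 : ∫ x in (0:ℝ)..1, N x = ∫ x in y0..(y0 + 1), N x := by
      have := hNper.intervalIntegral_add_eq 0 y0
      simpa using this
    rw [h1]
    apply pos_int hNc (by linarith) (fun x _ => le_max_right _ _) (c := y0)
      ⟨le_refl _, by linarith⟩
    simp only [hN, hD]
    exact lt_max_of_lt_left (by linarith)
  set A := ∫ x in (0:ℝ)..1, P x with hAdef
  set B := ∫ x in (0:ℝ)..1, N x with hBdef
  set w : ℝ → ℝ := fun y => B * P y - A * N y with hw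
  have hwc : Continuous w := (continuous_const.mul hPc).sub (continuous_const.mul hNc)
  have hwper : Function.Periodic w 1 := fun y => by simp only [hw]; rw [hPper y, hNper y]
  have hw0 : ∫ x in (0:ℝ)..1, w x = 0 := by
    have h1 : ∫ x in (0:ℝ)..1, (B * P x - A * N x)
        = (∫ x in (0:ℝ)..1, B * P x) - ∫ x in (0:ℝ)..1, A * N x :=
      intervalIntegral.integral_sub ((continuous_const.mul hPc).intervalIntegrable _ _)
        ((continuous_const.mul hNc).intervalIntegrable _ _)
    simp only [hw]
    rw [h1, intervalIntegral.integral_const_mul, intervalIntegral.integral_const_mul]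
    rw [← hAdef, ← hBdef]
    ring
  refine ⟨fun y => - ∫ x in (0:ℝ)..y, w x, ?_, ?_, ?_⟩
  · exact (intervalIntegral.continuous_primitive (fun a b => hwc.intervalIntegrable a b) 0).neg
  · intro y
    have h1 : ∫ x in (0:ℝ)..(y + 1), w x = (∫ x in (0:ℝ)..y, w x) + ∫ x in y..(y + 1), w x :=
      (intervalIntegral.integral_add_adjacent_intervals (hwc.intervalIntegrable _ _)
        (hwc.intervalIntegrable _ _)).symm
    have h2 : ∫ x in y..(y + 1), w x = ∫ x in (0:ℝ)..1, w x := by
      have := hwper.intervalIntegral_add_eq y 0
      simpa using this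
    simp only [h1, h2, hw0, add_zero]
  · intro y
    have hsplit : (∫ x in (0:ℝ)..(s y), w x) - (∫ x in (0:ℝ)..y, w x) = ∫ x in y..(s y), w x :=
      intervalIntegral.integral_interval_sub_left (hwc.intervalIntegrable _ _)
        (hwc.intervalIntegrable _ _)
    rcases lt_trichotomy (s y) y with h | h | h
    · have hs' := sgn' hs hm h
      have hpos : 0 < ∫ x in (s y)..y, (fun t => - w t) x := by
        apply pos_int hwc.neg h
        · intro x hx
          have hx' := hs' x hx
          have h1 : P x = 0 := by
            simp only [hP, hD]; exact max_eq_right (by linarith)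
          have h2 : 0 ≤ N x := le_max_right _ _
          change 0 ≤ -(B * P x - A * N x)
          rw [h1]
          nlinarith
        · exact ⟨le_refl _, h.le⟩
        · have hx' := hs' (s y) ⟨le_refl _, h.le⟩
          have h1 : P (s y) = 0 := by
            simp only [hP, hD]; exact max_eq_right (by linarith)
          have h2 : 0 < N (s y) := by
            simp only [hN, hD]; exact lt_max_of_lt_left (by linarith)
          change 0 < -(B * P (s y) - A * N (s y))
          rw [h1]
          nlinarith
      have h3 : ∫ x in (s y)..y, (fun t => - w t) x = ∫ x in y..(s y), w x := by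
        simp only [intervalIntegral.integral_neg]
        rw [intervalIntegral.integral_symm y (s y)]
        ring
      rw [h3] at hpos
      have hlt : -(∫ x in (0:ℝ)..(s y), w x) < -(∫ x in (0:ℝ)..y, w x) := by linarith
      exact ⟨hlt.le, fun he => absurd he hlt.ne⟩
    · refine ⟨by simp only [h]; exact le_refl _, fun _ => h⟩
    · have hs' := sgn hs hm h
      have hpos : 0 < ∫ x in y..(s y), w x := by
        apply pos_int hwc h
        · intro x hx
          have hx' := hs' x hx
          have h1 : N x = 0 := by
            simp only [hN, hD]; exact max_eq_right (by linarith)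
          have h2 : 0 ≤ P x := le_max_right _ _
          simp only [hw, h1]
          nlinarith
        · exact ⟨le_refl _, h.le⟩
        · have hx' := hs' y ⟨le_refl _, h.le⟩
          have h1 : N y = 0 := by
            simp only [hN, hD]; exact max_eq_right (by linarith)
          have h2 : 0 < P y := by
            simp only [hP, hD]; exact lt_max_of_lt_left (by linarith)
          simp only [hw, h1]
          nlinarith
      have hlt : -(∫ x in (0:ℝ)..(s y), w x) < -(∫ x in (0:ℝ)..y, w x) := by linarith
      exact ⟨hlt.le, fun he => absurd he hlt.ne⟩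

end Pool.Agent.Tri
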