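import Pool.Agent.Tri.Basic

/-!
# Towers of circle extensions
-/

set_option autoImplicit false

open Set MeasureTheory Filter Topology
open scoped ContDiff

namespace Pool.Agent.Tri

namespace MAIN_

lemma pre_init {d n : ℕ} (h : d ≤ n) (h' : d ≤ n + 1) (z : T (n + 1)) :
    pre h (Fin.init z) = pre h' z := rfl

/-- The class of towers over `φ` of good diffeomorphisms. -/
def Cls {d n : ℕ} (h : d ≤ n) (r : ℕ∞) : Set (T n → T n) :=
  {g | IsDiffeo r g ∧ FinitelyManyLimits g ∧
    ∃ ψ : T d → T d, IsDiffeo r ψ ∧ FinitelyManyLimits ψ ∧ Tower h ψ g}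

lemma closure_mono {n : ℕ} {r : ℕ∞} {f : T n → T n} {D D' : Set (T n → T n)}
    (h : InClosure r f D) (hD : D ⊆ D') : InClosure r f D' := by
  intro K hK ε hε
  obtain ⟨g, hg, hc⟩ := h K hK ε hε
  exact ⟨g, hD hg, hc⟩

theorem main (htrunc : T_TRUNC) (hstep : T_STEP) {d : ℕ} {r : ℕ∞} (hr : 1 ≤ r)
    {φ : T d → T d} (hφ : InClosure r φ (Lim r)) :
    ∀ (k : ℕ) (f : T (d + k) → T (d + k)), IsDiffeo r f →
      Tower (Nat.le_add_right d k) φ f → InClosure r f (Cls (Nat.le_add_right d k) r) := by
  intro k
  induction k with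
  | zero =>
    intro f _ ht
    have e : f = φ := by
      funext z
      exact ht.1 z
    subst e
    refine closure_mono hφ ?_
    rintro g ⟨h1, h2⟩
    refine ⟨h1, h2, g, h1, h2, fun z => rfl, ?_⟩
    intro i hi
    have := i.2
    omega
  | succ k ih =>
    intro f hf ht
    -- the base map
    set f₁ : T (d + k) → T (d + k) := fun z => Fin.init (f (Fin.snoc z 0)) with hf₁
    have hcov : ∀ z, Fin.init (f z) = f₁ (Fin.init z) := by
      intro z
      funext i
      show f z i.castSucc = f (Fin.snoc (Fin.init z) 0) i.castSucc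
      by_cases hi : d ≤ (i : ℕ)
      · refine ht.2 i.castSucc (by simpa using hi) _ _ ?_
        intro j hj
        have hj' : (j : ℕ) < d + k := lt_of_le_of_lt (show (j : ℕ) ≤ (i : ℕ) from hj) i.2
        have : j = (⟨j, hj'⟩ : Fin (d + k)).castSucc := by ext; rfl
        rw [this, Fin.snoc_castSucc]
        rfl
      · have h1 := congrFun (ht.1 z) ⟨i, by omega⟩
        have h2 := congrFun (ht.1 (Fin.snoc (Fin.init z) 0)) ⟨i, by omega⟩
        have h3 : pre (Nat.le_add_right d (k + 1)) z =
            pre (Nat.le_add_right d (k + 1)) (Fin.snoc (Fin.init z) 0 : T (d + k + 1)) := by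
          funext j
          show z _ = (Fin.snoc (Fin.init z) 0 : T (d + k + 1)) _
          have : Fin.castLE (Nat.le_add_right d (k + 1)) j =
              (Fin.castLE (Nat.le_add_right d k) j).castSucc := by ext; rfl
          rw [this, Fin.snoc_castSucc]
          rfl
        rw [h3] at h1
        exact h1.trans h2.symm
    have hf₁d : IsDiffeo r f₁ := (htrunc (d + k) r f f₁ hr hf hcov).1
    have ht₁ : Tower (Nat.le_add_right d k) φ f₁ := by
      constructor
      · intro z
        have h1 := ht.1 (Fin.snoc z 0)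
        have h2 : pre (Nat.le_add_right d (k + 1)) (Fin.snoc z 0 : T (d + k + 1)) =
            pre (Nat.le_add_right d k) z := by
          funext j
          show (Fin.snoc z 0 : T (d + k + 1)) _ = z _
          have : Fin.castLE (Nat.le_add_right d (k + 1)) j =
              (Fin.castLE (Nat.le_add_right d k) j).castSucc := by ext; rfl
          rw [this, Fin.snoc_castSucc]
        rw [h2] at h1
        rw [← h1]
        rfl
      · intro i hi z w hzw
        show f (Fin.snoc z 0) i.castSucc = f (Fin.snoc w 0) i.castSucc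
        refine ht.2 i.castSucc (by simpa using hi) _ _ ?_
        intro j hj
        have hj' : (j : ℕ) < d + k := lt_of_le_of_lt (show (j : ℕ) ≤ (i : ℕ) from hj) i.2
        have e : j = (⟨j, hj'⟩ : Fin (d + k)).castSucc := by ext; rfl
        rw [e, Fin.snoc_castSucc, Fin.snoc_castSucc]
        exact hzw _ hj
    have hcl := ih f₁ hf₁d ht₁
    refine closure_mono (hstep (d + k) r (Cls (Nat.le_add_right d k) r) f₁ f hr ?_ hcl hf hcov) ?_
    · rintro g ⟨h1, h2, _⟩
      exact ⟨h1, h2⟩
    · rintro g ⟨⟨hg1, hg2⟩, g₁, ⟨_, _, ψ, hψ1, hψ2, hψ3⟩, hgcov⟩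
      refine ⟨hg1, hg2, ψ, hψ1, hψ2, ?_, ?_⟩
      · intro z
        have h1 := hψ3.1 (Fin.init z)
        rw [← hgcov z] at h1
        exact h1
      · intro i hi z w hzw
        by_cases hil : (i : ℕ) < d + k
        · have e : i = (⟨i, hil⟩ : Fin (d + k)).castSucc := by ext; rfl
          have h1 := hψ3.2 ⟨i, hil⟩ hi (Fin.init z) (Fin.init w) (by
            intro j hj
            exact hzw _ (by rw [Fin.le_def] at hj ⊢; simpa using hj))
          rw [← hgcov z, ← hgcov w] at h1
          rw [e]
          exact h1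
        · have hzw' : z = w := by
            funext j
            refine hzw j ?_
            rw [Fin.le_def]
            have := j.2
            omega
          rw [hzw']

end MAIN_

open MAIN_

theorem pMAIN (hattr : T_ATTR) (htrunc : T_TRUNC) (hstep : T_STEP) : T_MAIN := by
  intro d n h r φ f hr hφ hf ht
  obtain ⟨k, rfl⟩ := Nat.exists_eq_add_of_le h
  refine closure_mono (main htrunc hstep hr hφ k f hf ht) ?_
  rintro g ⟨h1, h2, h3⟩
  exact ⟨h1, h2, hattr _ g h2, h3⟩

end Pool.Agent.Tri
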