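import Pool.Agent.Tri.LIFT

/-!
# OPEN: the diffeomorphisms of the torus are open
-/

set_option autoImplicit false

open Set MeasureTheory Filter Topology
open scoped ContDiff

namespace Pool.Agent.Tri

namespace OPEN_

/-- A `C^r` map near the identity (in the `C^1` sense) has a `C^r` inverse. -/
theorem near_id {n : ℕ} (r : ℕ∞) (hr : 1 ≤ r) (w : V n → V n) (hw : ContDiff ℝ r w)
    (hb : ∀ x, ‖fderiv ℝ w x‖ ≤ 1 / 2) : ∃ K : V n → V n, ContDiff ℝ r K ∧
      Function.LeftInverse K (fun z => z + w z) ∧ Function.RightInverse K (fun z => z + w z) := by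
  have hr0 : (r : WithTop ℕ∞) ≠ 0 := by
    intro h
    have h1 : ((1 : ℕ∞) : WithTop ℕ∞) ≤ (r : WithTop ℕ∞) := by exact_mod_cast hr
    rw [h] at h1
    simp at h1
  have hwd : Differentiable ℝ w := hw.differentiable hr0
  have hlip : LipschitzWith (1 / 2) w := by
    apply lipschitzWith_of_nnnorm_fderiv_le hwd
    intro x
    rw [← NNReal.coe_le_coe]
    simpa using hb x
  have happ : ApproximatesLinearOn (fun z => z + w z)
      ((ContinuousLinearEquiv.refl ℝ (V n) : V n ≃L[ℝ] V n) : V n →L[ℝ] V n) univ (1 / 2) := by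
    intro x _ y _
    have h := hlip.dist_le_mul x y
    rw [dist_eq_norm, dist_eq_norm] at h
    have e : x + w x - (y + w y) - ((ContinuousLinearEquiv.refl ℝ (V n) : V n ≃L[ℝ] V n) :
        V n →L[ℝ] V n) (x - y) = w x - w y := by
      simp only [ContinuousLinearEquiv.coe_coe, ContinuousLinearEquiv.refl_apply]
      abel
    rw [e]
    exact h
  have hc : Subsingleton (V n) ∨ (1 / 2 : NNReal) <
      ‖((ContinuousLinearEquiv.refl ℝ (V n)).symm : V n →L[ℝ] V n)‖₊⁻¹ := by
    rcases subsingleton_or_nontrivial (V n) with h | h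
    · exact Or.inl h
    · right
      have : ‖((ContinuousLinearEquiv.refl ℝ (V n)).symm : V n →L[ℝ] V n)‖₊ = 1 := by
        rw [← NNReal.coe_inj]
        exact ContinuousLinearMap.norm_id
      rw [this, inv_one]
      rw [← NNReal.coe_lt_coe]
      norm_num
  let H := happ.toHomeomorph _ hc
  have hH : ∀ z, H z = z + w z := fun z => rfl
  have hHs : ContDiff ℝ r H := by
    have : (H : V n → V n) = fun z => z + w z := rfl
    rw [this]
    exact contDiff_id.add hw
  have hunit : ∀ x, ‖-fderiv ℝ w x‖ < 1 := by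
    intro x
    rw [norm_neg]
    linarith [hb x]
  let f' : V n → (V n ≃L[ℝ] V n) := fun x =>
    ContinuousLinearEquiv.ofUnit (Units.oneSub (-fderiv ℝ w x) (hunit x))
  have hf' : ∀ x, HasFDerivAt H ((f' x : V n ≃L[ℝ] V n) : V n →L[ℝ] V n) x := by
    intro x
    have h1 : HasFDerivAt (fun z => z + w z) (ContinuousLinearMap.id ℝ (V n) + fderiv ℝ w x) x :=
      (hasFDerivAt_id x).add (hwd x).hasFDerivAt
    have h2 : ((f' x : V n ≃L[ℝ] V n) : V n →L[ℝ] V n) =
        ContinuousLinearMap.id ℝ (V n) + fderiv ℝ w x := by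
      ext1 v
      show ((Units.oneSub (-fderiv ℝ w x) (hunit x) : (V n →L[ℝ] V n)ˣ) : V n →L[ℝ] V n) v = _
      rw [Units.val_oneSub]
      simp
    rw [h2]
    exact h1
  have hsymm : ContDiff ℝ r H.symm := H.contDiff_symm hf' hHs
  exact ⟨H.symm, hsymm, fun z => H.symm_apply_apply z, fun z => H.apply_symm_apply z⟩

end OPEN_

open LIFT_ OPEN_ in
theorem pOPEN : T_OPEN := by
  intro n r f F G hr hf hF hG hGF hFG hl
  have hr0 : (r : WithTop ℕ∞) ≠ 0 := by
    intro h
    have h1 : ((1 : ℕ∞) : WithTop ℕ∞) ≤ (r : WithTop ℕ∞) := by exact_mod_cast hr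
    rw [h] at h1
    simp at h1
  obtain ⟨A, hA⟩ := exists_A F hF.continuous (lift_per hl)
  have hAs : Function.Surjective A := A_surjective hf.1 hFG.surjective hl A hA
  -- the derivative of `G` is periodic
  have hGper : ∀ (z : V n) (l : Fin n → ℤ), fderiv ℝ G (fun i => z i + l i) = fderiv ℝ G z := by
    intro z l
    obtain ⟨k, -, hk⟩ := G_per hGF hFG A hA hAs l
    have e1 : (fun x : V n => G (x + fun i => (l i : ℝ))) = fun x => G x + fun j => (k j : ℝ) := by
      funext x
      exact hk x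
    have e2 : fderiv ℝ (fun x : V n => G (x + fun i => (l i : ℝ))) z =
        fderiv ℝ G (z + fun i => (l i : ℝ)) := by
      rw [fderiv_comp_add_right]
    have e3 : fderiv ℝ (fun x : V n => G x + fun j => (k j : ℝ)) z = fderiv ℝ G z := by
      rw [fderiv_add_const]
    have : (fun i => z i + (l i : ℝ)) = z + fun i => (l i : ℝ) := rfl
    rw [this, ← e2, e1, e3]
  have hG1 : Continuous (fderiv ℝ G) := hG.continuous_fderiv hr0
  obtain ⟨C, hC0, hC⟩ := bounded_of_per (fderiv ℝ G) hG1 hGper
  refine ⟨1 / (2 * C + 1), by positivity, fun u hu hup hub => ?_⟩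
  have hud : Differentiable ℝ u := hu.differentiable hr0
  have hGd : Differentiable ℝ G := hG.differentiable hr0
  have hw : ContDiff ℝ r (fun z => u (G z)) := hu.comp hG
  have hwb : ∀ x, ‖fderiv ℝ (fun z => u (G z)) x‖ ≤ 1 / 2 := by
    intro x
    have h1 : fderiv ℝ (fun z => u (G z)) x = (fderiv ℝ u (G x)).comp (fderiv ℝ G x) :=
      fderiv_comp x (hud (G x)) (hGd x)
    rw [h1]
    calc ‖(fderiv ℝ u (G x)).comp (fderiv ℝ G x)‖ ≤ ‖fderiv ℝ u (G x)‖ * ‖fderiv ℝ G x‖ :=
          ContinuousLinearMap.opNorm_comp_le _ _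
      _ ≤ 1 / (2 * C + 1) * C := by
          apply mul_le_mul (hub _) (hC x) (norm_nonneg _) (by positivity)
      _ ≤ 1 / 2 := by
          rw [div_mul_eq_mul_div, one_mul, div_le_div_iff₀ (by positivity) (by norm_num)]
          linarith
  obtain ⟨K, hK, hKl, hKr⟩ := near_id r hr (fun z => u (G z)) hw hwb
  -- the new lift and its inverse
  have hFu : ∀ x, F x + u x = (fun z => z + u (G z)) (F x) := by
    intro x
    show F x + u x = F x + u (G (F x))
    rw [hGF x]
  have hL : Function.LeftInverse (fun x => G (K x)) (fun x => F x + u x) := by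
    intro x
    show G (K (F x + u x)) = x
    rw [hFu, hKl (F x), hGF x]
  have hR : Function.RightInverse (fun x => G (K x)) (fun x => F x + u x) := by
    intro x
    show F (G (K x)) + u (G (K x)) = x
    rw [hFG (K x)]
    exact hKr x
  have hshift : ∀ (x : V n) (k : Fin n → ℤ), F (fun i => x i + k i) + u (fun i => x i + k i) =
      fun j => (F x + u x) j + A k j := by
    intro x k
    rw [hA, hup]
    funext j
    simp only [Pi.add_apply]
    ring
  let s : T n → V n := Function.surjInv mk_surjective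
  have hs : ∀ z, mk (s z) = z := Function.surjInv_eq mk_surjective
  refine ⟨fun z => mk (F (s z) + u (s z)), ?_⟩
  have hlift : IsLift (fun x => F x + u x) (fun z => mk (F (s z) + u (s z))) := by
    intro x
    show mk (F x + u x) = mk (F (s (mk x)) + u (s (mk x)))
    obtain ⟨k, hk⟩ := (mk_eq_iff _ _).1 (hs (mk x))
    rw [hk, hshift, mk_add_int]
  refine ⟨⟨⟨?_, ?_⟩, fun x => F x + u x, fun x => G (K x), hF.add hu, hG.comp hK, hL, hR, hlift⟩,
    hlift⟩
  · intro z z' h
    obtain ⟨x, rfl⟩ := mk_surjective z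
    obtain ⟨y, rfl⟩ := mk_surjective z'
    rw [← hlift, ← hlift] at h
    obtain ⟨l, hl'⟩ := (mk_eq_iff _ _).1 h
    obtain ⟨k, rfl⟩ := hAs l
    have h2 : (fun x => F x + u x) x = (fun x => F x + u x) (fun i => y i + k i) := by
      show F x + u x = F (fun i => y i + k i) + u (fun i => y i + k i)
      rw [hshift]
      exact hl'
    have h3 := hL.injective h2
    rw [h3, mk_add_int]
  · intro z
    obtain ⟨y, rfl⟩ := mk_surjective z
    refine ⟨mk (G (K y)), ?_⟩
    rw [← hlift]
    exact congrArg mk (hR y)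

end Pool.Agent.Tri
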