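import Pool.Agent.Tri.Targets

/-!
# Towers: finite limit sets (entries PER and GRAD)
-/

set_option autoImplicit false

open Set MeasureTheory Filter Topology

namespace Pool.Agent.Tri

namespace PERGRAD_

lemma per_iterate {X : Type} {f : X → X} {p : X} {m : ℕ} (h : f^[m] p = p) (k : ℕ) :
    f^[m] (f^[k] p) = f^[k] p := by
  rw [← Function.iterate_add_apply, add_comm, Function.iterate_add_apply, h]

lemma per_mul {X : Type} {f : X → X} {p : X} {m : ℕ} (h : f^[m] p = p) (l : ℕ) :
    f^[m * l] p = p := by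
  induction l with
  | zero => simp
  | succ l ih => rw [Nat.mul_succ, Function.iterate_add_apply, h, ih]

lemma orbit_finite {X : Type} {f : X → X} {p : X} {m : ℕ} (hm : 1 ≤ m) (h : f^[m] p = p) :
    (range fun k : ℕ => f^[k] p).Finite := by
  apply ((Set.finite_Iio m).image (fun k : ℕ => f^[k] p)).subset
  rintro _ ⟨k, rfl⟩
  refine ⟨k % m, Nat.mod_lt _ hm, ?_⟩
  simp only
  conv_rhs => rw [← Nat.mod_add_div k m, Function.iterate_add_apply, per_mul h]

end PERGRAD_

open PERGRAD_

/-- PER. -/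
theorem pPER : T_PER := by
  classical
  intro X _ f ⟨P, hP, hper, hlim⟩
  have hSfin : (⋃ p ∈ P, range fun k : ℕ => f^[k] p).Finite := by
    apply hP.biUnion
    intro p hp
    obtain ⟨m, hm, h⟩ := hper p hp
    exact orbit_finite hm h
  refine ⟨hSfin.toFinset, ?_, ?_, ?_⟩
  · intro y hy
    rw [Set.Finite.mem_toFinset, mem_iUnion₂] at hy ⊢
    obtain ⟨p, hp, k, rfl⟩ := hy
    exact ⟨p, hp, k + 1, Function.iterate_succ_apply' f k p⟩
  · intro y hy
    rw [Set.Finite.mem_toFinset, mem_iUnion₂] at hy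
    obtain ⟨p, hp, k, rfl⟩ := hy
    obtain ⟨m, hm, h⟩ := hper p hp
    exact ⟨m, hm, per_iterate h k⟩
  · intro x z hz
    rw [Set.Finite.mem_toFinset]
    by_contra hzS
    obtain ⟨p, hp, hd⟩ := hlim x
    have hcl := hSfin.isClosed
    obtain ⟨ε, hε, hball⟩ := Metric.isOpen_iff.1 hcl.isOpen_compl z hzS
    have h1 : ∀ᶠ k in atTop, dist (f^[k] x) (f^[k] p) < ε / 2 := by
      have := (Metric.tendsto_nhds.1 hd) (ε / 2) (by positivity)
      filter_upwards [this] with k hk
      rw [Real.dist_eq, sub_zero, abs_of_nonneg dist_nonneg] at hk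
      exact hk
    have h2 := (mapClusterPt_iff_frequently.1 hz) (Metric.ball z (ε / 2))
      (Metric.ball_mem_nhds z (by positivity))
    obtain ⟨k, hk1, hk2⟩ := (h2.and_eventually h1).exists
    have h3 : f^[k] p ∈ Metric.ball z ε := by
      rw [Metric.mem_ball] at hk1 ⊢
      calc dist (f^[k] p) z ≤ dist (f^[k] p) (f^[k] x) + dist (f^[k] x) z := dist_triangle _ _ _
        _ < ε / 2 + ε / 2 := by rw [dist_comm (f^[k] p)]; linarith
        _ = ε := by ring
    exact hball h3 (mem_iUnion₂.2 ⟨p, hp, k, rfl⟩)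

/-- GRAD. -/
theorem pGRAD : T_GRAD := by
  classical
  intro X _ _ f P hf hP hcl
  refine ⟨{p | p ∈ P ∧ ∃ m : ℕ, 1 ≤ m ∧ f^[m] p = p}, hP.subset fun p hp => hp.1,
    fun p hp => hp.2, ?_⟩
  intro x
  set u : ℕ → X := fun k => f^[k] x with hu
  set Om : Set X := {z | MapClusterPt z atTop u} with hOm
  have hOmP : Om ⊆ P := fun z hz => hcl x z hz
  have hOmfin : Om.Finite := hP.subset hOmP
  have hOmf : ∀ z ∈ Om, f z ∈ Om := by
    intro z hz
    have h1 : MapClusterPt (f z) atTop (f ∘ u) := hz.continuousAt_comp hf.continuousAt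
    have h2 : (f ∘ u) = u ∘ (fun k => k + 1) := by
      funext k
      simp only [hu, Function.comp_apply]
      exact (Function.iterate_succ_apply' f k x).symm
    rw [h2] at h1
    exact h1.of_comp (tendsto_add_atTop_nat 1)
  have hev : ∀ ε : ℝ, 0 < ε → ∀ᶠ k in atTop, ∃ q ∈ Om, dist (u k) q < ε := by
    intro ε hε
    by_contra h
    rw [not_eventually] at h
    have hC : IsClosed {y : X | ∀ q ∈ Om, ε ≤ dist y q} := by
      have : {y : X | ∀ q ∈ Om, ε ≤ dist y q} = ⋂ q ∈ Om, {y : X | ε ≤ dist y q} := by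
        ext y
        simp
      rw [this]
      apply isClosed_biInter
      intro q _
      exact isClosed_le continuous_const (continuous_id.dist continuous_const)
    obtain ⟨a, ha, hca⟩ := hC.isCompact.exists_mapClusterPt_of_frequently (f := u) (l := atTop)
      (h.mono fun k hk => by
        push Not at hk
        exact hk)
    have := ha a hca
    rw [dist_self] at this
    linarith
  -- separation
  obtain ⟨δ, hδ, hsep⟩ : ∃ δ : ℝ, 0 < δ ∧ ∀ p ∈ Om, ∀ q ∈ Om, dist p q < δ → p = q := by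
    rcases Om.subsingleton_or_nontrivial with h | h
    · exact ⟨1, one_pos, fun p hp q hq _ => h hp hq⟩
    · have hfin : ((fun pq : X × X => dist pq.1 pq.2) '' Om.offDiag).Finite :=
        hOmfin.offDiag.image _
      have hne : ((fun pq : X × X => dist pq.1 pq.2) '' Om.offDiag).Nonempty := by
        obtain ⟨p, hp, q, hq, hpq⟩ := h
        exact ⟨_, (p, q), ⟨hp, hq, hpq⟩, rfl⟩
      obtain ⟨δ, ⟨pq, hpq, rfl⟩, hmin⟩ := hfin.exists_minimal hne
      refine ⟨dist pq.1 pq.2, dist_pos.2 hpq.2.2, ?_⟩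
      intro p hp q hq hlt
      by_contra hne
      have h1 : dist p q ∈ ((fun pq : X × X => dist pq.1 pq.2) '' Om.offDiag) :=
        ⟨(p, q), ⟨hp, hq, hne⟩, rfl⟩
      have h2 := hmin h1 hlt.le
      linarith
  -- continuity
  obtain ⟨ε1, hε1, hcont⟩ : ∃ ε1 : ℝ, 0 < ε1 ∧ ∀ q ∈ Om, ∀ y, dist y q < ε1 →
      dist (f y) (f q) < δ / 3 := by
    have huc := CompactSpace.uniformContinuous_of_continuous hf
    obtain ⟨ε1, h1, h2⟩ := Metric.uniformContinuous_iff.1 huc (δ / 3) (by positivity)
    exact ⟨ε1, h1, fun q _ y hy => h2 hy⟩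
  have hev1 := hev (min ε1 (δ / 3)) (by positivity)
  obtain ⟨k0, hk0⟩ := eventually_atTop.1 hev1
  have : Nonempty X := ⟨x⟩
  choose! q hq using hk0
  have hstep : ∀ k, k0 ≤ k → q (k + 1) = f (q k) := by
    intro k hk
    have h1 := hq k hk
    have h2 := hq (k + 1) (by omega)
    symm
    apply hsep _ (hOmf _ h1.1) _ h2.1
    have h3 : dist (u (k + 1)) (f (q k)) < δ / 3 := by
      have : u (k + 1) = f (u k) := Function.iterate_succ_apply' f k x
      rw [this]
      exact hcont _ h1.1 _ (lt_of_lt_of_le h1.2 (min_le_left _ _))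
    have h4 : dist (u (k + 1)) (q (k + 1)) < δ / 3 := lt_of_lt_of_le h2.2 (min_le_right _ _)
    calc dist (f (q k)) (q (k + 1)) ≤ dist (f (q k)) (u (k + 1)) + dist (u (k + 1)) (q (k + 1)) :=
        dist_triangle _ _ _
      _ < δ := by rw [dist_comm (f (q k))]; linarith
  have hqit : ∀ j, q (k0 + j) = f^[j] (q k0) := by
    intro j
    induction j with
    | zero => simp
    | succ j ih =>
      rw [← add_assoc, hstep (k0 + j) (by omega), ih, Function.iterate_succ_apply']
  have hqOm : ∀ j, f^[j] (q k0) ∈ Om := by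
    intro j
    rw [← hqit]
    exact (hq _ (by omega)).1
  -- eventually periodic
  obtain ⟨a, b, hab, heq⟩ : ∃ a b : ℕ, a < b ∧ f^[a] (q k0) = f^[b] (q k0) := by
    have : ¬ Function.Injective (fun j : ℕ => (⟨f^[j] (q k0), hqOm j⟩ : Om)) := by
      have : Finite Om := hOmfin
      exact not_injective_infinite_finite _
    rw [Function.not_injective_iff] at this
    obtain ⟨a, b, h1, h2⟩ := this
    have h3 : f^[a] (q k0) = f^[b] (q k0) := congrArg Subtype.val h1
    rcases lt_or_gt_of_ne h2 with h | h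
    · exact ⟨a, b, h, h3⟩
    · exact ⟨b, a, h, h3.symm⟩
  set r := f^[a] (q k0) with hr
  have hrper : f^[b - a] r = r := by
    rw [hr, ← Function.iterate_add_apply, Nat.sub_add_cancel hab.le]
    exact heq.symm
  set m := b - a with hm
  have hm1 : 1 ≤ m := by omega
  set K := k0 + a with hK
  have hml : K ≤ m * K := Nat.le_mul_of_pos_left K hm1
  refine ⟨f^[m * K - K] r, ⟨hOmP ?_, m, hm1, per_iterate hrper _⟩, ?_⟩
  · rw [hr, ← Function.iterate_add_apply]
    exact hqOm _
  have hfp : ∀ k, K ≤ k → f^[k] (f^[m * K - K] r) = q k := by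
    intro k hk
    obtain ⟨j, rfl⟩ := Nat.exists_eq_add_of_le hk
    rw [← Function.iterate_add_apply, show K + j + (m * K - K) = j + m * K by omega,
      Function.iterate_add_apply, per_mul hrper, hr, ← Function.iterate_add_apply, hK,
      add_assoc, hqit, add_comm j a]
  rw [Metric.tendsto_atTop]
  intro ε hε
  obtain ⟨k2, hk2⟩ := eventually_atTop.1 (hev (min ε (δ / 3)) (by positivity))
  refine ⟨max k2 K, fun k hk => ?_⟩
  have h1 : k2 ≤ k := le_trans (le_max_left _ _) hk
  have h2 : K ≤ k := le_trans (le_max_right _ _) hk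
  obtain ⟨q', hq', hd⟩ := hk2 k h1
  have h3 := hq k (by omega)
  have h4 : q' = q k := by
    apply hsep _ hq' _ h3.1
    have h5 : dist (u k) q' < δ / 3 := lt_of_lt_of_le hd (min_le_right _ _)
    have h6 : dist (u k) (q k) < δ / 3 := lt_of_lt_of_le h3.2 (min_le_right _ _)
    calc dist q' (q k) ≤ dist q' (u k) + dist (u k) (q k) := dist_triangle _ _ _
      _ < δ := by rw [dist_comm q']; linarith
  rw [Real.dist_eq, sub_zero, abs_of_nonneg dist_nonneg, hfp k h2, ← h4]
  exact lt_of_lt_of_le hd (min_le_left _ _)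

end Pool.Agent.Tri
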