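import Pool.Agent.Tri.Basic

/-!
# TRI-SMALL: the size of the perturbation
-/

set_option autoImplicit false

open Set MeasureTheory Filter Topology
open scoped ContDiff

namespace Pool.Agent.Tri

namespace SMALL_

/-- A continuous periodic function is bounded. -/
lemma bdd_of_per {m : ℕ} {E : Type} [NormedAddCommGroup E] {u : V m → E} (hu : Continuous u)
    (hp : Per u) : ∃ M : ℝ, ∀ x, ‖u x‖ ≤ M := by
  obtain ⟨M, hM⟩ := (isCompact_Icc (a := (0 : V m)) (b := 1)).exists_bound_of_continuousOn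
    hu.continuousOn
  refine ⟨M, fun x => ?_⟩
  have h1 := hp x (fun i => -⌊x i⌋)
  rw [← h1]
  apply hM
  constructor
  · intro i
    have := Int.floor_le (x i)
    simp only [Pi.zero_apply, Int.cast_neg]
    linarith
  · intro i
    have := Int.lt_floor_add_one (x i)
    simp only [Pi.one_apply, Int.cast_neg]
    linarith

lemma per_iterated {m : ℕ} {u : V m → ℝ} (hp : Per u) (j : ℕ) :
    Per (iteratedFDeriv ℝ j u) := by
  intro x k
  have h1 : (fun i => x i + k i) = x + (fun i => (k i : ℝ)) := rfl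
  have h2 : (fun z : V m => u (z + (fun i => (k i : ℝ)))) = u := by
    funext z
    exact hp z k
  rw [h1, ← iteratedFDeriv_comp_add_right, h2]

/-- A common bound for the derivatives of order at most `K`. -/
lemma bound {m : ℕ} {u : V m → ℝ} (hu : ContDiff ℝ ∞ u) (hp : Per u) (K : ℕ) :
    ∃ M : ℝ, 0 ≤ M ∧ ∀ j ≤ K, ∀ x, ‖iteratedFDeriv ℝ j u x‖ ≤ M := by
  have h : ∀ j : ℕ, ∃ M : ℝ, ∀ x, ‖iteratedFDeriv ℝ j u x‖ ≤ M := by
    intro j
    refine bdd_of_per (hu.continuous_iteratedFDeriv ?_) (per_iterated hp j)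
    exact_mod_cast le_top
  choose M hM using h
  refine ⟨∑ j ∈ Finset.range (K + 1), |M j|, Finset.sum_nonneg (fun _ _ => abs_nonneg _), ?_⟩
  intro j hj x
  exact (hM j x).trans ((le_abs_self _).trans (Finset.single_le_sum
    (f := fun j => |M j|) (fun _ _ => abs_nonneg _) (Finset.mem_range.2 (by omega))))

/-- `Fin.init` as a continuous linear map. -/
noncomputable def initL (m : ℕ) : V (m + 1) →L[ℝ] V m :=
  ContinuousLinearMap.pi (fun i : Fin m => ContinuousLinearMap.proj (Fin.castSucc i))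

lemma initL_apply {m : ℕ} (x : V (m + 1)) : initL m x = Fin.init x := rfl

lemma initL_norm (m : ℕ) : ‖initL m‖ ≤ 1 := by
  apply ContinuousLinearMap.opNorm_le_bound _ zero_le_one
  intro x
  rw [one_mul, initL_apply]
  refine (pi_norm_le_iff_of_nonneg (norm_nonneg _)).2 (fun i => ?_)
  exact norm_le_pi_norm x (Fin.castSucc i)

/-- The last coordinate as a continuous linear map. -/
noncomputable def lastL (m : ℕ) : V (m + 1) →L[ℝ] ℝ := ContinuousLinearMap.proj (Fin.last m)

lemma lastL_apply {m : ℕ} (x : V (m + 1)) : lastL m x = x (Fin.last m) := rfl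

lemma lastL_norm (m : ℕ) : ‖lastL m‖ ≤ 1 := by
  apply ContinuousLinearMap.opNorm_le_bound _ zero_le_one
  intro x
  rw [one_mul, lastL_apply]
  exact norm_le_pi_norm x (Fin.last m)

lemma comp_norm_le {E F : Type} [NormedAddCommGroup E] [NormedSpace ℝ E] [NormedAddCommGroup F]
    [NormedSpace ℝ F] (g : E →L[ℝ] F) (hg : ‖g‖ ≤ 1) {u : F → ℝ} {j : ℕ} (hu : ContDiff ℝ j u)
    (x : E) : ‖iteratedFDeriv ℝ j (fun x => u (g x)) x‖ ≤ ‖iteratedFDeriv ℝ j u (g x)‖ := by
  have h := g.iteratedFDeriv_comp_right hu x le_rfl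
  have h1 : (fun x => u (g x)) = u ∘ g := rfl
  rw [h1, h]
  refine (ContinuousMultilinearMap.norm_compContinuousLinearMap_le _ _).trans ?_
  have h2 : ∏ _i : Fin j, ‖g‖ ≤ 1 := Finset.prod_le_one (fun _ _ => norm_nonneg _) (fun _ _ => hg)
  calc ‖iteratedFDeriv ℝ j u (g x)‖ * ∏ _i : Fin j, ‖g‖ ≤ ‖iteratedFDeriv ℝ j u (g x)‖ * 1 :=
        mul_le_mul_of_nonneg_left h2 (norm_nonneg _)
    _ = _ := mul_one _

end SMALL_

open SMALL_ in
theorem pSMALL : T_SMALL := by
  classical
  intro m P χ r K ε hKr hχ hε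
  have hb : ∀ p : T m, ∃ M : ℝ, 0 ≤ M ∧ (p ∈ P → ∀ j ≤ K, ∀ x,
      ‖iteratedFDeriv ℝ j (χ p) x‖ ≤ M) := by
    intro p
    by_cases hp : p ∈ P
    · obtain ⟨M, h0, hM⟩ := bound (hχ p hp).1 (hχ p hp).2 K
      exact ⟨M, h0, fun _ => hM⟩
    · exact ⟨0, le_rfl, fun h => absurd h hp⟩
  choose M hM0 hM using hb
  set S : ℝ := ∑ p ∈ P, 2 ^ K * M p with hS
  have hS0 : 0 ≤ S := Finset.sum_nonneg (fun p _ => mul_nonneg (by positivity) (hM0 p))
  refine ⟨ε / (S + 1), by positivity, ?_⟩
  intro η hη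
  have hsm1 : ∀ p ∈ P, ContDiff ℝ r (fun x : V (m + 1) => χ p (Fin.init x)) := by
    intro p hp
    have h1 : ContDiff ℝ r (χ p) := (hχ p hp).1.of_le (by exact_mod_cast le_top)
    exact h1.comp (initL m).contDiff
  have hsm2 : ∀ p ∈ P, ContDiff ℝ r (fun x : V (m + 1) => η p (x (Fin.last m))) := by
    intro p hp
    exact (hη p hp).1.comp (lastL m).contDiff
  have hKr' : ∀ j ≤ K, ((j : ℕ) : ℕ∞ω) ≤ (r : ℕ∞ω) := by
    intro j hj
    have h1 : ((j : ℕ) : ℕ∞) ≤ r := le_trans (by exact_mod_cast hj) hKr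
    exact_mod_cast h1
  refine ⟨?_, ?_, ?_⟩
  · apply ContDiff.sum
    intro p hp
    exact (hsm1 p hp).mul (hsm2 p hp)
  · intro x k
    apply Finset.sum_congr rfl
    intro p hp
    have h1 : χ p (Fin.init (fun i => x i + (k i : ℝ))) = χ p (Fin.init x) :=
      (hχ p hp).2 (Fin.init x) (fun i => k (Fin.castSucc i))
    have h2 : η p (x (Fin.last m) + k (Fin.last m)) = η p (x (Fin.last m)) := by
      have h3 : Function.Periodic (η p) 1 := (hη p hp).2.1
      have h4 := h3.int_mul (k (Fin.last m)) (x (Fin.last m))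
      rwa [mul_one] at h4
    rw [h1, h2]
  · intro j hj x
    rw [iteratedFDeriv_fun_sum_apply (fun p hp =>
      ((((hsm1 p hp).mul (hsm2 p hp)).of_le (hKr' j hj)).contDiffAt))]
    refine (norm_sum_le _ _).trans ?_
    have key : ∀ p ∈ P, ‖iteratedFDeriv ℝ j
        (fun x : V (m + 1) => χ p (Fin.init x) * η p (x (Fin.last m))) x‖ ≤
        (2 ^ K * M p) * (ε / (S + 1)) := by
      intro p hp
      refine (norm_iteratedFDeriv_mul_le (hsm1 p hp) (hsm2 p hp) x (hKr' j hj)).trans ?_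
      have hterm : ∀ i ∈ Finset.range (j + 1), (j.choose i : ℝ) *
          ‖iteratedFDeriv ℝ i (fun x : V (m + 1) => χ p (Fin.init x)) x‖ *
          ‖iteratedFDeriv ℝ (j - i) (fun x : V (m + 1) => η p (x (Fin.last m))) x‖ ≤
          (j.choose i : ℝ) * (M p * (ε / (S + 1))) := by
        intro i hi
        have hi' : i ≤ j := Nat.lt_succ_iff.1 (Finset.mem_range.1 hi)
        rw [mul_assoc]
        apply mul_le_mul_of_nonneg_left _ (Nat.cast_nonneg _)
        apply mul_le_mul _ _ (norm_nonneg _) (hM0 p)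
        · have h1 : ContDiff ℝ i (χ p) := (hχ p hp).1.of_le (by exact_mod_cast le_top)
          exact (comp_norm_le (initL m) (initL_norm m) h1 x).trans (hM p hp i (by omega) _)
        · have h1 : ContDiff ℝ ((j - i : ℕ) : ℕ∞ω) (η p) :=
            (hη p hp).1.of_le (hKr' (j - i) (by omega))
          refine (comp_norm_le (lastL m) (lastL_norm m) h1 x).trans ?_
          rw [norm_iteratedFDeriv_eq_norm_iteratedDeriv, Real.norm_eq_abs]
          exact (hη p hp).2.2 (j - i) (by omega) _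
      refine (Finset.sum_le_sum hterm).trans ?_
      rw [← Finset.sum_mul]
      have h2 : (∑ i ∈ Finset.range (j + 1), (j.choose i : ℝ)) = 2 ^ j := by
        exact_mod_cast Nat.sum_range_choose j
      rw [h2, mul_assoc]
      apply mul_le_mul_of_nonneg_right
      · exact pow_le_pow_right₀ (by norm_num) hj
      · exact mul_nonneg (hM0 p) (by positivity)
    refine (Finset.sum_le_sum key).trans ?_
    rw [← Finset.sum_mul, ← hS, ← mul_div_assoc, div_le_iff₀ (by linarith)]
    nlinarith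

end Pool.Agent.Tri
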