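import Pool.Agent.Tri.Basic

/-!
# One circle extension
-/

set_option autoImplicit false

open Set MeasureTheory Filter Topology
open scoped ContDiff

namespace Pool.Agent.Tri

namespace STEP_

variable {m : ℕ}

/-- `x ↦ (x, 0)` -/
noncomputable def emb : V m →L[ℝ] V (m + 1) :=
  ContinuousLinearMap.pi (fun i => Fin.lastCases (motive := fun _ => V m →L[ℝ] ℝ) 0
    (fun j => ContinuousLinearMap.proj j) i)

/-- `y ↦ (0, y)` -/
noncomputable def emb1 : ℝ →L[ℝ] V (m + 1) :=
  ContinuousLinearMap.pi (fun i => Fin.lastCases (motive := fun _ => ℝ →L[ℝ] ℝ)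
    (ContinuousLinearMap.id ℝ ℝ) (fun _ => 0) i)

/-- forget the last coordinate -/
noncomputable def ini : V (m + 1) →L[ℝ] V m :=
  ContinuousLinearMap.pi (fun i => ContinuousLinearMap.proj i.castSucc)

lemma emb_last (x : V m) : emb x (Fin.last m) = 0 := by simp [emb]
lemma emb_castSucc (x : V m) (j : Fin m) : emb x j.castSucc = x j := by simp [emb]
lemma emb1_last (y : ℝ) : (emb1 y : V (m + 1)) (Fin.last m) = y := by simp [emb1]
lemma emb1_castSucc (y : ℝ) (j : Fin m) : (emb1 y : V (m + 1)) j.castSucc = 0 := by simp [emb1]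
lemma ini_apply (x : V (m + 1)) : ini x = Fin.init x := rfl

lemma norm_emb_le : ‖(emb : V m →L[ℝ] V (m + 1))‖ ≤ 1 := by
  refine ContinuousLinearMap.opNorm_le_bound _ zero_le_one (fun x => ?_)
  rw [one_mul, pi_norm_le_iff_of_nonneg (norm_nonneg _)]
  intro i
  refine Fin.lastCases ?_ (fun j => ?_) i
  · rw [emb_last]; simp
  · rw [emb_castSucc]; exact norm_le_pi_norm x j

lemma norm_emb1_le : ‖(emb1 : ℝ →L[ℝ] V (m + 1))‖ ≤ 1 := by
  refine ContinuousLinearMap.opNorm_le_bound _ zero_le_one (fun x => ?_)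
  rw [one_mul, pi_norm_le_iff_of_nonneg (norm_nonneg _)]
  intro i
  refine Fin.lastCases ?_ (fun j => ?_) i
  · rw [emb1_last]
  · rw [emb1_castSucc]; simp

lemma norm_ini_le : ‖(ini : V (m + 1) →L[ℝ] V m)‖ ≤ 1 := by
  refine ContinuousLinearMap.opNorm_le_bound _ zero_le_one (fun x => ?_)
  rw [one_mul, pi_norm_le_iff_of_nonneg (norm_nonneg _)]
  intro i
  exact norm_le_pi_norm x i.castSucc

lemma snoc_eq (x : V m) (y : ℝ) : (Fin.snoc x y : V (m + 1)) = emb x + emb1 y := by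
  funext i
  refine Fin.lastCases ?_ (fun j => ?_) i
  · simp [emb_last, emb1_last]
  · simp [emb_castSucc, emb1_castSucc]

/-- Size of the combined perturbation. -/
lemma size {K : ℕ} {a b : ℝ} {v : V m → V m} {w : V (m + 1) → ℝ} (hv : ContDiff ℝ K v)
    (hw : ContDiff ℝ K w) (h1 : ∀ j ≤ K, ∀ x, ‖iteratedFDeriv ℝ j v x‖ ≤ a)
    (h2 : ∀ j ≤ K, ∀ x, ‖iteratedFDeriv ℝ j w x‖ ≤ b) :
    ∀ j ≤ K, ∀ x, ‖iteratedFDeriv ℝ j
      (fun x => (Fin.snoc (v (Fin.init x)) (w x) : V (m + 1))) x‖ ≤ a + b := by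
  intro j hj x
  have hj' : (j : ℕ∞ω) ≤ (K : ℕ∞ω) := by exact_mod_cast hj
  have e : (fun x => (Fin.snoc (v (Fin.init x)) (w x) : V (m + 1))) =
      (emb ∘ (v ∘ ini)) + (emb1 ∘ w) := by
    funext x
    rw [snoc_eq]
    rfl
  have c1 : ContDiff ℝ K (v ∘ (ini : V (m + 1) →L[ℝ] V m)) := hv.comp ini.contDiff
  rw [e, iteratedFDeriv_add_apply (f := emb ∘ (v ∘ ini)) (g := emb1 ∘ w)
    ((emb.contDiff.comp c1).contDiffAt.of_le hj') ((emb1.contDiff.comp hw).contDiffAt.of_le hj')]
  refine (norm_add_le _ _).trans (add_le_add ?_ ?_)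
  · refine (emb.norm_iteratedFDeriv_comp_left c1.contDiffAt hj').trans ?_
    refine (mul_le_of_le_one_left (norm_nonneg _) norm_emb_le).trans ?_
    rw [ini.iteratedFDeriv_comp_right hv x hj']
    refine (ContinuousMultilinearMap.norm_compContinuousLinearMap_le _ _).trans ?_
    have : ∏ _i : Fin j, ‖(ini : V (m + 1) →L[ℝ] V m)‖ ≤ 1 :=
      Finset.prod_le_one (fun _ _ => norm_nonneg _) (fun _ _ => norm_ini_le)
    exact (mul_le_of_le_one_right (norm_nonneg _) this).trans (h1 j hj _)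
  · refine (emb1.norm_iteratedFDeriv_comp_left hw.contDiffAt hj').trans ?_
    exact (mul_le_of_le_one_left (norm_nonneg _) norm_emb1_le).trans (h2 j hj _)

/-- `Close` for a larger order implies `Close` for a smaller one. -/
lemma Close.mono {n : ℕ} {K K' : ℕ} {ε : ℝ} {f g : T n → T n} (h : Close K' ε f g) (hK : K ≤ K') :
    Close K ε f g := by
  obtain ⟨F, G, h1, h2, h3, h4, h5⟩ := h
  have : (K : ℕ∞ω) ≤ (K' : ℕ∞ω) := by exact_mod_cast hK
  exact ⟨F, G, h1.of_le this, h2.of_le this, h3, h4, fun j hj x => h5 j (hj.trans hK) x⟩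

lemma iter_semiconj {X B : Type} {f : X → X} {φ : B → B} {a : X → B}
    (h : ∀ z, a (f z) = φ (a z)) (x : X) (k : ℕ) : a (f^[k] x) = φ^[k] (a x) := by
  induction k with
  | zero => rfl
  | succ k ih => rw [Function.iterate_succ_apply', Function.iterate_succ_apply', h, ih]

end STEP_

open STEP_

theorem pSTEP (hopen : T_OPEN) (htrunc : T_TRUNC) (hbump : T_BUMP) (hsmall : T_SMALL)
    (hfam : T_FAM) (hdyn : T_DYN) (hper : T_PER) (hgrad : T_GRAD) : T_STEP := by
  intro m r D φ f hr hD hφ hf hcov K hK ε hε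
  -- at least one derivative
  set K' : ℕ := max K 1 with hK'def
  have hK'r : (K' : ℕ∞) ≤ r := by
    rcases le_total K 1 with h | h
    · have : K' = 1 := by omega
      rw [this]; exact_mod_cast hr
    · have : K' = K := by omega
      rw [this]; exact hK
  have hK'1 : 1 ≤ K' := le_max_right _ _
  have hK'r' : (K' : ℕ∞ω) ≤ (r : ℕ∞ω) := by exact_mod_cast hK'r
  suffices h : ∃ g ∈ {g : T (m + 1) → T (m + 1) | g ∈ Lim r ∧
      ∃ ψ ∈ D, ∀ z, Fin.init (g z) = ψ (Fin.init z)}, Close K' ε f g by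
    obtain ⟨g, hg, hc⟩ := h
    exact ⟨g, hg, Close.mono hc (le_max_left _ _)⟩
  obtain ⟨hφd, hfib⟩ := htrunc m r f φ hr hf hcov
  obtain ⟨hbij, F, G, hF, hG, hGF, hFG, hlift⟩ := hf
  obtain ⟨ε₀, hε₀, hop⟩ := hopen (m + 1) r f F G hr hbij hF hG hGF hFG hlift
  obtain ⟨⟨Φ, hΦ, hΦl, hΦF⟩, hfb⟩ := hfib F hF hlift
  -- perturbation of the base
  set ε₁ : ℝ := min (min (ε / 2) (ε₀ / 2)) (1 / 4) with hε₁def
  have hε₁ : 0 < ε₁ := by positivity
  obtain ⟨ψ, hψD, F₁, G₁, hF₁, hG₁, hF₁l, hG₁l, hclose⟩ := hφ K' hK'r ε₁ hε₁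
  obtain ⟨hψd, hψlim⟩ := hD hψD
  obtain ⟨_, Fψ, _, hFψ, _, _, _, hFψl⟩ := hψd
  have hF₁r : ContDiff ℝ r F₁ := contDiff_of_lift hΦ hF₁.continuous hΦl hF₁l
  have hG₁r : ContDiff ℝ r G₁ := contDiff_of_lift hFψ hG₁.continuous hFψl hG₁l
  set v : V m → V m := fun x => G₁ x - F₁ x with hv
  have hvr : ContDiff ℝ r v := hG₁r.sub hF₁r
  have hvs : ∀ j ≤ K', ∀ x, ‖iteratedFDeriv ℝ j v x‖ ≤ ε₁ := by
    intro j hj x
    have hj' : (j : ℕ∞ω) ≤ (K' : ℕ∞ω) := by exact_mod_cast hj
    have e : iteratedFDeriv ℝ j v x = iteratedFDeriv ℝ j G₁ x - iteratedFDeriv ℝ j F₁ x :=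
      iteratedFDeriv_sub_apply (hG₁.contDiffAt.of_le hj') (hF₁.contDiffAt.of_le hj')
    rw [e, norm_sub_rev]
    exact hclose j hj x
  have hv0 : ∀ x i, |v x i| ≤ 1 / 4 := by
    intro x i
    have h := hvs 0 (Nat.zero_le _) x
    rw [norm_iteratedFDeriv_zero] at h
    exact (norm_le_pi_norm (v x) i).trans (h.trans (min_le_right _ _))
  have hvper : Per v := by
    intro x k
    obtain ⟨l₁, hl₁⟩ := lift_add_int hG₁l x k
    obtain ⟨l₂, hl₂⟩ := lift_add_int hF₁l x k
    funext i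
    have e : v (fun i => x i + k i) i - v x i = ((l₁ i - l₂ i : ℤ) : ℝ) := by
      simp only [hv, Pi.sub_apply, hl₁ i, hl₂ i]
      push_cast
      ring
    have h1 := hv0 (fun i => x i + k i) i
    have h2 := hv0 x i
    have h3 : |((l₁ i - l₂ i : ℤ) : ℝ)| < 1 := by
      rw [← e]
      rw [abs_le] at h1 h2
      rw [abs_lt]
      constructor <;> linarith [h1.1, h1.2, h2.1, h2.2]
    have h4 : l₁ i - l₂ i = 0 := by
      rw [← Int.abs_lt_one_iff]
      exact_mod_cast h3
    rw [h4] at e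
    simp only [Int.cast_zero] at e
    linarith
  -- the new lift of the base map
  have hΦv : IsLift (fun x => Φ x + v x) ψ := by
    obtain ⟨k, hk⟩ := lift_unique hF₁r.continuous hΦ.continuous hF₁l hΦl
    intro x
    rw [← hG₁l x]
    refine (mk_eq_iff _ _).2 ⟨fun i => -k i, fun i => ?_⟩
    simp only [hv, Pi.add_apply, Pi.sub_apply, hk x i, Int.cast_neg]
    ring
  -- the fibres
  obtain ⟨P, hPmap, hPper, hPlim⟩ := hper (T m) ψ hψlim
  obtain ⟨χ, hχ⟩ := hbump m P
  set g : T m → ℝ → ℝ := fun p y => F (Fin.snoc (sec p) y) (Fin.last m) with hg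
  set ε₂ : ℝ := min (ε / 2) (ε₀ / 2) with hε₂def
  have hε₂ : 0 < ε₂ := by positivity
  obtain ⟨δ, hδ, hsm⟩ := hsmall m P χ r K' ε₂ hK'r (fun p hp => ⟨(hχ p hp).1, (hχ p hp).2.1⟩) hε₂
  obtain ⟨η, hη, hgood⟩ := hfam (T m) P ψ g r K' δ hK'1 hK'r hδ hPmap hPper
    (fun p _ => hfb (sec p))
  obtain ⟨hwr, hwper, hws⟩ := hsm η hη
  set w : V (m + 1) → ℝ := fun x => ∑ p ∈ P, χ p (Fin.init x) * η p (x (Fin.last m)) with hw
  set u : V (m + 1) → V (m + 1) := fun x => Fin.snoc (v (Fin.init x)) (w x) with hu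
  have hus : ∀ j ≤ K', ∀ x, ‖iteratedFDeriv ℝ j u x‖ ≤ ε₁ + ε₂ :=
    size (hvr.of_le hK'r') (hwr.of_le hK'r') hvs hws
  have hur : ContDiff ℝ r u := by
    have e : u = (emb ∘ (v ∘ ini)) + (emb1 ∘ w) := by
      funext x
      rw [hu]
      simp only [snoc_eq]
      rfl
    rw [e]
    exact (emb.contDiff.comp (hvr.comp ini.contDiff)).add (emb1.contDiff.comp hwr)
  have huper : Per u := by
    intro x k
    have h1 : Fin.init (fun i => x i + k i) = fun i => (Fin.init x : V m) i + (Fin.init k : Fin m → ℤ) i := rfl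
    have h2 := hwper x k
    have h3 := hvper (Fin.init x) (Fin.init k)
    simp only [hu]
    rw [h1, h2, h3]
  have hufd : ∀ x, ‖fderiv ℝ u x‖ ≤ ε₀ := by
    intro x
    have h := hus 1 hK'1 x
    rw [norm_iteratedFDeriv_one] at h
    refine h.trans ?_
    have a1 : ε₁ ≤ ε₀ / 2 := (min_le_left _ _).trans (min_le_right _ _)
    have a2 : ε₂ ≤ ε₀ / 2 := min_le_right _ _
    linarith
  obtain ⟨f', hf'd, hf'l⟩ := hop u hur huper hufd
  have hF'c : Continuous (fun x => F x + u x) := hF.continuous.add hur.continuous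
  have hf'c : Continuous f' := continuous_of_lift hF'c hf'l
  -- the base of the new map
  have hcov' : ∀ z, Fin.init (f' z) = ψ (Fin.init z) := by
    intro z
    obtain ⟨x, rfl⟩ := mk_surjective z
    rw [← hf'l x]
    have e1 : (Fin.init (mk x) : T m) = mk (Fin.init x) := rfl
    have e2 : (Fin.init (mk (F x + u x)) : T m) = mk (Fin.init (F x + u x)) := rfl
    rw [e1, e2, ← hΦv (Fin.init x)]
    congr 1
    funext i
    have e3 : F x i.castSucc = Φ (Fin.init x) i := by rw [← hΦF x]; rfl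
    simp only [Fin.init, Pi.add_apply, hu, Fin.snoc_castSucc]
    rw [e3]
  refine ⟨f', ⟨⟨hf'd, ?_⟩, ψ, hψD, hcov'⟩, F, (fun x => F x + u x), hF.of_le hK'r',
    (hF.add hur).of_le hK'r', hlift, hf'l, ?_⟩
  swap
  · intro j hj x
    have hj' : (j : ℕ∞ω) ≤ (r : ℕ∞ω) := by
      have : (j : ℕ∞ω) ≤ (K' : ℕ∞ω) := by exact_mod_cast hj
      exact this.trans hK'r'
    have e : iteratedFDeriv ℝ j (fun x => F x + u x) x =
        iteratedFDeriv ℝ j F x + iteratedFDeriv ℝ j u x :=
      iteratedFDeriv_add_apply (hF.contDiffAt.of_le hj') (hur.contDiffAt.of_le hj')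
    rw [e, sub_add_cancel_left, norm_neg]
    refine (hus j hj x).trans ?_
    have a1 : ε₁ ≤ ε / 2 := (min_le_left _ _).trans (min_le_left _ _)
    have a2 : ε₂ ≤ ε / 2 := min_le_left _ _
    linarith
  -- the dynamics
  have hlimP : ∀ x z, MapClusterPt z atTop (fun k : ℕ => f'^[k] x) → Fin.init z ∈ P := by
    intro x z hz
    apply hPlim (Fin.init x)
    have hcont : Continuous (fun z : T (m + 1) => (Fin.init z : T m)) :=
      continuous_pi (fun i => continuous_apply i.castSucc)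
    have := hz.tendsto_comp (hcont.tendsto z)
    refine this.congrFun ?_
    exact Eventually.of_forall (fun k => iter_semiconj (a := Fin.init) hcov' x k)
  have hGfib : ∀ p ∈ P, Continuous (fun y => g p y + η p y) ∧ Deg (fun y => g p y + η p y) := by
    intro p hp
    refine ⟨(hfb (sec p)).1.continuous.add (hη p hp).1.continuous, ?_⟩
    have hper1 := (hη p hp).2.1
    rcases (hfb (sec p)).2.2 with h | h
    · left
      intro y
      have := h y
      simp only [hg] at this ⊢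
      rw [this, hper1]; ring
    · right
      intro y
      have := h y
      simp only [hg] at this ⊢
      rw [this, hper1]; ring
  obtain ⟨Q, hQ, hQlim⟩ := hdyn (T (m + 1)) (T m) f' ψ Fin.init (fun z => z (Fin.last m)) P
    (fun p y => g p y + η p y) hf'c (continuous_pi (fun i => continuous_apply i.castSucc))
    (continuous_apply _) hcov' hPmap hGfib (by
      intro z hz y hy
      have e : z = mk (Fin.snoc (sec (Fin.init z)) y : V (m + 1)) := by
        funext i
        refine Fin.lastCases ?_ (fun j => ?_) i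
        · rw [mk_apply, Fin.snoc_last]; exact hy.symm
        · rw [mk_apply, Fin.snoc_castSucc]
          exact (congrFun (mk_sec (Fin.init z)) j).symm
      have e2 : f' z = mk (F (Fin.snoc (sec (Fin.init z)) y) + u (Fin.snoc (sec (Fin.init z)) y)) := by
        rw [hf'l]; rw [← e]
      show f' z (Fin.last m) = _
      rw [e2, mk_apply]
      congr 1
      simp only [Pi.add_apply, hg, hu, Fin.snoc_last, hw, Fin.init_snoc]
      congr 1
      have hχv : ∀ p ∈ P, χ p (sec (Fin.init z)) * η p y =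
          if p = Fin.init z then η p y else 0 := by
        intro p hp
        have h := (hχ p hp).2.2 (sec (Fin.init z)) (by rw [mk_sec]; exact hz)
        by_cases hpz : p = Fin.init z
        · rw [if_pos hpz, h.1 (by rw [mk_sec]; exact hpz.symm), one_mul]
        · rw [if_neg hpz, h.2 (by rw [mk_sec]; exact fun h => hpz h.symm), zero_mul]
      rw [Finset.sum_congr rfl hχv, Finset.sum_ite_eq' P (Fin.init z) (fun p => η p y), if_pos hz])
    hgood hlimP
  refine hgrad (T (m + 1)) f' ((fun z : T (m + 1) => ((Fin.init z : T m), z (Fin.last m))) ⁻¹' Q)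
    hf'c (hQ.preimage ?_) (fun x z hz => hQlim x z hz)
  intro z _ z' _ h
  simp only [Prod.mk.injEq] at h
  rw [← Fin.snoc_init_self z, ← Fin.snoc_init_self z', h.1, h.2]

end Pool.Agent.Tri
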