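import Pool.Agent.Tri.LIFT

/-!
# TRUNC: the base map and the fibre maps of a fibred diffeomorphism of the torus
-/

set_option autoImplicit false

open Set MeasureTheory Filter Topology
open scoped ContDiff

namespace Pool.Agent.Tri

namespace TRUNC_

open LIFT_

/-- `Fin.snoc` with fixed types. -/
def sn {m : ℕ} (x : V m) (y : ℝ) : V (m + 1) := Fin.snoc x y

theorem sn_last {m : ℕ} (x : V m) (y : ℝ) : sn x y (Fin.last m) = y := Fin.snoc_last _ _

theorem sn_cast {m : ℕ} (x : V m) (y : ℝ) (i : Fin m) : sn x y (Fin.castSucc i) = x i :=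
  Fin.snoc_castSucc (α := fun _ => ℝ) y x i

theorem init_sn {m : ℕ} (x : V m) (y : ℝ) : (Fin.init (sn x y) : V m) = x := by
  funext i
  exact sn_cast x y i

theorem sn_init {m : ℕ} (z : V (m + 1)) : sn (Fin.init z) (z (Fin.last m)) = z := by
  funext i
  refine Fin.lastCases ?_ (fun i => ?_) i
  · exact sn_last _ _
  · exact sn_cast _ _ _

theorem eq_sn {m : ℕ} (z : V (m + 1)) (x : V m) (y : ℝ) (h1 : (Fin.init z : V m) = x)
    (h2 : z (Fin.last m) = y) : z = sn x y := by
  rw [← h1, ← h2, sn_init]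

theorem contDiff_sn {m : ℕ} (N : WithTop ℕ∞) : ContDiff ℝ N (fun p : V m × ℝ => sn p.1 p.2) := by
  rw [contDiff_pi]
  intro i
  refine Fin.lastCases ?_ (fun i => ?_) i
  · simp only [sn_last]
    exact contDiff_snd
  · simp only [sn_cast]
    exact (contDiff_apply ℝ ℝ i).comp contDiff_fst

theorem contDiff_init {m : ℕ} (N : WithTop ℕ∞) :
    ContDiff ℝ N (fun z : V (m + 1) => (Fin.init z : V m)) := by
  rw [contDiff_pi]
  intro i
  exact contDiff_apply ℝ ℝ (Fin.castSucc i)

theorem mk_init {m : ℕ} (z : V (m + 1)) : mk (Fin.init z : V m) = Fin.init (mk z) := rfl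

theorem mk_sn_congr {m : ℕ} {x x' : V m} {y y' : ℝ} (h : mk (sn x y) = mk (sn x' y')) :
    mk x = mk x' := by
  have h1 := congrArg (Fin.init : T (m + 1) → T m) h
  rw [← mk_init, ← mk_init, init_sn, init_sn] at h1
  exact h1

/-- The integer vector `(0, …, 0, 1)`. -/
def eL (m : ℕ) : Fin (m + 1) → ℤ := fun i => if i = Fin.last m then 1 else 0

theorem sn_add_one {m : ℕ} (x : V m) (y : ℝ) : sn x (y + 1) = fun i => sn x y i + eL m i := by
  funext i
  refine Fin.lastCases ?_ (fun i => ?_) i
  · rw [sn_last, sn_last]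
    simp [eL]
  · rw [sn_cast, sn_cast]
    have : (Fin.castSucc i) ≠ Fin.last m := (Fin.castSucc_lt_last i).ne
    simp [eL, this]

/-- A continuous function with `g (y + 1) = g y + 1` is onto. -/
theorem surj_of_deg (g : ℝ → ℝ) (hg : Continuous g) (h : ∀ y, g (y + 1) = g y + 1) :
    Function.Surjective g := by
  have h1 : ∀ (n : ℕ) (y : ℝ), g (y + n) = g y + n := by
    intro n
    induction n with
    | zero => intro y; simp
    | succ n ih =>
      intro y
      have := h (y + n)
      rw [ih] at this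
      push_cast
      rw [← add_assoc, this]
      ring
  intro t
  obtain ⟨n, hn⟩ := exists_nat_ge |t - g 0|
  have ha : g (0 + n) = g 0 + n := h1 n 0
  have hb : g (-(n : ℝ)) = g 0 - n := by
    have := h1 n (-(n : ℝ))
    rw [neg_add_cancel] at this
    linarith
  rw [abs_le] at hn
  apply mem_range_of_exists_le_of_exists_ge hg
  · exact ⟨-(n : ℝ), by rw [hb]; linarith [hn.1]⟩
  · exact ⟨0 + n, by rw [ha]; linarith [hn.2]⟩

theorem surj_of_Deg (g : ℝ → ℝ) (hg : Continuous g) (h : Deg g) : Function.Surjective g := by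
  rcases h with h | h
  · exact surj_of_deg g hg h
  · have h1 : Function.Surjective (fun y => -g y) := by
      apply surj_of_deg _ hg.neg
      intro y
      show -g (y + 1) = -g y + 1
      rw [h]
      ring
    intro t
    obtain ⟨y, hy⟩ := h1 (-t)
    exact ⟨y, by simpa using hy⟩

section

variable {m : ℕ} {r : ℕ∞} {f : T (m + 1) → T (m + 1)} {φ : T m → T m}
  {F G : V (m + 1) → V (m + 1)}

/-- The fibre coordinate of the lift. -/
def fib (F : V (m + 1) → V (m + 1)) (x : V m) (y : ℝ) : ℝ := F (sn x y) (Fin.last m)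

/-- The base lift. -/
def base (F : V (m + 1) → V (m + 1)) (x : V m) : V m := Fin.init (F (sn x 0))

theorem contDiff_fib (hF : ContDiff ℝ r F) (x : V m) : ContDiff ℝ r (fib F x) := by
  have h1 : ContDiff ℝ r (fun y : ℝ => sn x y) :=
    (contDiff_sn (m := m) r).comp (contDiff_const.prodMk contDiff_id)
  exact (contDiff_apply ℝ ℝ (Fin.last m)).comp (hF.comp h1)

theorem contDiff_base (hF : ContDiff ℝ r F) : ContDiff ℝ r (base F) := by
  have h1 : ContDiff ℝ r (fun x : V m => sn x 0) :=
    (contDiff_sn (m := m) r).comp (contDiff_id.prodMk contDiff_const)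
  exact (contDiff_init r).comp (hF.comp h1)

theorem mk_init_F (hl : IsLift F f) (hφ : ∀ z, Fin.init (f z) = φ (Fin.init z)) (z : V (m + 1)) :
    mk (Fin.init (F z) : V m) = φ (mk (Fin.init z)) := by
  rw [mk_init, hl, hφ, mk_init]

theorem init_F (hF : Continuous F) (hl : IsLift F f)
    (hφ : ∀ z, Fin.init (f z) = φ (Fin.init z)) (z : V (m + 1)) :
    (Fin.init (F z) : V m) = base F (Fin.init z) := by
  have h1 : ∀ (x : V m) (y : ℝ), (Fin.init (F (sn x y)) : V m) = base F x := by
    intro x y
    funext i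
    have hc : Continuous (fun y : ℝ => F (sn x y) (Fin.castSucc i) - F (sn x 0) (Fin.castSucc i)) := by
      apply Continuous.sub _ continuous_const
      have h1 : Continuous (fun y : ℝ => sn x y) :=
        (contDiff_sn (m := m) 0).continuous.comp (continuous_const.prodMk continuous_id)
      exact (continuous_apply (Fin.castSucc i)).comp (hF.comp h1)
    have hi : ∀ y : ℝ, ∃ k : ℤ,
        F (sn x y) (Fin.castSucc i) - F (sn x 0) (Fin.castSucc i) = k := by
      intro y
      have e : mk (Fin.init (F (sn x y)) : V m) = mk (Fin.init (F (sn x 0)) : V m) := by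
        rw [mk_init_F hl hφ, mk_init_F hl hφ, init_sn, init_sn]
      obtain ⟨k, hk⟩ := (mk_eq_iff _ _).1 e
      refine ⟨k i, ?_⟩
      have h2 := congrFun hk i
      have h3 : F (sn x y) (Fin.castSucc i) = F (sn x 0) (Fin.castSucc i) + k i := h2
      rw [h3]
      ring
    have h := const_of_int _ hc hi y 0
    show F (sn x y) (Fin.castSucc i) = F (sn x 0) (Fin.castSucc i)
    simp only [sub_self] at h
    linarith
  have h2 := h1 (Fin.init z) (z (Fin.last m))
  rwa [sn_init] at h2

theorem F_sn (hF : Continuous F) (hl : IsLift F f)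
    (hφ : ∀ z, Fin.init (f z) = φ (Fin.init z)) (x : V m) (y : ℝ) :
    F (sn x y) = sn (base F x) (fib F x y) := by
  apply eq_sn
  · rw [init_F hF hl hφ, init_sn]
  · rfl

theorem fib_injective (hF : Continuous F) (hl : IsLift F f)
    (hφ : ∀ z, Fin.init (f z) = φ (Fin.init z)) (hi : Function.Injective F) (x : V m) :
    Function.Injective (fib F x) := by
  intro y y' h
  have h1 : F (sn x y) = F (sn x y') := by
    rw [F_sn hF hl hφ, F_sn hF hl hφ, h]
  have h2 := congrFun (hi h1) (Fin.last m)
  rwa [sn_last, sn_last] at h2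

theorem fib_deriv_ne (hr : 1 ≤ r) (hF : ContDiff ℝ r F) (hG : ContDiff ℝ r G) (hl : IsLift F f)
    (hφ : ∀ z, Fin.init (f z) = φ (Fin.init z)) (hGF : Function.LeftInverse G F) (x : V m)
    (y : ℝ) : deriv (fib F x) y ≠ 0 := by
  have hr0 : (r : WithTop ℕ∞) ≠ 0 := by
    intro h
    have h1 : ((1 : ℕ∞) : WithTop ℕ∞) ≤ (r : WithTop ℕ∞) := by exact_mod_cast hr
    rw [h] at h1
    simp at h1
  intro h0
  have hsn : Differentiable ℝ (fun y : ℝ => sn x y) :=
    ((contDiff_sn (m := m) 1).comp (contDiff_const.prodMk contDiff_id)).differentiable one_ne_zero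
  have hFd : Differentiable ℝ F := hF.differentiable hr0
  have hGd : Differentiable ℝ G := hG.differentiable hr0
  have hFs : Differentiable ℝ (fun y : ℝ => F (sn x y)) := hFd.comp hsn
  -- the derivative of `y ↦ F (sn x y)` vanishes
  have h1 : deriv (fun y : ℝ => F (sn x y)) y = 0 := by
    have h2 := (hasDerivAt_pi.1 (hFs y).hasDerivAt)
    funext i
    refine Fin.lastCases ?_ (fun i => ?_) i
    · exact (h2 (Fin.last m)).deriv.symm.trans h0
    · have h3 := (h2 (Fin.castSucc i)).deriv
      have h4 : (fun y : ℝ => F (sn x y) (Fin.castSucc i)) = fun _ => base F x i := by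
        funext y
        rw [F_sn hF.continuous hl hφ, sn_cast]
      rw [h4] at h3
      simp only [deriv_const] at h3
      exact h3.symm
  -- hence so does the derivative of `y ↦ G (F (sn x y)) = sn x y`
  have h5 : HasDerivAt (fun y : ℝ => G (F (sn x y))) (fderiv ℝ G (F (sn x y)) 0) y := by
    have h6 : HasDerivAt (fun y : ℝ => F (sn x y)) 0 y := by
      rw [← h1]
      exact (hFs y).hasDerivAt
    exact (hGd (F (sn x y))).hasFDerivAt.comp_hasDerivAt y h6
  have h7 : (fun y : ℝ => G (F (sn x y))) = fun y => sn x y := by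
    funext y
    exact hGF _
  rw [h7, map_zero] at h5
  have h8 := (hasDerivAt_pi.1 h5) (Fin.last m)
  simp only [sn_last, Pi.zero_apply] at h8
  exact one_ne_zero ((hasDerivAt_id y).unique h8)

theorem fib_Deg (hF : Continuous F) (hf : Function.Injective f) (hl : IsLift F f)
    (hφ : ∀ z, Fin.init (f z) = φ (Fin.init z)) (hi : Function.Injective F) (x : V m) :
    Deg (fib F x) := by
  obtain ⟨A, hA⟩ := exists_A F hF (lift_per hl)
  set k : ℤ := A (eL m) (Fin.last m) with hk
  have h1 : ∀ y, fib F x (y + 1) = fib F x y + k := by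
    intro y
    unfold fib
    rw [sn_add_one, hA]
  have hinj := fib_injective hF hl hφ hi x
  have hc : Continuous (fib F x) := by
    have h1 : Continuous (fun y : ℝ => sn x y) :=
      (contDiff_sn (m := m) 0).continuous.comp (continuous_const.prodMk continuous_id)
    exact (continuous_apply (Fin.last m)).comp (hF.comp h1)
  -- no other point of the open interval has the same image
  have key : ∀ y ∈ Icc (0 : ℝ) 1, ∀ l : ℤ, fib F x y = fib F x 0 + l → y = 0 ∨ y = 1 := by
    intro y hy l hyl
    have h2 : mk (F (sn x y)) = mk (F (sn x 0)) := by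
      rw [F_sn hF hl hφ, F_sn hF hl hφ]
      rw [mk_eq_iff]
      refine ⟨fun i => if i = Fin.last m then l else 0, ?_⟩
      funext i
      refine Fin.lastCases ?_ (fun i => ?_) i
      · rw [sn_last, sn_last, hyl]
        simp
      · rw [sn_cast, sn_cast]
        have : (Fin.castSucc i) ≠ Fin.last m := (Fin.castSucc_lt_last i).ne
        simp [this]
    rw [hl, hl] at h2
    obtain ⟨j, hj⟩ := (mk_eq_iff _ _).1 (hf h2)
    have h3 := congrFun hj (Fin.last m)
    rw [sn_last] at h3
    simp only [sn_last, zero_add] at h3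
    have h4 : (0 : ℝ) ≤ (j (Fin.last m) : ℝ) := by rw [← h3]; exact hy.1
    have h5 : (j (Fin.last m) : ℝ) ≤ 1 := by rw [← h3]; exact hy.2
    have h6 : 0 ≤ j (Fin.last m) := by exact_mod_cast h4
    have h7 : j (Fin.last m) ≤ 1 := by exact_mod_cast h5
    rcases (by omega : j (Fin.last m) = 0 ∨ j (Fin.last m) = 1) with h | h
    · left; rw [h3, h]; simp
    · right; rw [h3, h]; simp
  have h01 : fib F x 1 = fib F x 0 + k := by
    have := h1 0
    rwa [zero_add] at this
  have hk0 : k ≠ 0 := by
    intro h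
    rw [h] at h01
    have := hinj (h01.trans (by simp : fib F x 0 + ((0 : ℤ) : ℝ) = fib F x 0))
    exact one_ne_zero this
  have hk2 : k ≤ 1 := by
    by_contra hcon
    push Not at hcon
    have hkr : (2 : ℝ) ≤ k := by exact_mod_cast hcon
    obtain ⟨y, hy, hyy⟩ := intermediate_value_Icc (zero_le_one' ℝ) hc.continuousOn
      (show fib F x 0 + 1 ∈ Icc (fib F x 0) (fib F x 1) from ⟨by linarith, by rw [h01]; linarith⟩)
    rcases key y hy 1 (by rw [hyy]; simp) with h | h
    · rw [h] at hyy; linarith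
    · rw [h, h01] at hyy; linarith
  have hk3 : -1 ≤ k := by
    by_contra hcon
    push Not at hcon
    have hcon' : k ≤ -2 := by omega
    have hkr : (k : ℝ) ≤ -2 := by exact_mod_cast hcon'
    obtain ⟨y, hy, hyy⟩ := intermediate_value_Icc' (zero_le_one' ℝ) hc.continuousOn
      (show fib F x 0 - 1 ∈ Icc (fib F x 1) (fib F x 0) from ⟨by rw [h01]; linarith, by linarith⟩)
    rcases key y hy (-1) (by rw [hyy]; push_cast; ring) with h | h
    · rw [h] at hyy; linarith
    · rw [h, h01] at hyy; linarith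
  rcases (by omega : k = 1 ∨ k = -1) with h | h
  · left
    intro y
    rw [h1, h]
    simp
  · right
    intro y
    rw [h1, h]
    push_cast
    ring

/-- The base map is a diffeomorphism. -/
theorem base_diffeo (hf : Function.Bijective f) (hF : ContDiff ℝ r F)
    (hG : ContDiff ℝ r G) (hGF : Function.LeftInverse G F) (hFG : Function.RightInverse G F)
    (hl : IsLift F f) (hφ : ∀ z, Fin.init (f z) = φ (Fin.init z)) : IsDiffeo r φ := by
  have hFc := hF.continuous
  have hDeg : ∀ x : V m, Deg (fib F x) := fun x => fib_Deg hFc hf.1 hl hφ hGF.injective x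
  have hsurj : ∀ x : V m, Function.Surjective (fib F x) := fun x =>
    surj_of_Deg _ (contDiff_fib hF x).continuous (hDeg x)
  have hlift : IsLift (base F) φ := by
    intro x
    show mk (Fin.init (F (sn x 0)) : V m) = φ (mk x)
    rw [mk_init_F hl hφ, init_sn]
  refine ⟨⟨?_, ?_⟩, base F, base G, contDiff_base hF, contDiff_base hG, ?_, ?_, hlift⟩
  · intro a b h
    obtain ⟨x, rfl⟩ := mk_surjective a
    obtain ⟨x', rfl⟩ := mk_surjective b
    rw [← hlift, ← hlift] at h
    obtain ⟨y, hy⟩ := hsurj x 0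
    obtain ⟨y', hy'⟩ := hsurj x' 0
    have h1 : mk (F (sn x y)) = mk (F (sn x' y')) := by
      rw [F_sn hFc hl hφ, F_sn hFc hl hφ, hy, hy']
      obtain ⟨k, hk⟩ := (mk_eq_iff _ _).1 h
      rw [mk_eq_iff]
      refine ⟨Fin.snoc k 0, ?_⟩
      funext i
      refine Fin.lastCases ?_ (fun i => ?_) i
      · rw [sn_last, sn_last]
        simp
      · rw [sn_cast, sn_cast, hk]
        simp
    rw [hl, hl] at h1
    exact mk_sn_congr (hf.1 h1)
  · intro b
    obtain ⟨z, hz⟩ := hf.2 (Fin.snoc b 0 : T (m + 1))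
    refine ⟨Fin.init z, ?_⟩
    rw [← hφ, hz]
    exact Fin.init_snoc (α := fun _ => UnitAddCircle) _ _
  · intro x
    obtain ⟨y, hy⟩ := hsurj x 0
    show (Fin.init (G (sn (base F x) 0)) : V m) = x
    have h1 : F (sn x y) = sn (base F x) 0 := by rw [F_sn hFc hl hφ, hy]
    rw [← h1, hGF, init_sn]
  · intro x'
    show base F (Fin.init (G (sn x' 0))) = x'
    rw [← init_F hFc hl hφ, hFG, init_sn]

end

end TRUNC_

open LIFT_ TRUNC_ in
theorem pTRUNC : T_TRUNC := by
  intro m r f φ hr ⟨hf, F₀, G₀, hF₀, hG₀, hGF₀, hFG₀, hl₀⟩ hφ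
  refine ⟨base_diffeo hf hF₀ hG₀ hGF₀ hFG₀ hl₀ hφ, fun F hF hl => ?_⟩
  -- the two lifts differ by a constant integer vector
  have hdiff : ∃ c : V (m + 1), ∀ x, F x = F₀ x + c := by
    refine ⟨F 0 - F₀ 0, fun x => ?_⟩
    funext i
    have hc : Continuous (fun x : V (m + 1) => F x i - F₀ x i) :=
      ((continuous_apply i).comp hF.continuous).sub ((continuous_apply i).comp hF₀.continuous)
    have hi : ∀ x : V (m + 1), ∃ k : ℤ, F x i - F₀ x i = k := by
      intro x
      have h1 : mk (F x) = mk (F₀ x) := by rw [hl, hl₀]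
      obtain ⟨k, hk⟩ := (mk_eq_iff _ _).1 h1
      refine ⟨k i, ?_⟩
      rw [hk]
      ring
    have h := const_of_int _ hc hi x 0
    simp only [Pi.add_apply, Pi.sub_apply]
    linarith
  obtain ⟨c, hc⟩ := hdiff
  have hG : ContDiff ℝ r (fun z => G₀ (z - c)) := hG₀.comp (contDiff_id.sub contDiff_const)
  have hGF : Function.LeftInverse (fun z => G₀ (z - c)) F := by
    intro x
    show G₀ (F x - c) = x
    rw [hc, add_sub_cancel_right, hGF₀]
  refine ⟨⟨base F, contDiff_base hF, ?_, fun x => init_F hF.continuous hl hφ x⟩, fun x =>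
    ⟨contDiff_fib hF x, fun y => fib_deriv_ne hr hF hG hl hφ hGF x y,
      fib_Deg hF.continuous hf.1 hl hφ hGF.injective x⟩⟩
  intro x
  show mk (Fin.init (F (sn x 0)) : V m) = φ (mk x)
  rw [mk_init_F hl hφ, init_sn]

end Pool.Agent.Tri
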