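import Pool.Agent.Tri.Basic

/-!
# Triangular diffeomorphisms are towers over a point
-/

set_option autoImplicit false

open Set MeasureTheory Filter Topology
open scoped ContDiff

namespace Pool.Agent.Tri

namespace TRI0_

instance : Subsingleton (T 0) := ⟨fun _ _ => funext fun i => i.elim0⟩

lemma lim_zero (r : ℕ∞) (φ : T 0 → T 0) : φ ∈ Lim r := by
  refine ⟨⟨⟨fun _ _ _ => Subsingleton.elim _ _, fun b => ⟨b, Subsingleton.elim _ _⟩⟩, id, id,
    contDiff_id, contDiff_id, fun _ => rfl, fun _ => rfl, fun _ => Subsingleton.elim _ _⟩, ?_⟩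
  refine ⟨univ, ?_, fun p _ => ⟨1, le_rfl, Subsingleton.elim _ _⟩, fun x => ⟨x, mem_univ _, ?_⟩⟩
  · exact Set.toFinite _
  · simp

lemma inClosure_zero (r : ℕ∞) (φ : T 0 → T 0) : InClosure r φ (Lim r) := by
  intro K _ ε hε
  refine ⟨φ, lim_zero r φ, id, id, contDiff_id, contDiff_id, fun _ => Subsingleton.elim _ _,
    fun _ => Subsingleton.elim _ _, fun j _ x => ?_⟩
  simp [hε.le]

end TRI0_

open TRI0_

theorem triangular_of_main (h : T_MAIN) {n : ℕ} {r : ℕ∞} (hr : 1 ≤ r) {f : T n → T n}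
    (hf : IsDiffeo r f) (ht : Triangular f) :
    InClosure r f {g | IsDiffeo r g ∧ Triangular g ∧ FinitelyManyLimits g ∧
      FinitelyManyAttractors g} := by
  have h0 := h 0 n (Nat.zero_le n) r id f hr (inClosure_zero r id) hf
    ⟨fun z => Subsingleton.elim _ _, fun i _ => ht i⟩
  intro K hK ε hε
  obtain ⟨g, ⟨h1, h2, h3, ψ, _, _, h4⟩, hc⟩ := h0 K hK ε hε
  exact ⟨g, ⟨h1, fun i => h4.2 i (Nat.zero_le _), h2, h3⟩, hc⟩

end Pool.Agent.Tri
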