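import Pool.Agent.Tri.TRIG
import Pool.Agent.Tri.CLOSE
import Pool.Agent.Tri.INC
import Pool.Agent.Tri.DEC
import Pool.Agent.Tri.LYAP
import Pool.Agent.Tri.FAM
import Pool.Agent.Tri.DYN
import Pool.Agent.Tri.PERGRAD
import Pool.Agent.Tri.ATTR
import Pool.Agent.Tri.OPEN
import Pool.Agent.Tri.TRUNC
import Pool.Agent.Tri.BUMP
import Pool.Agent.Tri.SMALL
import Pool.Agent.Tri.Step
import Pool.Agent.Tri.Main
import Pool.Agent.Tri.Tri0

/-!
# The theorem on towers of circle extensions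
-/

set_option autoImplicit false

namespace Pool.Agent.Tri

theorem main_theorem : T_MAIN :=
  pMAIN pATTR pTRUNC (pSTEP pOPEN pTRUNC pBUMP pSMALL
    (pFAM pTRIG (pINC pCLOSE) pDEC pLYAP) pDYN pPER pGRAD)

end Pool.Agent.Tri
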