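import Pool.Agent.Tri.Targets

/-!
# Basic facts on lifts of torus maps (used by OPEN and TRUNC)
-/

set_option autoImplicit false

open Set MeasureTheory Filter Topology
open scoped ContDiff

namespace Pool.Agent.Tri

namespace LIFT_

theorem mk_eq_iff {n : ℕ} (x y : V n) :
    mk x = mk y ↔ ∃ k : Fin n → ℤ, x = fun i => y i + k i := by
  constructor
  · intro h
    have h1 : ∀ i, ∃ k : ℤ, x i = y i + k := by
      intro i
      have h2 : (x i : UnitAddCircle) = (y i : UnitAddCircle) := congrFun h i
      have h3 : ((x i - y i : ℝ) : UnitAddCircle) = 0 := by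
        rw [AddCircle.coe_sub, h2, sub_self]
      obtain ⟨k, hk⟩ := (AddCircle.coe_eq_zero_iff (p := (1 : ℝ))).1 h3
      refine ⟨k, ?_⟩
      simp at hk
      linarith
    choose k hk using h1
    exact ⟨k, funext hk⟩
  · rintro ⟨k, rfl⟩
    funext i
    show ((y i + k i : ℝ) : UnitAddCircle) = (y i : UnitAddCircle)
    rw [AddCircle.coe_add]
    have : ((k i : ℝ) : UnitAddCircle) = 0 := by
      rw [AddCircle.coe_eq_zero_iff]
      exact ⟨k i, by simp⟩
    rw [this, add_zero]

theorem mk_surjective {n : ℕ} : Function.Surjective (mk : V n → T n) := by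
  intro z
  have : ∀ i, ∃ x : ℝ, (x : UnitAddCircle) = z i := fun i => QuotientAddGroup.mk_surjective (z i)
  choose x hx using this
  exact ⟨x, funext hx⟩

theorem mk_add_int {n : ℕ} (x : V n) (k : Fin n → ℤ) : mk (fun i => x i + k i) = mk x :=
  (mk_eq_iff _ _).2 ⟨k, rfl⟩

/-- A continuous function with values in the integers is constant. -/
theorem const_of_int {X : Type} [TopologicalSpace X] [PreconnectedSpace X] (g : X → ℝ)
    (hg : Continuous g) (h : ∀ x, ∃ k : ℤ, g x = k) (x y : X) : g x = g y := by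
  choose k hk using h
  have hgk : g = fun x => (k x : ℝ) := funext hk
  have hk' : Continuous k := by
    rw [hgk] at hg
    exact (Int.isClosedEmbedding_coe_real.isEmbedding.continuous_iff).2 hg
  have : k x = k y := PreconnectedSpace.constant inferInstance hk'
  rw [hk, hk, this]

/-- The integer matrix (as a function) of a lift. -/
theorem exists_A {n m : ℕ} (F : V n → V m) (hF : Continuous F)
    (hper : ∀ x (k : Fin n → ℤ), mk (F (fun i => x i + k i)) = mk (F x)) :
    ∃ A : (Fin n → ℤ) → (Fin m → ℤ), ∀ x k, F (fun i => x i + k i) = fun j => F x j + A k j := by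
  have h1 : ∀ k : Fin n → ℤ, ∃ a : Fin m → ℤ, ∀ x, F (fun i => x i + k i) = fun j => F x j + a j := by
    intro k
    obtain ⟨a, ha⟩ := (mk_eq_iff _ _).1 (hper 0 k)
    refine ⟨a, fun x => ?_⟩
    funext j
    have hc : Continuous (fun x : V n => F (fun i => x i + k i) j - F x j) := by
      apply Continuous.sub
      · exact (continuous_apply j).comp (hF.comp (by fun_prop))
      · exact (continuous_apply j).comp hF
    have hi : ∀ x : V n, ∃ l : ℤ, F (fun i => x i + k i) j - F x j = l := by
      intro x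
      obtain ⟨b, hb⟩ := (mk_eq_iff _ _).1 (hper x k)
      refine ⟨b j, ?_⟩
      rw [hb]
      ring
    have h := const_of_int _ hc hi x 0
    rw [ha] at h
    linarith
  choose A hA using h1
  exact ⟨A, fun x k => hA k x⟩

theorem lift_per {n : ℕ} {f : T n → T n} {F : V n → V n} (hl : IsLift F f) (x : V n)
    (k : Fin n → ℤ) : mk (F (fun i => x i + k i)) = mk (F x) := by
  rw [hl, hl, mk_add_int]

/-- The integer vector map of the lift of a bijection is surjective. -/
theorem A_surjective {n : ℕ} {f : T n → T n} {F : V n → V n} (hf : Function.Injective f)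
    (hFs : Function.Surjective F) (hl : IsLift F f) (A : (Fin n → ℤ) → (Fin n → ℤ))
    (hA : ∀ x k, F (fun i => x i + k i) = fun j => F x j + A k j) : Function.Surjective A := by
  intro l
  obtain ⟨y, hy⟩ := hFs (fun j => F 0 j + l j)
  have h1 : mk (F y) = mk (F 0) := by
    rw [hy]; exact mk_add_int _ _
  rw [hl, hl] at h1
  obtain ⟨k, hk⟩ := (mk_eq_iff _ _).1 (hf h1)
  refine ⟨k, ?_⟩
  have h2 := hA 0 k
  rw [← hk, hy] at h2
  funext j
  have h3 := congrFun h2 j
  have h4 : (l j : ℝ) = A k j := by linarith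
  exact_mod_cast h4.symm

/-- The inverse of a lift is also equivariant. -/
theorem G_per {n : ℕ} {F G : V n → V n} (hGF : Function.LeftInverse G F)
    (hFG : Function.RightInverse G F) (A : (Fin n → ℤ) → (Fin n → ℤ))
    (hA : ∀ x k, F (fun i => x i + k i) = fun j => F x j + A k j) (hAs : Function.Surjective A)
    (l : Fin n → ℤ) : ∃ k : Fin n → ℤ, A k = l ∧ ∀ z, G (fun i => z i + l i) = fun j => G z j + k j := by
  obtain ⟨k, rfl⟩ := hAs l
  refine ⟨k, rfl, fun z => ?_⟩
  have h := hA (G z) k
  rw [hFG z] at h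
  rw [← h, hGF]

/-- Every point is congruent to a point of the unit cube. -/
theorem exists_cube {n : ℕ} (x : V n) : ∃ k : Fin n → ℤ, ∃ y ∈ Icc (0 : V n) 1,
    x = fun i => y i + k i := by
  refine ⟨fun i => ⌊x i⌋, fun i => Int.fract (x i), ?_, ?_⟩
  · constructor
    · intro i; exact Int.fract_nonneg _
    · intro i; exact (Int.fract_lt_one _).le
  · funext i
    exact (Int.fract_add_floor (x i)).symm

/-- A continuous periodic function is bounded. -/
theorem bounded_of_per {n : ℕ} {E : Type} [NormedAddCommGroup E] (g : V n → E)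
    (hg : Continuous g) (hp : ∀ (x : V n) (k : Fin n → ℤ), g (fun i => x i + k i) = g x) :
    ∃ C : ℝ, 0 ≤ C ∧ ∀ x, ‖g x‖ ≤ C := by
  obtain ⟨C, hC⟩ := (isCompact_Icc (a := (0 : V n)) (b := 1)).exists_bound_of_continuousOn
    hg.continuousOn
  refine ⟨max C 0, le_max_right _ _, fun x => ?_⟩
  obtain ⟨k, y, hy, rfl⟩ := exists_cube x
  rw [hp]
  exact (hC y hy).trans (le_max_left _ _)

end LIFT_

end Pool.Agent.Tri
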