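import Pool.Agent.Tri.Targets

/-!
# Approximation of periodic functions by trigonometric polynomials (TRIG)
-/

set_option autoImplicit false

open Set MeasureTheory Filter Topology
open scoped ContDiff

namespace Pool.Agent.Tri

namespace TRIG_

/-- The generators. -/
noncomputable def gen (q : Bool × ℤ) (x : ℝ) : ℝ :=
  if q.1 then Real.cos (2 * Real.pi * q.2 * x) else Real.sin (2 * Real.pi * q.2 * x)

/-- The real trigonometric polynomials. -/
noncomputable def C : Submodule ℝ (ℝ → ℝ) := Submodule.span ℝ (range gen)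

lemma cos_mem (k : ℤ) : (fun x : ℝ => Real.cos (2 * Real.pi * k * x)) ∈ C :=
  Submodule.subset_span ⟨(true, k), by funext x; simp [gen]⟩

lemma sin_mem (k : ℤ) : (fun x : ℝ => Real.sin (2 * Real.pi * k * x)) ∈ C :=
  Submodule.subset_span ⟨(false, k), by funext x; simp [gen]⟩

lemma const_mem (c : ℝ) : (fun _ : ℝ => c) ∈ C := by
  have h := C.smul_mem c (cos_mem 0)
  have e : c • (fun x : ℝ => Real.cos (2 * Real.pi * ((0 : ℤ) : ℝ) * x)) = fun _ : ℝ => c := by
    funext x
    simp
  rwa [e] at h

lemma analytic {τ : ℝ → ℝ} (h : τ ∈ C) : AnalyticOnNhd ℝ τ univ := by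
  induction h using Submodule.span_induction with
  | mem τ h =>
    obtain ⟨⟨b, k⟩, rfl⟩ := h
    intro x _
    cases b
    · have : gen (false, k) = fun x : ℝ => Real.sin (2 * Real.pi * k * x) := by
        funext x; simp [gen]
      rw [this]
      fun_prop
    · have : gen (true, k) = fun x : ℝ => Real.cos (2 * Real.pi * k * x) := by
        funext x; simp [gen]
      rw [this]
      fun_prop
  | zero => exact analyticOnNhd_const
  | add f g _ _ hf hg => exact hf.add hg
  | smul a f _ hf => exact fun x hx => (analyticAt_const.smul (hf x hx))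

lemma periodic {τ : ℝ → ℝ} (h : τ ∈ C) : ∀ y, τ (y + 1) = τ y := by
  induction h using Submodule.span_induction with
  | mem τ h =>
    obtain ⟨⟨b, k⟩, rfl⟩ := h
    intro y
    have e : 2 * Real.pi * k * (y + 1) = 2 * Real.pi * k * y + k * (2 * Real.pi) := by ring
    cases b
    · simp only [gen, Bool.false_eq_true, if_false]
      rw [e, Real.sin_add_int_mul_two_pi]
    · simp only [gen, if_true]
      rw [e, Real.cos_add_int_mul_two_pi]
  | zero => intro y; rfl
  | add f g _ _ hf hg => intro y; simp [hf y, hg y]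
  | smul a f _ hf => intro y; simp [hf y]

lemma primitive {τ : ℝ → ℝ} (h : τ ∈ C) : ∃ c : ℝ, ∃ τ1 ∈ C, ∀ x, HasDerivAt τ1 (τ x - c) x := by
  induction h using Submodule.span_induction with
  | mem τ h =>
    obtain ⟨⟨b, k⟩, rfl⟩ := h
    have hpi := Real.pi_ne_zero
    have hl : ∀ x : ℝ, HasDerivAt (fun x : ℝ => 2 * Real.pi * k * x) (2 * Real.pi * k) x := by
      intro x
      simpa using (hasDerivAt_id x).const_mul (2 * Real.pi * k)
    rcases eq_or_ne k 0 with hk | hk
    · refine ⟨gen (b, k) 0, 0, C.zero_mem, ?_⟩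
      intro x
      have : gen (b, k) x - gen (b, k) 0 = 0 := by
        simp [gen, hk]
      rw [this]
      exact hasDerivAt_const x 0
    · have hk2 : (k : ℝ) ≠ 0 := by exact_mod_cast hk
      cases b
      · refine ⟨0, _, C.smul_mem (-(1 / (2 * Real.pi * k))) (cos_mem k), ?_⟩
        intro x
        have h1 := ((hl x).cos).const_mul (-(1 / (2 * Real.pi * k)))
        have h2 : gen (false, k) x - 0 = -(1 / (2 * Real.pi * k)) *
            (-Real.sin (2 * Real.pi * k * x) * (2 * Real.pi * k)) := by
          simp only [gen, Bool.false_eq_true, if_false]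
          field_simp
          ring
        rw [h2]
        exact h1
      · refine ⟨0, _, C.smul_mem (1 / (2 * Real.pi * k)) (sin_mem k), ?_⟩
        intro x
        have h1 := ((hl x).sin).const_mul (1 / (2 * Real.pi * k))
        have h2 : gen (true, k) x - 0 = (1 / (2 * Real.pi * k)) *
            (Real.cos (2 * Real.pi * k * x) * (2 * Real.pi * k)) := by
          simp only [gen, if_true]
          field_simp
          ring
        rw [h2]
        exact h1
  | zero =>
    refine ⟨0, 0, C.zero_mem, fun x => ?_⟩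
    simp
  | add f g _ _ hf hg =>
    obtain ⟨c, f1, hf1, hf2⟩ := hf
    obtain ⟨d, g1, hg1, hg2⟩ := hg
    refine ⟨c + d, f1 + g1, C.add_mem hf1 hg1, fun x => ?_⟩
    have := (hf2 x).add (hg2 x)
    refine this.congr_deriv ?_
    simp only [Pi.add_apply]
    ring
  | smul a f _ hf =>
    obtain ⟨c, f1, hf1, hf2⟩ := hf
    refine ⟨a * c, a • f1, C.smul_mem a hf1, fun x => ?_⟩
    have := (hf2 x).const_smul a
    refine this.congr_deriv ?_
    simp only [Pi.smul_apply, smul_eq_mul]
    ring

/-- The elements of the span of the Fourier monomials. -/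
lemma re_im {G : C(AddCircle (1 : ℝ), ℂ)} (hG : G ∈ Submodule.span ℂ (range (@fourier 1))) :
    ∃ a ∈ C, ∃ b ∈ C, ∀ x : ℝ, (G (x : AddCircle (1 : ℝ))).re = a x ∧
      (G (x : AddCircle (1 : ℝ))).im = b x := by
  induction hG using Submodule.span_induction with
  | mem G h =>
    obtain ⟨k, rfl⟩ := h
    refine ⟨_, cos_mem k, _, sin_mem k, ?_⟩
    intro x
    have e : fourier k (x : AddCircle (1 : ℝ)) =
        Complex.exp ((2 * Real.pi * k * x : ℝ) * Complex.I) := by
      rw [fourier_coe_apply]
      congr 1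
      push_cast
      ring
    rw [e]
    exact ⟨Complex.exp_ofReal_mul_I_re _, Complex.exp_ofReal_mul_I_im _⟩
  | zero => exact ⟨0, C.zero_mem, 0, C.zero_mem, fun x => ⟨rfl, rfl⟩⟩
  | add F G _ _ hF hG =>
    obtain ⟨a, ha, b, hb, h⟩ := hF
    obtain ⟨c, hc, d, hd, h'⟩ := hG
    refine ⟨a + c, C.add_mem ha hc, b + d, C.add_mem hb hd, fun x => ?_⟩
    simp only [ContinuousMap.add_apply, Complex.add_re, Complex.add_im, Pi.add_apply]
    rw [(h x).1, (h x).2, (h' x).1, (h' x).2]
    exact ⟨rfl, rfl⟩
  | smul z F _ hF =>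
    obtain ⟨a, ha, b, hb, h⟩ := hF
    refine ⟨z.re • a - z.im • b, C.sub_mem (C.smul_mem _ ha) (C.smul_mem _ hb),
      z.re • b + z.im • a, C.add_mem (C.smul_mem _ hb) (C.smul_mem _ ha), fun x => ?_⟩
    simp only [ContinuousMap.smul_apply, smul_eq_mul, Complex.mul_re, Complex.mul_im,
      Pi.sub_apply, Pi.add_apply, Pi.smul_apply]
    rw [(h x).1, (h x).2]
    exact ⟨rfl, rfl⟩

lemma base {f : ℝ → ℝ} (hf : Continuous f) (hp : ∀ y, f (y + 1) = f y) {ε : ℝ} (hε : 0 < ε) :
    ∃ τ ∈ C, ∀ y, |f y - τ y| ≤ ε := by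
  have hper : Function.Periodic (fun x : ℝ => (f x : ℂ)) 1 := by
    intro x
    simp [hp x]
  have hcont : Continuous hper.lift :=
    continuous_coinduced_dom.mpr (by
      change Continuous (fun x : ℝ => (f x : ℂ))
      fun_prop)
  set F : C(AddCircle (1 : ℝ), ℂ) := ⟨hper.lift, hcont⟩ with hF
  have : Fact ((0 : ℝ) < 1) := ⟨one_pos⟩
  have hd := span_fourier_closure_eq_top (T := (1 : ℝ))
  have hmem : F ∈ (Submodule.span ℂ (range (@fourier (1 : ℝ)))).topologicalClosure := by
    rw [hd]
    trivial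
  have hmem2 : F ∈ closure ((Submodule.span ℂ (range (@fourier (1 : ℝ))) :
      Set C(AddCircle (1 : ℝ), ℂ))) := hmem
  obtain ⟨G, hG, hGF⟩ := Metric.mem_closure_iff.1 hmem2 ε hε
  obtain ⟨a, ha, b, hb, h⟩ := re_im hG
  refine ⟨a, ha, fun y => ?_⟩
  rw [← (h y).1]
  have h1 : f y = (F (y : AddCircle (1 : ℝ))).re := by
    simp [hF]
  rw [h1, ← Complex.sub_re]
  refine (Complex.abs_re_le_norm _).trans ?_
  have h2 := (F - G).norm_coe_le_norm (y : AddCircle (1 : ℝ))
  rw [ContinuousMap.sub_apply, ← dist_eq_norm F G] at h2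
  exact h2.trans hGF.le

lemma main (K : ℕ) : ∀ (f : ℝ → ℝ), ContDiff ℝ K f → (∀ y, f (y + 1) = f y) → ∀ ε : ℝ, 0 < ε →
    ∃ τ ∈ C, ∀ j ≤ K, ∀ y, |iteratedDeriv j f y - iteratedDeriv j τ y| ≤ ε := by
  induction K with
  | zero =>
    intro f hf hp ε hε
    obtain ⟨τ, hτ, h⟩ := base hf.continuous hp hε
    refine ⟨τ, hτ, fun j hj y => ?_⟩
    obtain rfl : j = 0 := by omega
    rw [iteratedDeriv_zero, iteratedDeriv_zero]
    exact h y
  | succ K ih =>
    intro f hf hp ε hε
    have hf1 : ContDiff ℝ K (deriv f) := by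
      have h1 : ContDiff ℝ ((K : ℕ∞) + 1 : ℕ∞) f := by exact_mod_cast hf
      have h2 : ContDiff ℝ ((K : WithTop ℕ∞) + 1) f := by exact_mod_cast hf
      exact (contDiff_succ_iff_deriv.1 h2).2.2
    have hfd : Differentiable ℝ f := hf.differentiable (by
      exact_mod_cast Nat.succ_ne_zero K)
    have hp1 : ∀ y, deriv f (y + 1) = deriv f y := by
      intro y
      have h1 : (fun x => f (x + 1)) = f := by
        funext x
        exact hp x
      rw [← deriv_comp_add_const, h1]
    obtain ⟨τ1, hτ1, h1⟩ := ih (deriv f) hf1 hp1 (ε / 2) (by positivity)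
    obtain ⟨c, τ2, hτ2, h2⟩ := primitive hτ1
    have hd1 : ∀ x, |deriv f x - τ1 x| ≤ ε / 2 := by
      intro x
      simpa using h1 0 (Nat.zero_le _) x
    -- the mean of `τ1` is small
    have hc : |c| ≤ ε / 2 := by
      have h3 : ∀ x, HasDerivAt (fun x => f x - τ2 x - c * x) (deriv f x - τ1 x) x := by
        intro x
        have := ((hfd x).hasDerivAt.sub (h2 x)).sub ((hasDerivAt_id x).const_mul c)
        refine this.congr_deriv ?_
        ring
      have h4 := Convex.norm_image_sub_le_of_norm_hasDerivWithin_le (𝕜 := ℝ)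
        (f := fun x => f x - τ2 x - c * x) (s := univ) (C := ε / 2)
        (f' := fun x => deriv f x - τ1 x) (fun x _ => (h3 x).hasDerivWithinAt)
        (fun x _ => hd1 x) convex_univ (mem_univ 0) (mem_univ 1)
      have e1 : f 1 = f 0 := by simpa using hp 0
      have e2 : τ2 1 = τ2 0 := by simpa using periodic hτ2 0
      have e3 : (f 1 - τ2 1 - c * 1) - (f 0 - τ2 0 - c * 0) = -c := by
        rw [e1, e2]
        ring
      rw [e3] at h4
      simpa using h4
    set d : ℝ := f 0 - τ2 0 with hd
    obtain ⟨τ3, hτ3, e3⟩ : ∃ τ3 ∈ C, ∀ x, τ3 x = τ2 x + d :=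
      ⟨τ2 + fun _ => d, C.add_mem hτ2 (const_mem d), fun x => rfl⟩
    refine ⟨τ3, hτ3, ?_⟩
    have h5 : ∀ x, HasDerivAt τ3 (τ1 x - c) x := fun x => by
      have e4 : τ3 = fun x => τ2 x + d := funext e3
      rw [e4]
      exact (h2 x).add_const d
    have h6 : ∀ x, |deriv f x - (τ1 x - c)| ≤ ε := by
      intro x
      have : deriv f x - (τ1 x - c) = (deriv f x - τ1 x) + c := by ring
      rw [this]
      have := abs_add_le (deriv f x - τ1 x) c
      have := hd1 x
      linarith
    intro j hj y
    rcases j with _ | j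
    · rw [iteratedDeriv_zero, iteratedDeriv_zero]
      have h3 : ∀ x, HasDerivAt (fun x => f x - τ3 x)
          (deriv f x - (τ1 x - c)) x := fun x => (hfd x).hasDerivAt.sub (h5 x)
      have h4 : ∀ x ∈ Icc (0 : ℝ) 1, |f x - τ3 x| ≤ ε := by
        intro x hx
        have h7 := Convex.norm_image_sub_le_of_norm_hasDerivWithin_le (𝕜 := ℝ)
          (f := fun x => f x - τ3 x) (s := univ) (C := ε)
          (f' := fun x => deriv f x - (τ1 x - c)) (fun x _ => (h3 x).hasDerivWithinAt)
          (fun x _ => h6 x) convex_univ (mem_univ 0) (mem_univ x)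
        have e1 : f 0 - τ3 0 = 0 := by
          rw [e3, hd]
          ring
        simp only [e1, sub_zero] at h7
        refine h7.trans ?_
        rw [Real.norm_eq_abs, abs_of_nonneg hx.1]
        nlinarith [hx.2]
      have hper : Function.Periodic (fun x => f x - τ3 x) 1 := by
        intro x
        simp [hp x, periodic hτ3 x]
      have h8 : (fun x => f x - τ3 x) (Int.fract y) =
          (fun x => f x - τ3 x) y := by
        have := hper.sub_int_mul_eq ⌊y⌋ (x := y)
        rw [mul_one] at this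
        exact this
      have h9 := h4 (Int.fract y) ⟨Int.fract_nonneg y, (Int.fract_lt_one y).le⟩
      change |(fun x => f x - τ3 x) y| ≤ ε
      rw [← h8]
      exact h9
    · rw [iteratedDeriv_succ', iteratedDeriv_succ']
      have e1 : deriv τ3 = fun x => τ1 x - c := by
        funext x
        exact (h5 x).deriv
      rw [e1]
      rcases j with _ | j
      · rw [iteratedDeriv_zero, iteratedDeriv_zero]
        exact h6 y
      · have e2 : iteratedDeriv (j + 1) (fun x => τ1 x - c) = iteratedDeriv (j + 1) τ1 := by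
          rw [iteratedDeriv_succ', iteratedDeriv_succ']
          congr 1
          funext x
          exact deriv_sub_const c
        rw [e2]
        have := h1 (j + 1) (by omega) y
        linarith

end TRIG_

open TRIG_

theorem pTRIG : T_TRIG := by
  intro K f ε hf hp hε
  obtain ⟨τ, hτ, h⟩ := main K f hf hp ε hε
  exact ⟨τ, analytic hτ, periodic hτ, h⟩

end Pool.Agent.Tri
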