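import Pool.Agent.Tri.Defs

/-!
# The targets of the TRI jobs
-/

set_option autoImplicit false

open Set MeasureTheory Filter Topology
open scoped ContDiff

namespace Pool.Agent.Tri

/-! ## One dimensional lemmas -/

/-- `g` is a lift of a circle map of degree `1` or `-1`. -/
def Deg (g : ℝ → ℝ) : Prop := (∀ y, g (y + 1) = g y + 1) ∨ (∀ y, g (y + 1) = g y - 1)

/-- `η` is `1`-periodic and its derivatives of order at most `K` are at most `ε`. -/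
def Tiny (K : ℕ) (ε : ℝ) (η : ℝ → ℝ) : Prop :=
  (∀ y, η (y + 1) = η y) ∧ ∀ j ≤ K, ∀ y, |iteratedDeriv j η y| ≤ ε

/-- TRIG: approximation by analytic periodic functions. -/
def T_TRIG : Prop := ∀ (K : ℕ) (f : ℝ → ℝ) (ε : ℝ), ContDiff ℝ K f → (∀ y, f (y + 1) = f y) →
  0 < ε → ∃ τ : ℝ → ℝ, AnalyticOnNhd ℝ τ univ ∧ (∀ y, τ (y + 1) = τ y) ∧
    ∀ j ≤ K, ∀ y, |iteratedDeriv j f y - iteratedDeriv j τ y| ≤ ε

/-- CLOSE: a small rotation creates a periodic orbit. -/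
def T_CLOSE : Prop := ∀ (t : ℝ → ℝ) (ε : ℝ), Continuous t → StrictMono t →
  (∀ y, t (y + 1) = t y + 1) → 0 < ε →
  ∃ s : ℝ, |s| ≤ ε ∧ ∃ m : ℕ, 1 ≤ m ∧ ∃ (k : ℤ) (y : ℝ), (fun x => t x + s)^[m] y = y + k

/-- `s` is (a lift of) a circle homeomorphism that moves some points to the right, some to the
left, and has finitely many fixed points. -/
def Cross (s : ℝ → ℝ) : Prop := (∃ y, s y < y) ∧ (∃ y, y < s y) ∧ {y ∈ Icc (0 : ℝ) 1 | s y = y}.Finite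

/-- INC: the perturbation of an increasing analytic circle map. -/
def T_INC : Prop := ∀ (t : ℝ → ℝ) (K : ℕ) (ε : ℝ), AnalyticOnNhd ℝ t univ → StrictMono t →
  (∀ y, t (y + 1) = t y + 1) → 0 < ε →
  ∃ η : ℝ → ℝ, AnalyticOnNhd ℝ η univ ∧ Tiny K ε η ∧ ∃ N : ℕ, 1 ≤ N ∧ ∃ k : ℤ,
    Cross (fun y => (fun x => t x + η (t x))^[N] y - k)

/-- DEC: the perturbation of a decreasing analytic circle map. -/
def T_DEC : Prop := ∀ (t : ℝ → ℝ) (K : ℕ) (ε : ℝ), AnalyticOnNhd ℝ t univ → StrictAnti t →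
  (∀ y, t (y + 1) = t y - 1) → 0 < ε →
  ∃ η : ℝ → ℝ, AnalyticOnNhd ℝ η univ ∧ Tiny K ε η ∧
    Cross ((fun x => t x + η (t x))^[2])

/-- LYAP: a Lyapunov function. -/
def T_LYAP : Prop := ∀ s : ℝ → ℝ, Continuous s → StrictMono s → (∀ y, s (y + 1) = s y + 1) →
  (∃ y, s y < y) → (∃ y, y < s y) →
  ∃ W : ℝ → ℝ, Continuous W ∧ (∀ y, W (y + 1) = W y) ∧
    ∀ y, W (s y) ≤ W y ∧ (W (s y) = W y → s y = y)

/-! ## Families of circle maps over a finite dynamical system -/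

/-- The composition of `k` fibre maps along the orbit of `p`. -/
def iter {α : Type} (σ : α → α) (g : α → ℝ → ℝ) : ℕ → α → ℝ → ℝ
  | 0, _, y => y
  | k + 1, p, y => iter σ g k (σ p) (g p y)

/-- The fibre dynamics over the periodic point `p` has a Lyapunov function that is strict off a
finite set. -/
def Good {α : Type} (σ : α → α) (g : α → ℝ → ℝ) (p : α) : Prop :=
  ∃ N : ℕ, 1 ≤ N ∧ σ^[N] p = p ∧ ∃ W : ℝ → ℝ, Continuous W ∧ (∀ y, W (y + 1) = W y) ∧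
    (∀ y, W (iter σ g N p y) ≤ W y) ∧
    ∃ E : Set ℝ, E.Finite ∧ ∀ y, W (iter σ g N p y) = W y → ∃ e ∈ E, ∃ k : ℤ, y = e + k

/-- FAM: a finite family of circle diffeomorphisms over a permutation can be perturbed so that
all fibre maps are good. -/
def T_FAM : Prop := ∀ (α : Type) (P : Finset α) (σ : α → α) (g : α → ℝ → ℝ) (r : ℕ∞) (K : ℕ)
  (ε : ℝ), 1 ≤ K → (K : ℕ∞) ≤ r → 0 < ε → (∀ p ∈ P, σ p ∈ P) →
  (∀ p ∈ P, ∃ k : ℕ, 1 ≤ k ∧ σ^[k] p = p) →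
  (∀ p ∈ P, ContDiff ℝ r (g p) ∧ (∀ y, deriv (g p) y ≠ 0) ∧ Deg (g p)) →
  ∃ η : α → ℝ → ℝ, (∀ p ∈ P, ContDiff ℝ r (η p) ∧ Tiny K ε (η p)) ∧
    ∀ p ∈ P, Good σ (fun q y => g q y + η q y) p

/-! ## Dynamics -/

/-- DYN: if all `ω`-limit sets lie over a finite set `P` of the base and the fibre maps over `P`
are good, then all `ω`-limit sets lie over a finite set of base points and fibre coordinates. -/
def T_DYN : Prop := ∀ (X B : Type) [MetricSpace X] [CompactSpace X] [MetricSpace B] (f : X → X)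
  (φ : B → B) (a : X → B) (c : X → UnitAddCircle) (P : Finset B) (G : B → ℝ → ℝ),
  Continuous f → Continuous a → Continuous c → (∀ z, a (f z) = φ (a z)) →
  (∀ p ∈ P, φ p ∈ P) → (∀ p ∈ P, Continuous (G p) ∧ Deg (G p)) →
  (∀ z, a z ∈ P → ∀ y : ℝ, (y : UnitAddCircle) = c z → c (f z) = (G (a z) y : UnitAddCircle)) →
  (∀ p ∈ P, Good φ G p) →
  (∀ x z, MapClusterPt z atTop (fun k : ℕ => f^[k] x) → a z ∈ P) →
  ∃ Q : Set (B × UnitAddCircle), Q.Finite ∧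
    ∀ x z, MapClusterPt z atTop (fun k : ℕ => f^[k] x) → (a z, c z) ∈ Q

/-- PER: the finite invariant set that contains all `ω`-limit sets. -/
def T_PER : Prop := ∀ (X : Type) [MetricSpace X] (f : X → X), FinitelyManyLimits f →
  ∃ P : Finset X, (∀ p ∈ P, f p ∈ P) ∧ (∀ p ∈ P, ∃ k : ℕ, 1 ≤ k ∧ f^[k] p = p) ∧
    ∀ x z, MapClusterPt z atTop (fun k : ℕ => f^[k] x) → z ∈ P

/-- GRAD: if all `ω`-limit sets lie in a finite set then every orbit is asymptotic to a periodic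
orbit. -/
def T_GRAD : Prop := ∀ (X : Type) [MetricSpace X] [CompactSpace X] (f : X → X) (P : Set X),
  Continuous f → P.Finite → (∀ x z, MapClusterPt z atTop (fun k : ℕ => f^[k] x) → z ∈ P) →
  FinitelyManyLimits f

/-- ATTR: finitely many limits give finitely many attractors. -/
def T_ATTR : Prop := ∀ (n : ℕ) (f : T n → T n), FinitelyManyLimits f → FinitelyManyAttractors f

/-! ## Maps of the torus -/

/-- `u` is `ℤⁿ`-periodic. -/
def Per {n : ℕ} {E : Type} (u : V n → E) : Prop :=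
  ∀ (x : V n) (k : Fin n → ℤ), u (fun i => x i + k i) = u x

/-- OPEN: the diffeomorphisms are open. -/
def T_OPEN : Prop := ∀ (n : ℕ) (r : ℕ∞) (f : T n → T n) (F G : V n → V n), 1 ≤ r →
  Function.Bijective f → ContDiff ℝ r F → ContDiff ℝ r G → Function.LeftInverse G F →
  Function.RightInverse G F → IsLift F f →
  ∃ ε : ℝ, 0 < ε ∧ ∀ u : V n → V n, ContDiff ℝ r u → Per u → (∀ x, ‖fderiv ℝ u x‖ ≤ ε) →
    ∃ f' : T n → T n, IsDiffeo r f' ∧ IsLift (fun x => F x + u x) f'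

/-- TRUNC: the base map of a fibred diffeomorphism is a diffeomorphism, and the fibre maps are
circle diffeomorphisms. -/
def T_TRUNC : Prop := ∀ (m : ℕ) (r : ℕ∞) (f : T (m + 1) → T (m + 1)) (φ : T m → T m), 1 ≤ r →
  IsDiffeo r f → (∀ z, Fin.init (f z) = φ (Fin.init z)) →
  IsDiffeo r φ ∧ ∀ F : V (m + 1) → V (m + 1), ContDiff ℝ r F → IsLift F f →
    (∃ Φ : V m → V m, ContDiff ℝ r Φ ∧ IsLift Φ φ ∧ ∀ x, Fin.init (F x) = Φ (Fin.init x)) ∧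
    ∀ x : V m, ContDiff ℝ r (fun y : ℝ => F (Fin.snoc x y) (Fin.last m)) ∧
      (∀ y, deriv (fun y : ℝ => F (Fin.snoc x y) (Fin.last m)) y ≠ 0) ∧
      Deg (fun y : ℝ => F (Fin.snoc x y) (Fin.last m))

/-- BUMP: periodic functions that separate the points of a finite set. -/
def T_BUMP : Prop := ∀ (m : ℕ) (P : Finset (T m)), ∃ χ : T m → V m → ℝ, ∀ p ∈ P,
  ContDiff ℝ ∞ (χ p) ∧ Per (χ p) ∧ ∀ x, mk x ∈ P → (mk x = p → χ p x = 1) ∧
    (mk x ≠ p → χ p x = 0)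

/-- SMALL: the size of the perturbation. -/
def T_SMALL : Prop := ∀ (m : ℕ) (P : Finset (T m)) (χ : T m → V m → ℝ) (r : ℕ∞) (K : ℕ) (ε : ℝ),
  (K : ℕ∞) ≤ r → (∀ p ∈ P, ContDiff ℝ ∞ (χ p) ∧ Per (χ p)) → 0 < ε →
  ∃ δ : ℝ, 0 < δ ∧ ∀ η : T m → ℝ → ℝ, (∀ p ∈ P, ContDiff ℝ r (η p) ∧ Tiny K δ (η p)) →
    ContDiff ℝ r (fun x : V (m + 1) => ∑ p ∈ P, χ p (Fin.init x) * η p (x (Fin.last m))) ∧
    Per (fun x : V (m + 1) => ∑ p ∈ P, χ p (Fin.init x) * η p (x (Fin.last m))) ∧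
    ∀ j ≤ K, ∀ x, ‖iteratedFDeriv ℝ j
      (fun x : V (m + 1) => ∑ p ∈ P, χ p (Fin.init x) * η p (x (Fin.last m))) x‖ ≤ ε

/-! ## The theorem -/

/-- The good diffeomorphisms. -/
def Lim {n : ℕ} (r : ℕ∞) : Set (T n → T n) := {g | IsDiffeo r g ∧ FinitelyManyLimits g}

/-- STEP: one circle extension. -/
def T_STEP : Prop := ∀ (m : ℕ) (r : ℕ∞) (D : Set (T m → T m)) (φ : T m → T m)
  (f : T (m + 1) → T (m + 1)), 1 ≤ r → D ⊆ Lim r → InClosure r φ D → IsDiffeo r f →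
  (∀ z, Fin.init (f z) = φ (Fin.init z)) →
  InClosure r f {g | g ∈ Lim r ∧ ∃ ψ ∈ D, ∀ z, Fin.init (g z) = ψ (Fin.init z)}

/-- MAIN. -/
def T_MAIN : Prop := ∀ (d n : ℕ) (h : d ≤ n) (r : ℕ∞) (φ : T d → T d) (f : T n → T n), 1 ≤ r →
  InClosure r φ (Lim r) → IsDiffeo r f → Tower h φ f →
  InClosure r f {g | IsDiffeo r g ∧ FinitelyManyLimits g ∧ FinitelyManyAttractors g ∧
    ∃ ψ : T d → T d, IsDiffeo r ψ ∧ FinitelyManyLimits ψ ∧ Tower h ψ g}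

end Pool.Agent.Tri
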